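import Pool.Agent.Helper10.VR.Hyp

/-!
# Coarse geometry of median graphs modelled on a hyperbolic graph
-/

namespace Pool.Agent.Helper10.VR

open SimpleGraph

universe u v

variable {U : Type u} {Z : SimpleGraph U} {V : Type v} {X : SimpleGraph V}

/-- coarse equivalences (Lipschitz, proper, cobounded) -/
structure Coarse (Z : SimpleGraph U) (X : SimpleGraph V) (f : U → V) : Prop where
  lip : ∃ L, ∀ a b, X.dist (f a) (f b) ≤ L * Z.dist a b
  proper : ∀ R, ∃ C, ∀ a b, X.dist (f a) (f b) ≤ R → Z.dist a b ≤ C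
  cob : ∃ R, ∀ x, ∃ a, X.dist x (f a) ≤ R

/-- geodesics of `X` are close to geodesics of `Z` and conversely. -/
theorem coarse_main {δ : ℕ} (hδ : Slim Z δ) (hc : Z.Connected) (hX : X.Connected) {f : U → V}
    (hf : Coarse Z X f) (R : ℕ) : ∃ M : ℕ, ∀ x y a b, X.dist x (f a) ≤ R → X.dist y (f b) ≤ R →
      ∀ p : ℕ → V, p 0 = x → p (X.dist x y) = y →
      (∀ i j, i ≤ j → j ≤ X.dist x y → X.dist (p i) (p j) = j - i) →
      (∀ i, i ≤ X.dist x y → ∃ u, Btw Z a u b ∧ X.dist (p i) (f u) ≤ M) ∧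
      (∀ u, Btw Z a u b → ∃ i, i ≤ X.dist x y ∧ X.dist (f u) (p i) ≤ M) := by
  classical
  obtain ⟨L, hL⟩ := hf.lip
  obtain ⟨R0, hR0⟩ := hf.cob
  let R1 := max R R0
  have hR1 : R ≤ R1 := le_max_left _ _
  have hR1' : R0 ≤ R1 := le_max_right _ _
  obtain ⟨C, hC⟩ := hf.proper (2 * R1 + 1)
  obtain ⟨D0, hD0⟩ := morse_one hδ hc C L (2 * R1)
  obtain ⟨D1, hD1⟩ := morse_two hδ hc C L (2 * R1)
  refine ⟨R1 + L * (C + D0 + D1), ?_⟩
  have hLC : L * C ≤ L * (C + D0 + D1) := Nat.mul_le_mul_left _ (by omega)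
  have hLD0 : L * D0 ≤ L * (C + D0 + D1) := Nat.mul_le_mul_left _ (by omega)
  have hLD1 : L * D1 ≤ L * (C + D0 + D1) := Nat.mul_le_mul_left _ (by omega)
  intro x y a b hxa hyb p hp0 hpn hp
  choose γ hγ using hR0
  rcases Nat.eq_zero_or_pos (X.dist x y) with hn | hn
  · -- degenerate case
    have hxy : x = y := (hX.dist_eq_zero_iff).1 hn
    subst hxy
    have hab : Z.dist a b ≤ C := by
      apply hC
      have t := hX.dist_triangle (u := f a) (v := x) (w := f b)
      have s := X.dist_comm (u := f a) (v := x)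
      omega
    constructor
    · intro i hi
      have : i = 0 := by omega
      subst this
      exact ⟨a, btw_left _ _, by rw [hp0]; omega⟩
    · intro u hu
      refine ⟨0, Nat.zero_le _, ?_⟩
      rw [hp0]
      have h1 : Z.dist a u ≤ C := by unfold Btw at hu; omega
      have h2 := hL a u
      have h3 : L * Z.dist a u ≤ L * C := Nat.mul_le_mul_left _ h1
      have t := hX.dist_triangle (u := f u) (v := f a) (w := x)
      have s := X.dist_comm (u := f u) (v := f a)
      have s' := X.dist_comm (u := f a) (v := x)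
      omega
  · let g : ℕ → U := fun i => if i = 0 then a else if i = X.dist x y then b else γ (p i)
    have g0 : g 0 = a := by simp [g]
    have gn : g (X.dist x y) = b := by
      have : X.dist x y ≠ 0 := by omega
      simp [g, this]
    have hg : ∀ i, X.dist (p i) (f (g i)) ≤ R1 := by
      intro i
      by_cases h1 : i = 0
      · rw [h1, g0, hp0]; omega
      · by_cases h2 : i = X.dist x y
        · rw [h2, gn, hpn]; omega
        · have : g i = γ (p i) := by simp [g, h1, h2]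
          rw [this]
          exact (hγ _).trans hR1'
    have hQ : QG Z C L (2 * R1) g (X.dist x y) := by
      constructor
      · intro l hl
        apply hC
        have h1 := hp l (l + 1) (by omega) (by omega)
        have t1 := hX.dist_triangle (u := f (g l)) (v := p l) (w := f (g (l + 1)))
        have t2 := hX.dist_triangle (u := p l) (v := p (l + 1)) (w := f (g (l + 1)))
        have s1 := X.dist_comm (u := f (g l)) (v := p l)
        have h2 := hg l
        have h3 := hg (l + 1)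
        omega
      · intro i j hij hj
        have h1 := hp i j hij hj
        have t1 := hX.dist_triangle (u := p i) (v := f (g i)) (w := p j)
        have t2 := hX.dist_triangle (u := f (g i)) (v := f (g j)) (w := p j)
        have s1 := X.dist_comm (u := f (g j)) (v := p j)
        have h2 := hg i
        have h3 := hg j
        have h4 := hL (g i) (g j)
        omega
    constructor
    · intro i hi
      obtain ⟨u, hu, hud⟩ := hD1 g _ hQ i hi
      rw [g0, gn] at hu
      refine ⟨u, hu, ?_⟩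
      have h1 := hg i
      have h2 := hL (g i) u
      have h3 : L * Z.dist (g i) u ≤ L * D1 := Nat.mul_le_mul_left _ hud
      have t := hX.dist_triangle (u := p i) (v := f (g i)) (w := f u)
      omega
    · intro u hu
      have hu' : Btw Z (g 0) u (g (X.dist x y)) := by rw [g0, gn]; exact hu
      obtain ⟨i, hi, hid⟩ := hD0 g _ hQ u hu'
      refine ⟨i, hi, ?_⟩
      have h1 := hg i
      have h2 := hL u (g i)
      have h3 : L * Z.dist u (g i) ≤ L * D0 := Nat.mul_le_mul_left _ hid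
      have t := hX.dist_triangle (u := f u) (v := f (g i)) (w := p i)
      have s1 := X.dist_comm (u := f (g i)) (v := p i)
      omega

theorem coarse_geod {δ : ℕ} (hδ : Slim Z δ) (hc : Z.Connected) (hX : X.Connected) {f : U → V}
    (hf : Coarse Z X f) : ∃ M : ℕ, ∀ a b p, Btw X (f a) p (f b) →
      ∃ u, Btw Z a u b ∧ X.dist p (f u) ≤ M := by
  obtain ⟨M, hM⟩ := coarse_main hδ hc hX hf 0
  refine ⟨M, fun a b q hq => ?_⟩
  obtain ⟨p, hp0, hpn, hpz, hp1, hp2⟩ := exists_geod_through hX hq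
  obtain ⟨h1, -⟩ := hM (f a) (f b) a b (by simp) (by simp) p hp0 hpn hp2
  have := h1 (X.dist (f a) q) (by unfold Btw at hq; omega)
  rwa [hpz] at this

theorem coarse_geod' {δ : ℕ} (hδ : Slim Z δ) (hc : Z.Connected) (hX : X.Connected) {f : U → V}
    (hf : Coarse Z X f) : ∃ M : ℕ, ∀ a b u, Btw Z a u b →
      ∃ p, Btw X (f a) p (f b) ∧ X.dist (f u) p ≤ M := by
  obtain ⟨M, hM⟩ := coarse_main hδ hc hX hf 0
  refine ⟨M, fun a b u hu => ?_⟩
  obtain ⟨p, hp0, hpn, hp1, hp2⟩ := exists_geod hX (f a) (f b)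
  obtain ⟨-, h1⟩ := hM (f a) (f b) a b (by simp) (by simp) p hp0 hpn hp2
  obtain ⟨i, hi, hid⟩ := h1 u hu
  exact ⟨p i, (hp1 i hi).1, hid⟩

/-- intervals of `X` are thin -/
theorem coarse_thin {δ : ℕ} (hδ : Slim Z δ) (hc : Z.Connected) (hX : X.Connected) {f : U → V}
    (hf : Coarse Z X f) : ∃ M : ℕ, ∀ x y z z', Btw X x z y → Btw X x z' y →
      X.dist x z = X.dist x z' → X.dist z z' ≤ M := by
  obtain ⟨R0, hR0⟩ := hf.cob
  obtain ⟨M, hM⟩ := coarse_main hδ hc hX hf R0
  refine ⟨4 * M, fun x y z z' hz hz' hzz => ?_⟩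
  obtain ⟨a, ha⟩ := hR0 x
  obtain ⟨b, hb⟩ := hR0 y
  obtain ⟨p, hp0, hpn, hpz, hp1, hp2⟩ := exists_geod_through hX hz
  obtain ⟨q, hq0, hqn, hqz, hq1, hq2⟩ := exists_geod_through hX hz'
  obtain ⟨h1, -⟩ := hM x y a b ha hb p hp0 hpn hp2
  obtain ⟨-, h2⟩ := hM x y a b ha hb q hq0 hqn hq2
  have hle : X.dist x z ≤ X.dist x y := by unfold Btw at hz; omega
  obtain ⟨u, hu, hud⟩ := h1 (X.dist x z) hle
  rw [hpz] at hud
  obtain ⟨i, hi, hid⟩ := h2 u hu
  have h3 : X.dist z (q i) ≤ 2 * M := by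
    have := hX.dist_triangle (u := z) (v := f u) (w := q i)
    omega
  have h4 := (hq1 i hi).2
  have h5 : X.dist (q i) z' ≤ 2 * M := by
    have t1 := hX.dist_triangle (u := x) (v := z) (w := q i)
    have t2 := hX.dist_triangle (u := x) (v := q i) (w := z)
    have s1 := X.dist_comm (u := q i) (v := z)
    have hle' : X.dist x z' ≤ X.dist x y := by omega
    rcases le_total i (X.dist x z') with hi' | hi'
    · have := hq2 i (X.dist x z') hi' hle'
      rw [hqz] at this
      omega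
    · have := hq2 (X.dist x z') i hi' hi
      rw [hqz] at this
      rw [X.dist_comm]
      omega
  have := hX.dist_triangle (u := z) (v := q i) (w := z')
  omega

/-- coarse center of a geodesic triangle -/
theorem exists_center {δ : ℕ} (hδ : Slim Z δ) (hc : Z.Connected) (a b z : U) :
    ∃ c, Btw Z a c b ∧ (∃ c1, Btw Z a c1 z ∧ Z.dist c c1 ≤ δ + 1) ∧
      (∃ c2, Btw Z b c2 z ∧ Z.dist c c2 ≤ δ + 1) := by
  classical
  obtain ⟨p, hp0, hpn, hp1, hp2⟩ := exists_geod hc a b
  set n := Z.dist a b with hn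
  let S : ℕ → Prop := fun t => ∃ q, Btw Z a q z ∧ Z.dist (p t) q ≤ δ
  have hS0 : S 0 := ⟨a, btw_left _ _, by rw [hp0]; simp⟩
  let t := Nat.findGreatest S n
  have ht : S t := Nat.findGreatest_spec (P := S) (Nat.zero_le n) hS0
  have htn : t ≤ n := Nat.findGreatest_le n
  obtain ⟨q, hq, hqd⟩ := ht
  by_cases htn' : t = n
  · refine ⟨b, btw_right _ _, ⟨q, hq, ?_⟩, ⟨b, btw_left _ _, by simp⟩⟩
    rw [htn', hpn] at hqd
    omega
  · have hnot : ¬ S (t + 1) := Nat.findGreatest_is_greatest (P := S) (n := n) (Nat.lt_succ_self t)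
      (by omega)
    obtain ⟨q', hq', hqd'⟩ := hδ a b z (p (t + 1)) (hp1 (t + 1) (by omega)).1
    rcases hq' with hq' | hq'
    · exact absurd ⟨q', hq', hqd'⟩ hnot
    · refine ⟨p t, (hp1 t htn).1, ⟨q, hq, by omega⟩, ⟨q', hq'.symm, ?_⟩⟩
      have h1 := hp2 t (t + 1) (by omega) (by omega)
      have h2 := hc.dist_triangle (u := p t) (v := p (t + 1)) (w := q')
      omega

/-- The image of a coarse center is close to the median. -/
theorem coarse_center {δ : ℕ} (hδ : Slim Z δ) (hc : Z.Connected) (hX : IsMedian X) {f : U → V}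
    (hf : Coarse Z X f) : ∃ M : ℕ, ∀ a b z c, Btw Z a c b →
      (∃ c1, Btw Z a c1 z ∧ Z.dist c c1 ≤ δ + 1) → (∃ c2, Btw Z b c2 z ∧ Z.dist c c2 ≤ δ + 1) →
      X.dist (f c) (med hX (f a) (f b) (f z)) ≤ M := by
  obtain ⟨L, hL⟩ := hf.lip
  obtain ⟨M, hM⟩ := coarse_geod' hδ hc hX.conn hf
  refine ⟨3 * (M + L * (δ + 1)), ?_⟩
  rintro a b z c h1 ⟨c1, h2, h2'⟩ ⟨c2, h3, h3'⟩
  obtain ⟨p1, e1, e1'⟩ := hM a b c h1
  obtain ⟨p3, e3, e3'⟩ := hM a z c1 h2
  obtain ⟨p2, e2, e2'⟩ := hM b z c2 h3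
  have k1 := hL c c1
  have k2 := hL c c2
  have k3 : L * Z.dist c c1 ≤ L * (δ + 1) := Nat.mul_le_mul_left _ h2'
  have k4 : L * Z.dist c c2 ≤ L * (δ + 1) := Nat.mul_le_mul_left _ h3'
  have t1 := hX.conn.dist_triangle (u := f c) (v := f c1) (w := p3)
  have t2 := hX.conn.dist_triangle (u := f c) (v := f c2) (w := p2)
  exact hX.dist_med_three e1 e2 e3 (by omega) (by omega) (by omega)

/-- bounded degree -/
def DegBd (X : SimpleGraph V) (D : ℕ) : Prop := ∀ x, {y | X.Adj x y}.Finite ∧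
  {y | X.Adj x y}.ncard ≤ D

/-- thin corners -/
theorem thin_corner (hX : IsMedian X) {D M : ℕ} (hD : DegBd X D)
    (hM : ∀ x y z z', Btw X x z y → Btw X x z' y → X.dist x z = X.dist x z' → X.dist z z' ≤ M)
    {x y : V} (hxy : x ≠ y) : ∃ x1, X.Adj x x1 ∧ Btw X x x1 y ∧
      ∀ z ∈ hs X x x1, Btw X x z y → X.dist x z ≤ M * D := by
  classical
  by_contra hcon
  push Not at hcon
  have hc := hX.conn
  set r := M * D with hr
  -- points in the corners
  have hz : ∀ x1, X.Adj x x1 → Btw X x x1 y → ∃ z, z ∈ hs X x x1 ∧ Btw X x z y ∧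
      X.dist x z = r + 1 := by
    intro x1 h1 h2
    obtain ⟨z, hz1, hz2, hz3⟩ := hcon x1 h1 h2
    obtain ⟨z', hz', hzd⟩ := exists_btw_dist hc (x := x) (y := z) (k := r + 1) (by omega)
    exact ⟨z', hX.hs_btw h1 (hX.left_mem_hs h1) hz1 hz', hz2.trans_left hc hz', hzd⟩
  have hfin : {y' | X.Adj x y'}.Finite := (hD x).1
  have hcard : hfin.toFinset.card ≤ D := by
    rw [← Set.ncard_eq_toFinset_card _ hfin]; exact (hD x).2
  -- iterated medians
  have key : ∀ T : Finset V, (∀ x1 ∈ T, X.Adj x x1) → ∃ m, Btw X x m y ∧ X.dist x m ≤ r + 1 ∧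
      (∀ x1 ∈ T, Btw X x x1 y → ∃ z ∈ hs X x x1, Btw X x m z) ∧
      r + 1 ≤ X.dist x m + M * T.card := by
    intro T
    induction T using Finset.induction_on with
    | empty =>
      intro _
      obtain ⟨x1, h1, h2⟩ := exists_step' hc hxy
      obtain ⟨z, -, hz2, hz3⟩ := hz x1 h1 h2
      exact ⟨z, hz2, by omega, by simp, by simp; omega⟩
    | insert x1 T hx1 ih =>
      intro hT
      obtain ⟨m, m1, m2, m3, m4⟩ := ih (fun x2 h => hT x2 (Finset.mem_insert_of_mem h))
      rw [Finset.card_insert_of_notMem hx1]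
      by_cases hb : Btw X x x1 y
      · obtain ⟨z, z1, z2, z3⟩ := hz x1 (hT x1 (Finset.mem_insert_self _ _)) hb
        obtain ⟨z', z1', z2'⟩ := exists_btw_dist hc (x := x) (y := z) (k := X.dist x m) (by omega)
        have hthin := hM x y m z' m1 (z2.trans_left hc z1') z2'.symm
        obtain ⟨n1, n2, n3⟩ := hX.med_spec x m z'
        set m' := med hX x m z' with hm'
        refine ⟨m', m1.trans_left hc n1, ?_, ?_, ?_⟩
        · unfold Btw at n1; omega
        · intro x2 hx2 hb2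
          rw [Finset.mem_insert] at hx2
          rcases hx2 with rfl | hx2
          · exact ⟨z, z1, z1'.trans_left hc n3⟩
          · obtain ⟨z2, z2a, z2b⟩ := m3 x2 hx2 hb2
            exact ⟨z2, z2a, z2b.trans_left hc n1⟩
        · unfold Btw at n1 n2
          rw [mul_add]
          have s := X.dist_comm (u := m) (v := m')
          omega
      · refine ⟨m, m1, m2, ?_, ?_⟩
        · intro x2 hx2 hb2
          rw [Finset.mem_insert] at hx2
          rcases hx2 with rfl | hx2
          · exact absurd hb2 hb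
          · exact m3 x2 hx2 hb2
        · rw [mul_add]; omega
  obtain ⟨m, m1, m2, m3, m4⟩ := key hfin.toFinset (fun x1 h => by simpa using h)
  have h5 : M * hfin.toFinset.card ≤ r := Nat.mul_le_mul_left _ hcard
  have hmx : x ≠ m := by
    rintro rfl
    simp at m4
    omega
  obtain ⟨x1, h1, h2⟩ := exists_step' hc hmx
  obtain ⟨z, z1, z2⟩ := m3 x1 (by simpa using h1) (m1.trans_left hc h2)
  have h6 := z2.trans_left hc h2
  rw [hX.mem_hs_iff h1] at z1
  unfold Btw at h6
  rw [adj_dist h1] at h6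
  have s1 := X.dist_comm (u := z) (v := x)
  have s2 := X.dist_comm (u := z) (v := x1)
  omega

/-- Hulls of quasiconvex sets are close to the set (Haglund). -/
theorem hull_close (hX : IsMedian X) {D κ : ℕ} (hD : DegBd X D) {S : Set V} (hS : S.Nonempty)
    (hκ : ∀ s ∈ S, ∀ s' ∈ S, ∀ p, Btw X s p s' → ∃ t ∈ S, X.dist p t ≤ κ) {y : V}
    (hy : y ∈ hull X S) : ∃ s ∈ S, X.dist y s ≤ κ * D := by
  classical
  have hc := hX.conn
  obtain ⟨s0, hs0⟩ := hS
  have hex : ∃ n, ∃ s ∈ S, X.dist y s = n := ⟨_, s0, hs0, rfl⟩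
  obtain ⟨s, hsS, hsd⟩ := Nat.find_spec hex
  have hmin : ∀ t ∈ S, X.dist y s ≤ X.dist y t := by
    intro t ht; rw [hsd]; exact Nat.find_min' hex ⟨t, ht, rfl⟩
  refine ⟨s, hsS, ?_⟩
  by_contra hcon
  push Not at hcon
  have hm : ∀ y1, X.Adj y y1 → Btw X y y1 s → ∃ m ∈ hs X y y1, Btw X y m s ∧ X.dist m s ≤ κ := by
    intro y1 h1 h2
    have hex' : ∃ s1 ∈ S, s1 ∈ hs X y y1 := by
      by_contra hcon'
      push Not at hcon'
      have : y ∈ hs X y1 y := by
        apply hy _ (IsMedian.hs_isHS h1.symm)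
        intro t ht
        rw [← hX.not_mem_hs_iff' h1]
        exact hcon' t ht
      exact hX.right_not_mem_hs h1.symm this
    obtain ⟨s1, hs1, hs1'⟩ := hex'
    obtain ⟨n1, n2, n3⟩ := hX.med_spec y s s1
    refine ⟨med hX y s s1, hX.med_mem13 (IsMedian.hs_isHS h1) s (hX.left_mem_hs h1) hs1', n1, ?_⟩
    obtain ⟨t, ht, htd⟩ := hκ s hsS s1 hs1 _ n2
    have h3 := hmin t ht
    have h4 := hc.dist_triangle (u := y) (v := med hX y s s1) (w := t)
    unfold Btw at n1
    omega
  have hfin : {y' | X.Adj y y'}.Finite := (hD y).1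
  have hcard : hfin.toFinset.card ≤ D := by
    rw [← Set.ncard_eq_toFinset_card _ hfin]; exact (hD y).2
  have key : ∀ T : Finset V, (∀ y1 ∈ T, X.Adj y y1) → ∃ z, Btw X y z s ∧
      (∀ y1 ∈ T, Btw X y y1 s → ∃ m ∈ hs X y y1, Btw X y z m) ∧
      X.dist z s ≤ κ * T.card := by
    intro T
    induction T using Finset.induction_on with
    | empty => intro _; exact ⟨s, btw_right _ _, by simp, by simp⟩
    | insert y1 T hy1 ih =>
      intro hT
      obtain ⟨z, z1, z2, z3⟩ := ih (fun x2 h => hT x2 (Finset.mem_insert_of_mem h))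
      rw [Finset.card_insert_of_notMem hy1]
      by_cases hb : Btw X y y1 s
      · obtain ⟨m, m1, m2, m3⟩ := hm y1 (hT y1 (Finset.mem_insert_self _ _)) hb
        obtain ⟨n1, n2, n3⟩ := hX.med_spec y z m
        set z' := med hX y z m with hz'
        refine ⟨z', z1.trans_left hc n1, ?_, ?_⟩
        · intro y2 hy2 hb2
          rw [Finset.mem_insert] at hy2
          rcases hy2 with rfl | hy2
          · exact ⟨m, m1, n3⟩
          · obtain ⟨m', a1, a2⟩ := z2 y2 hy2 hb2
            exact ⟨m', a1, a2.trans_left hc n1⟩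
        · have e : med hX y z s = z := by
            rw [hX.med_comm23]; exact hX.med_of_btw z1
          have h1 := hX.dist_med_le y z m s
          rw [e] at h1
          change X.dist z' z ≤ _ at h1
          have h2 := hc.dist_triangle (u := z') (v := z) (w := s)
          rw [mul_add]
          omega
      · refine ⟨z, z1, ?_, ?_⟩
        · intro y2 hy2 hb2
          rw [Finset.mem_insert] at hy2
          rcases hy2 with rfl | hy2
          · exact absurd hb2 hb
          · exact z2 y2 hy2 hb2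
        · rw [mul_add]; omega
  obtain ⟨z, z1, z2, z3⟩ := key hfin.toFinset (fun x1 h => by simpa using h)
  have h5 : κ * hfin.toFinset.card ≤ κ * D := Nat.mul_le_mul_left _ hcard
  have hzy : y ≠ z := by
    rintro rfl
    omega
  obtain ⟨y1, h1, h2⟩ := exists_step' hc hzy
  obtain ⟨m, m1, m2⟩ := z2 y1 (by simpa using h1) (z1.trans_left hc h2)
  have h6 := m2.trans_left hc h2
  rw [hX.mem_hs_iff h1] at m1
  unfold Btw at h6
  rw [adj_dist h1] at h6
  have s1 := X.dist_comm (u := m) (v := y)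
  have s2 := X.dist_comm (u := m) (v := y1)
  omega

/-- quasiconvex subsets of a graph -/
def QConv (Z : SimpleGraph U) (B : Set U) : Prop :=
  ∃ κ, ∀ b ∈ B, ∀ b' ∈ B, ∀ u, Btw Z b u b' → ∃ t ∈ B, Z.dist u t ≤ κ

/-- transfer of quasiconvexity -/
theorem qconv_transfer {δ : ℕ} (hδ : Slim Z δ) (hc : Z.Connected) (hX : IsMedian X) {f : U → V}
    (hf : Coarse Z X f) {B : Set U} (hB : QConv Z B) {S : Set V} {κ : ℕ}
    (h1 : ∀ s ∈ S, ∃ b ∈ B, X.dist s (f b) ≤ κ) (h2 : ∀ b ∈ B, ∃ s ∈ S, X.dist (f b) s ≤ κ) :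
    QConv X S := by
  obtain ⟨κ0, hκ0⟩ := hB
  obtain ⟨L, hL⟩ := hf.lip
  obtain ⟨M, hM⟩ := coarse_geod hδ hc hX.conn hf
  refine ⟨2 * κ + M + L * κ0 + κ, ?_⟩
  intro s hs s' hs' p hp
  obtain ⟨b, hb, hbd⟩ := h1 s hs
  obtain ⟨b', hb', hbd'⟩ := h1 s' hs'
  obtain ⟨n1, n2, n3⟩ := hX.med_spec (f b) (f b') p
  have hclose : X.dist p (med hX (f b) (f b') p) ≤ 2 * κ := by
    have e : med hX s s' p = p := hX.med_of_btw hp
    have t1 := hX.dist_med_le1 s (f b) s' p
    have t2 := hX.dist_med_le2 (f b) s' (f b') p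
    rw [e] at t1
    have t3 := hX.conn.dist_triangle (u := p) (v := med hX (f b) s' p)
      (w := med hX (f b) (f b') p)
    omega
  obtain ⟨u, hu, hud⟩ := hM b b' _ n1
  obtain ⟨b'', hb'', hbd''⟩ := hκ0 b hb b' hb' u hu
  obtain ⟨t, ht, htd⟩ := h2 b'' hb''
  refine ⟨t, ht, ?_⟩
  have k1 := hL u b''
  have k2 : L * Z.dist u b'' ≤ L * κ0 := Nat.mul_le_mul_left _ hbd''
  have t1 := hX.conn.dist_triangle (u := p) (v := med hX (f b) (f b') p) (w := t)
  have t2 := hX.conn.dist_triangle (u := med hX (f b) (f b') p) (v := f u) (w := t)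
  have t3 := hX.conn.dist_triangle (u := f u) (v := f b'') (w := t)
  omega

/-- consistent families of vertices -/
def Consistent {I : Type*} (X : SimpleGraph V) (F : I → U → V) (y : I → V) : Prop :=
  ∀ i j h k, IsHS X h → IsHS X k → y i ∈ h → y j ∈ k → ∃ z, F i z ∈ h ∧ F j z ∈ k

theorem consistent_pair {I : Type*} {δ : ℕ} (hδ : Slim Z δ) (hc : Z.Connected) (hX : IsMedian X)
    {D : ℕ} (hD : DegBd X D) {F : I → U → V} (hF : ∀ i, Coarse Z X (F i)) (R0 : ℕ) (i j : I) :
    ∃ R, ∀ y, Consistent X F y → ∀ a b, X.dist (y i) (F i a) ≤ R0 → X.dist (y j) (F j b) ≤ R0 →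
      Z.dist a b ≤ R := by
  obtain ⟨M, hM⟩ := coarse_thin hδ hc hX.conn (hF i)
  obtain ⟨Mi, hMi⟩ := coarse_center hδ hc hX (hF i)
  obtain ⟨Mj, hMj⟩ := coarse_center hδ hc hX (hF j)
  obtain ⟨Ci, hCi⟩ := (hF i).proper (Mi + R0 + M * D + R0)
  obtain ⟨Cj, hCj⟩ := (hF j).proper (Mj + R0 + M * D + R0)
  refine ⟨Ci + Cj, ?_⟩
  intro y hy a b ha hb
  by_cases h1 : y i = F i b
  · have : Z.dist a b ≤ Ci := by
      apply hCi
      rw [← h1, X.dist_comm]; omega
    omega
  by_cases h2 : y j = F j a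
  · have : Z.dist a b ≤ Cj := by
      apply hCj
      rw [← h2]; omega
    omega
  obtain ⟨x1, e1, e2, e3⟩ := thin_corner hX hD hM h1
  obtain ⟨x2, f1, f2, f3⟩ := thin_corner hX hD hM h2
  obtain ⟨z, z1, z2⟩ := hy i j _ _ (IsMedian.hs_isHS e1) (IsMedian.hs_isHS f1)
    (hX.left_mem_hs e1) (hX.left_mem_hs f1)
  obtain ⟨c, c1, c2, c3⟩ := exists_center hδ hc a b z
  have k1 := hMi a b z c c1 c2 c3
  have k2 := hMj a b z c c1 c2 c3
  have g1 : Z.dist c a ≤ Ci := by
    apply hCi
    have m1 : med hX (y i) (F i b) (F i z) ∈ hs X (y i) x1 :=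
      hX.med_mem13 (IsMedian.hs_isHS e1) _ (hX.left_mem_hs e1) z1
    have m2 := e3 _ m1 (hX.med_spec _ _ _).1
    have m3 := hX.dist_med_le1 (F i a) (y i) (F i b) (F i z)
    have t1 := hX.conn.dist_triangle (u := F i c) (v := med hX (F i a) (F i b) (F i z))
      (w := F i a)
    have t2 := hX.conn.dist_triangle (u := med hX (F i a) (F i b) (F i z))
      (v := med hX (y i) (F i b) (F i z)) (w := F i a)
    have t3 := hX.conn.dist_triangle (u := med hX (y i) (F i b) (F i z)) (v := y i) (w := F i a)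
    have s1 := X.dist_comm (u := F i a) (v := y i)
    have s2 := X.dist_comm (u := med hX (y i) (F i b) (F i z)) (v := y i)
    omega
  have g2 : Z.dist c b ≤ Cj := by
    apply hCj
    have m1 : med hX (F j a) (y j) (F j z) ∈ hs X (y j) x2 :=
      hX.med_mem23 (IsMedian.hs_isHS f1) _ (hX.left_mem_hs f1) z2
    have m2 := f3 _ m1 (hX.med_spec _ _ _).1.symm
    have m3 := hX.dist_med_le2 (F j a) (F j b) (y j) (F j z)
    have t1 := hX.conn.dist_triangle (u := F j c) (v := med hX (F j a) (F j b) (F j z))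
      (w := F j b)
    have t2 := hX.conn.dist_triangle (u := med hX (F j a) (F j b) (F j z))
      (v := med hX (F j a) (y j) (F j z)) (w := F j b)
    have t3 := hX.conn.dist_triangle (u := med hX (F j a) (y j) (F j z)) (v := y j) (w := F j b)
    have s1 := X.dist_comm (u := F j b) (v := y j)
    have s2 := X.dist_comm (u := med hX (F j a) (y j) (F j z)) (v := y j)
    omega
  have := hc.dist_triangle (u := a) (v := c) (w := b)
  have s := Z.dist_comm (u := a) (v := c)
  omega

/-- Consistent families are close to a point of the hyperbolic space. -/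
theorem consistent_close {I : Type*} [Finite I] [Nonempty I] {δ : ℕ} (hδ : Slim Z δ)
    (hc : Z.Connected) (hX : IsMedian X)
    {D : ℕ} (hD : DegBd X D) {F : I → U → V} (hF : ∀ i, Coarse Z X (F i)) :
    ∃ R, ∀ y, Consistent X F y → ∃ a, ∀ i, X.dist (y i) (F i a) ≤ R := by
  classical
  have := Fintype.ofFinite I
  choose R0 hR0 using fun i => (hF i).cob
  choose L hL using fun i => (hF i).lip
  let r0 := Finset.univ.sup R0
  have hr0 : ∀ i, R0 i ≤ r0 := fun i => Finset.le_sup (Finset.mem_univ i)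
  choose P hP using fun i j => consistent_pair hδ hc hX hD hF r0 i j
  obtain ⟨i0⟩ := (inferInstance : Nonempty I)
  let r1 := Finset.univ.sup (fun i => L i * P i i0)
  have hr1 : ∀ i, L i * P i i0 ≤ r1 := fun i =>
    Finset.le_sup (f := fun i => L i * P i i0) (Finset.mem_univ i)
  refine ⟨r0 + r1, ?_⟩
  intro y hy
  choose a ha using fun i => hR0 i (y i)
  refine ⟨a i0, fun i => ?_⟩
  have h1 := hP i i0 y hy (a i) (a i0) ((ha i).trans (hr0 i)) ((ha i0).trans (hr0 i0))
  have h2 := hL i (a i) (a i0)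
  have h3 : L i * Z.dist (a i) (a i0) ≤ L i * P i i0 := Nat.mul_le_mul_left _ h1
  have h4 := hX.conn.dist_triangle (u := y i) (v := F i (a i)) (w := F i (a i0))
  have h5 := ha i
  have h6 := hr0 i
  have h7 := hr1 i
  omega

end Pool.Agent.Helper10.VR
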