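import Pool.Agent.Helper10.VR.Median

/-!
# Equivariant canonical completion and retraction
-/

namespace Pool.Agent.Helper10.VR

open SimpleGraph

universe u v w

/-- Median graphs are simply connected: a cocycle on edges which is trivial on squares is a
coboundary. -/
theorem exists_potential {V : Type u} {X : SimpleGraph V} (hX : IsMedian X) {M : Type v} [Group M]
    (c : V → V → M) (hinv : ∀ x y, X.Adj x y → c y x * c x y = 1)
    (hsq : ∀ x y z t, X.Adj x y → X.Adj y z → X.Adj x t → X.Adj t z → x ≠ z → y ≠ t →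
      c y z * c x y = c t z * c x t) :
    ∃ T : V → M, ∀ x y, X.Adj x y → T y = c x y * T x := by
  classical
  obtain ⟨x0⟩ := hX.conn.nonempty
  have hex : ∀ x, ∃ p, x ≠ x0 → X.Adj p x ∧ X.dist x0 x = X.dist x0 p + 1 := by
    intro x
    by_cases h : x = x0
    · exact ⟨x, fun h' => absurd h h'⟩
    · obtain ⟨p, h1, h2⟩ := exists_step hX.conn h
      refine ⟨p, fun _ => ⟨h1.symm, ?_⟩⟩
      rw [X.dist_comm (u := x0) (v := x), X.dist_comm (u := x0) (v := p)]
      exact h2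
  choose p hp using hex
  let Tn : ℕ → V → M := fun n => Nat.rec (fun _ => 1) (fun _ f x => c (p x) x * f (p x)) n
  have Tn_succ : ∀ n x, Tn (n + 1) x = c (p x) x * Tn n (p x) := fun n x => rfl
  let T : V → M := fun x => Tn (X.dist x0 x) x
  have hT : ∀ x, x ≠ x0 → T x = c (p x) x * T (p x) := by
    intro x hx
    change Tn (X.dist x0 x) x = c (p x) x * Tn (X.dist x0 (p x)) (p x)
    rw [(hp x hx).2, Tn_succ]
  have key : ∀ n, ∀ x y, X.dist x0 x = n → X.Adj x y → X.dist x0 y = n + 1 →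
      T y = c x y * T x := by
    intro n
    induction n using Nat.strong_induction_on with
    | _ n ih =>
      intro x y hx hxy hy
      have hy0 : y ≠ x0 := by rintro rfl; simp at hy
      obtain ⟨hq1, hq2⟩ := hp y hy0
      rw [hT y hy0]
      by_cases hpx : p y = x
      · rw [hpx]
      · obtain ⟨t, t1, t2, t3, t4⟩ := hX.quadrangle (u := x0) hxy hq1 (Ne.symm hpx) (by omega) hq2
        have hn : X.dist x0 t < n := by omega
        rw [ih (X.dist x0 t) hn t x rfl t1.symm (by omega),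
          ih (X.dist x0 t) hn t (p y) rfl t2.symm (by omega), ← mul_assoc, ← mul_assoc,
          hsq t (p y) y x t2.symm hq1 t1.symm hxy t4 hpx]
  refine ⟨T, fun x y hxy => ?_⟩
  rcases hX.dist_adj hxy x0 with h | h
  · exact key _ x y rfl hxy h
  · have h1 := key _ y x rfl hxy.symm h
    have h2 := hinv y x hxy.symm
    rw [h1, ← mul_assoc, h2, one_mul]

/-- A median graph with a group action and an edge labelling by wall classes, such that the
normal subgroup `N` acts specially. -/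
structure Labelled {V : Type u} (X : SimpleGraph V) {G : Type v} [Group G] [MulAction G V]
    (N : Subgroup G) {Λ : Type w} (ℓ : V → V → Λ) : Prop where
  adj : ∀ (g : G) x y, X.Adj x y → X.Adj (g • x) (g • y)
  symm : ∀ x y, X.Adj x y → ℓ x y = ℓ y x
  par : ∀ x y z t, X.Adj x y → X.Adj y z → X.Adj z t → X.Adj t x → x ≠ z → y ≠ t → ℓ x y = ℓ t z
  inv : ∀ n ∈ N, ∀ x y, X.Adj x y → ℓ (n • x) (n • y) = ℓ x y
  map : ∀ (g : G) x y x' y', X.Adj x y → X.Adj x' y' → ℓ x y = ℓ x' y' →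
    ℓ (g • x) (g • y) = ℓ (g • x') (g • y')
  free : ∀ n ∈ N, ∀ x : V, n • x = x → n = 1
  inj : ∀ x y z, X.Adj x y → X.Adj x z → ℓ x y = ℓ x z → y = z
  corner : ∀ x y z t, X.Adj x y → X.Adj y z → X.Adj z t → X.Adj t x → x ≠ z → y ≠ t →
    ∀ u v w, X.Adj u v → X.Adj u w → ℓ u v = ℓ x y → ℓ u w = ℓ x t →
      ∃ s, s ≠ u ∧ X.Adj v s ∧ X.Adj w s

section

variable {V : Type u} {X : SimpleGraph V} (hX : IsMedian X) {G : Type v} [Group G] [MulAction G V]
  {N : Subgroup G} {Λ : Type w} {ℓ : V → V → Λ} (hL : Labelled X N ℓ) {Y : Set V}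
  (hY : IsConv X Y)

/-- labels of two adjacent sides of a square -/
def AdjLab (X : SimpleGraph V) (ℓ : V → V → Λ) (a b : Λ) : Prop :=
  ∃ x y z t, X.Adj x y ∧ X.Adj y z ∧ X.Adj z t ∧ X.Adj t x ∧ x ≠ z ∧ y ≠ t ∧ ℓ x y = a ∧ ℓ x t = b

include hL in
theorem adjLab_corner {a b : Λ} (h : AdjLab X ℓ a b) {u v w : V} (h1 : X.Adj u v) (h2 : X.Adj u w)
    (h3 : ℓ u v = a) (h4 : ℓ u w = b) : ∃ s, s ≠ u ∧ X.Adj v s ∧ X.Adj w s := by
  obtain ⟨x, y, z, t, e1, e2, e3, e4, e5, e6, e7, e8⟩ := h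
  exact hL.corner x y z t e1 e2 e3 e4 e5 e6 u v w h1 h2 (h3.trans e7.symm) (h4.trans e8.symm)

include hL in
theorem adjLab_ne {a b : Λ} (h : AdjLab X ℓ a b) : a ≠ b := by
  obtain ⟨x, y, z, t, e1, e2, e3, e4, e5, e6, e7, e8⟩ := h
  intro hab
  exact e6 (hL.inj x y t e1 e4.symm (by rw [e7, e8, hab]))

theorem adjLab_symm {a b : Λ} (h : AdjLab X ℓ a b) : AdjLab X ℓ b a := by
  obtain ⟨x, y, z, t, e1, e2, e3, e4, e5, e6, e7, e8⟩ := h
  exact ⟨x, t, z, y, e4.symm, e3.symm, e2.symm, e1.symm, e5, e6.symm, e8, e7⟩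

open Classical in
/-- The action of a label on the convex set `Y`. -/
noncomputable def stepFn (X : SimpleGraph V) (ℓ : V → V → Λ) (Y : Set V) (a : Λ) (y : Y) : Y :=
  if h : ∃ z : Y, X.Adj y.1 z.1 ∧ ℓ y.1 z.1 = a then h.choose else y

include hL in
theorem stepFn_eq {a : Λ} {y z : Y} (h1 : X.Adj y.1 z.1) (h2 : ℓ y.1 z.1 = a) :
    stepFn X ℓ Y a y = z := by
  have h : ∃ z : Y, X.Adj y.1 z.1 ∧ ℓ y.1 z.1 = a := ⟨z, h1, h2⟩
  unfold stepFn
  rw [dif_pos h]
  have h3 := h.choose_spec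
  apply Subtype.ext
  exact hL.inj y.1 _ _ h3.1 h1 (h3.2.trans h2.symm)

theorem stepFn_none {a : Λ} {y : Y} (h : ¬ ∃ z : Y, X.Adj y.1 z.1 ∧ ℓ y.1 z.1 = a) :
    stepFn X ℓ Y a y = y := by
  unfold stepFn
  rw [dif_neg h]

include hL in
theorem stepFn_invol (a : Λ) : Function.Involutive (stepFn X ℓ Y a) := by
  intro y
  by_cases h : ∃ z : Y, X.Adj y.1 z.1 ∧ ℓ y.1 z.1 = a
  · obtain ⟨z, h1, h2⟩ := h
    rw [stepFn_eq hL h1 h2]
    exact stepFn_eq hL h1.symm ((hL.symm _ _ h1).symm.trans h2)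
  · rw [stepFn_none h, stepFn_none h]

include hX hL hY in
theorem square_complete {a b : Λ} (hab : AdjLab X ℓ a b) {y za zb : Y} (h1 : X.Adj y.1 za.1)
    (h2 : ℓ y.1 za.1 = a) (h3 : X.Adj y.1 zb.1) (h4 : ℓ y.1 zb.1 = b) :
    ∃ s : Y, X.Adj za.1 s.1 ∧ ℓ za.1 s.1 = b ∧ X.Adj zb.1 s.1 ∧ ℓ zb.1 s.1 = a := by
  obtain ⟨s, s1, s2, s3⟩ := adjLab_corner hL hab h1 h3 h2 h4
  have hne : za.1 ≠ zb.1 := by
    intro h
    apply adjLab_ne hL hab
    rw [← h2, ← h4, h]
  have hsY : s ∈ Y := by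
    refine hY za.1 za.2 zb.1 zb.2 s ?_
    unfold Btw
    rw [hX.dist_two h1.symm h3.symm hne, adj_dist s2, adj_dist s3.symm]
  refine ⟨⟨s, hsY⟩, s2, ?_, s3, ?_⟩
  · rw [← h4]
    exact (hL.par y.1 zb.1 s za.1 h3 s3 s2.symm h1.symm s1.symm hne.symm).symm
  · rw [← h2]
    exact (hL.par y.1 za.1 s zb.1 h1 s2 s3.symm h3.symm s1.symm hne).symm

include hX hL hY in
theorem stepFn_comm_aux {a b : Λ} (hab : AdjLab X ℓ a b) {y : Y}
    (ha : ∃ z : Y, X.Adj y.1 z.1 ∧ ℓ y.1 z.1 = a) :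
    stepFn X ℓ Y b (stepFn X ℓ Y a y) = stepFn X ℓ Y a (stepFn X ℓ Y b y) := by
  obtain ⟨za, h1, h2⟩ := ha
  rw [stepFn_eq hL h1 h2]
  by_cases hb : ∃ z : Y, X.Adj y.1 z.1 ∧ ℓ y.1 z.1 = b
  · obtain ⟨zb, h3, h4⟩ := hb
    rw [stepFn_eq hL h3 h4]
    obtain ⟨s, s1, s2, s3, s4⟩ := square_complete hX hL hY hab h1 h2 h3 h4
    rw [stepFn_eq hL s1 s2, stepFn_eq hL s3 s4]
  · rw [stepFn_none hb, stepFn_eq hL h1 h2]
    apply stepFn_none
    rintro ⟨w, w1, w2⟩
    apply hb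
    obtain ⟨s, s1, s2, s3, s4⟩ := square_complete hX hL hY hab (y := za) (za := y) (zb := w)
      h1.symm ((hL.symm _ _ h1).symm.trans h2) w1 w2
    exact ⟨s, s1, s2⟩

include hX hL hY in
theorem stepFn_comm {a b : Λ} (hab : AdjLab X ℓ a b) (y : Y) :
    stepFn X ℓ Y b (stepFn X ℓ Y a y) = stepFn X ℓ Y a (stepFn X ℓ Y b y) := by
  by_cases ha : ∃ z : Y, X.Adj y.1 z.1 ∧ ℓ y.1 z.1 = a
  · exact stepFn_comm_aux hX hL hY hab ha
  · by_cases hb : ∃ z : Y, X.Adj y.1 z.1 ∧ ℓ y.1 z.1 = b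
    · exact (stepFn_comm_aux hX hL hY (adjLab_symm hab) hb).symm
    · rw [stepFn_none ha, stepFn_none hb, stepFn_none ha]

/-- The permutation of `Y` given by a label -/
noncomputable def stp (hL : Labelled X N ℓ) (Y : Set V) (a : Λ) : Equiv.Perm Y :=
  (stepFn_invol (Y := Y) hL a).toPerm

theorem stp_apply (a : Λ) (y : Y) : stp hL Y a y = stepFn X ℓ Y a y := rfl

include hX hL hY in
/-- The transport permutations. -/
theorem exists_transport : ∃ τ : V → V → Equiv.Perm Y, (∀ x, τ x x = 1) ∧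
    (∀ x y z, τ y z * τ x y = τ x z) ∧ (∀ x y, X.Adj x y → τ x y = stp hL Y (ℓ x y)) := by
  obtain ⟨T, hT⟩ := exists_potential hX (fun x y => stp hL Y (ℓ x y))
    (by
      intro x y hxy
      rw [← hL.symm x y hxy]
      ext z
      simp only [Equiv.Perm.coe_mul, Function.comp_apply, stp_apply, Equiv.Perm.coe_one, id_eq]
      rw [stepFn_invol hL])
    (by
      intro x y z t h1 h2 h3 h4 h5 h6
      have e1 : ℓ y z = ℓ x t := (hL.par x t z y h3 h4 h2.symm h1.symm h5 h6.symm).symm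
      have e2 : ℓ t z = ℓ x y := (hL.par x y z t h1 h2 h4.symm h3.symm h5 h6).symm
      rw [e1, e2]
      ext s
      simp only [Equiv.Perm.coe_mul, Function.comp_apply, stp_apply]
      rw [stepFn_comm hX hL hY ⟨x, y, z, t, h1, h2, h4.symm, h3.symm, h5, h6, rfl, rfl⟩])
  refine ⟨fun x y => T y * (T x)⁻¹, fun x => by simp, fun x y z => by group, fun x y h => ?_⟩
  change T y * (T x)⁻¹ = _
  rw [hT x y h]; group

end

theorem conn_induction {V : Type u} {X : SimpleGraph V} (hc : X.Connected) {P : V → Prop} (x : V)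
    (h0 : P x) (hs : ∀ y z, X.Adj y z → P y → P z) : ∀ y, P y := by
  intro y
  obtain ⟨w⟩ := hc.preconnected x y
  induction w with
  | nil => exact h0
  | @cons a b c hab p ih => exact ih (hs _ _ hab h0)

section

variable {V : Type u} {X : SimpleGraph V} (hX : IsMedian X) {G : Type v} [Group G] [MulAction G V]
  {N : Subgroup G} {Λ : Type w} {ℓ : V → V → Λ} (hL : Labelled X N ℓ) {Y : Set V}
  (hY : IsConv X Y) {B : Subgroup G} (hB : ∀ b ∈ B, ∀ y ∈ Y, b • y ∈ Y)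
  {τ : V → V → Equiv.Perm Y} (h1 : ∀ x, τ x x = 1)
  (h2 : ∀ x y z, τ y z * τ x y = τ x z) (h3 : ∀ x y, X.Adj x y → τ x y = stp hL Y (ℓ x y))

/-- action of an element of `B` on `Y` -/
def bAct (hB : ∀ b ∈ B, ∀ y ∈ Y, b • y ∈ Y) (b : G) (hb : b ∈ B) (y : Y) : Y :=
  ⟨b • y.1, hB b hb y.1 y.2⟩

include hL in
theorem stepFn_bAct {b : G} (hb : b ∈ B) {x x' : V} (hx : X.Adj x x') (y : Y) :
    stepFn X ℓ Y (ℓ (b • x) (b • x')) (bAct hB b hb y) =
      bAct hB b hb (stepFn X ℓ Y (ℓ x x') y) := by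
  by_cases h : ∃ z : Y, X.Adj y.1 z.1 ∧ ℓ y.1 z.1 = ℓ x x'
  · obtain ⟨z, z1, z2⟩ := h
    rw [stepFn_eq hL z1 z2]
    apply stepFn_eq hL
    · exact hL.adj b _ _ z1
    · exact hL.map b _ _ _ _ z1 hx z2
  · rw [stepFn_none h]
    apply stepFn_none
    rintro ⟨z, z1, z2⟩
    apply h
    have hb' : b⁻¹ ∈ B := B.inv_mem hb
    have e1 := hL.adj b⁻¹ _ _ z1
    have e2 := hL.map b⁻¹ _ _ _ _ z1 (hL.adj b _ _ hx) z2
    simp only [bAct, inv_smul_smul] at e1 e2
    exact ⟨⟨b⁻¹ • z.1, hB _ hb' _ z.2⟩, e1, e2⟩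

include hX h1 h2 h3 in
theorem tau_bAct {b : G} (hb : b ∈ B) (x x' : V) (y : Y) :
    τ (b • x) (b • x') (bAct hB b hb y) = bAct hB b hb (τ x x' y) := by
  revert y
  refine conn_induction hX.conn (P := fun x' => ∀ y, τ (b • x) (b • x') (bAct hB b hb y) =
      bAct hB b hb (τ x x' y)) x ?_ ?_ x'
  · intro y; simp [h1]
  · intro z w hzw ih y
    rw [← h2 (b • x) (b • z) (b • w), ← h2 x z w, Equiv.Perm.mul_apply, Equiv.Perm.mul_apply,
      ih, h3 z w hzw, h3 _ _ (hL.adj b _ _ hzw), stp_apply, stp_apply]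
    exact stepFn_bAct hL hB hb hzw _

include hX h1 h2 h3 in
theorem tau_N {n : G} (hn : n ∈ N) (x x' : V) : τ (n • x) (n • x') = τ x x' := by
  refine conn_induction hX.conn (P := fun x' => τ (n • x) (n • x') = τ x x') x ?_ ?_ x'
  · simp [h1]
  · intro z w hzw ih
    rw [← h2 (n • x) (n • z) (n • w), ← h2 x z w, ih, h3 z w hzw, h3 _ _ (hL.adj n _ _ hzw),
      hL.inv n hn _ _ hzw]

/-- the folding map -/
noncomputable def fold (τ : V → V → Equiv.Perm Y) (y0 : Y) (x : V) : Y := τ y0.1 x y0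

variable (y0 : Y)

include h2 in
theorem fold_tau (x x' : V) : fold τ y0 x' = τ x x' (fold τ y0 x) := by
  unfold fold
  rw [← h2 y0.1 x x', Equiv.Perm.mul_apply]

include h2 h3 in
theorem fold_step {x x' : V} (h : X.Adj x x') :
    fold τ y0 x' = stepFn X ℓ Y (ℓ x x') (fold τ y0 x) := by
  rw [fold_tau h2 y0 x x', h3 _ _ h, stp_apply]

include hX hY h1 h2 h3 in
theorem fold_of_mem : ∀ (n : ℕ) (y : Y), X.dist y.1 y0.1 = n → fold τ y0 y.1 = y := by
  intro n
  induction n with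
  | zero =>
    intro y hy
    have : y.1 = y0.1 := (hX.conn.dist_eq_zero_iff).1 hy
    have : y = y0 := Subtype.ext this
    subst this
    simp [fold, h1]
  | succ n ih =>
    intro y hy
    have hne : y.1 ≠ y0.1 := by intro h; rw [h] at hy; simp at hy
    obtain ⟨y', e1, e2⟩ := exists_step' hX.conn hne
    have hy' : y' ∈ Y := hY _ y.2 _ y0.2 _ e2
    have hd : X.dist y' y0.1 = n := by unfold Btw at e2; rw [adj_dist e1] at e2; omega
    have := ih ⟨y', hy'⟩ hd
    rw [fold_step hL h2 h3 y0 e1.symm, this]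
    exact stepFn_eq hL e1.symm rfl

include hX h1 h2 h3 in
/-- equivariance of the folding map -/
theorem fold_equiv [N.Normal] {g b : G} (hb : b ∈ B) (hg : b⁻¹ * g ∈ N) {x : V}
    (hx : fold τ y0 (g • x) = bAct hB b hb (fold τ y0 x)) (x' : V) :
    fold τ y0 (g • x') = bAct hB b hb (fold τ y0 x') := by
  have hn : g * b⁻¹ ∈ N := by
    have := Subgroup.Normal.conj_mem (inferInstance : N.Normal) _ hg b
    simpa [mul_assoc] using this
  have e : ∀ z : V, g • z = (g * b⁻¹) • (b • z) := by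
    intro z; rw [smul_smul]; simp
  rw [fold_tau h2 y0 (g • x) (g • x'), hx, e x, e x', tau_N hX hL h1 h2 h3 hn,
    tau_bAct hX hL hB h1 h2 h3 hb, ← fold_tau h2 y0 x x']

include hX hL h2 h3 in
/-- the folding map preserves parallelism -/
theorem fold_parallel : ∀ (n : ℕ) (a b c d : V), X.Adj a b → X.Adj c d → hs X a b = hs X c d →
    X.dist a c = n → fold τ y0 a ≠ fold τ y0 b →
      fold τ y0 c ≠ fold τ y0 d ∧
      hs X (fold τ y0 a).1 (fold τ y0 b).1 = hs X (fold τ y0 c).1 (fold τ y0 d).1 := by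
  intro n
  induction n with
  | zero =>
    intro a b c d hab hcd hh hac hne
    have e : a = c := (hX.conn.dist_eq_zero_iff).1 hac
    subst e
    have e : b = d := by
      by_contra hbd
      exact hX.hs_ne_of_ne hab hcd hbd hh
    subst e
    exact ⟨hne, rfl⟩
  | succ n ih =>
    intro a b c d hab hcd hh hac hne
    have hac' : a ≠ c := by rintro rfl; simp at hac
    obtain ⟨a', e1, e2⟩ := exists_step' hX.conn hac'
    have hca : c ∈ hs X a b := by rw [hh]; exact hX.left_mem_hs hcd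
    have hda : d ∉ hs X a b := by rw [hh]; exact hX.right_not_mem_hs hcd
    have haa : a ∈ hs X c d := by rw [← hh]; exact hX.left_mem_hs hab
    have ha'm : a' ∈ hs X a b := hX.hs_btw hab (hX.left_mem_hs hab) hca e2
    have hne1 : b ≠ a' := by
      rintro rfl
      exact hX.right_not_mem_hs hab ha'm
    rw [hX.not_mem_hs_iff hab] at hda
    rw [hX.mem_hs_iff hcd] at haa
    have hdist : X.dist a' c = n := by unfold Btw at e2; rw [adj_dist e1] at e2; omega
    have hda' : X.dist d a = X.dist d a' + 1 := by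
      have ha'c : a' ∈ hs X c d := by rw [← hh]; exact ha'm
      rw [hX.mem_hs_iff hcd] at ha'c
      have s1 := X.dist_comm (u := d) (v := a)
      have s2 := X.dist_comm (u := d) (v := a')
      omega
    obtain ⟨b', f1, f2, -, f4⟩ := hX.quadrangle (u := d) hab.symm e1.symm hne1 hda hda'
    -- square a, b, b', a'
    have hsq : hs X a b = hs X a' b' := hX.square_hs hab f1 f2.symm e1.symm f4.symm hne1
    have key : fold τ y0 a' ≠ fold τ y0 b' ∧
        hs X (fold τ y0 a).1 (fold τ y0 b).1 = hs X (fold τ y0 a').1 (fold τ y0 b').1 := by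
      have hlam : ℓ a b = ℓ a' b' := hL.par a b b' a' hab f1 f2.symm e1.symm f4.symm hne1
      have hmu : ℓ a a' = ℓ b b' := hL.par a a' b' b e1 f2 f1.symm hab.symm f4.symm hne1.symm
      have hadj : AdjLab X ℓ (ℓ a b) (ℓ a a') :=
        ⟨a, b, b', a', hab, f1, f2.symm, e1.symm, f4.symm, hne1, rfl, rfl⟩
      have r1 : fold τ y0 b = stepFn X ℓ Y (ℓ a b) (fold τ y0 a) := fold_step hL h2 h3 y0 hab
      have r2 : fold τ y0 a' = stepFn X ℓ Y (ℓ a a') (fold τ y0 a) := fold_step hL h2 h3 y0 e1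
      have r3 : fold τ y0 b' = stepFn X ℓ Y (ℓ a a') (fold τ y0 b) := by
        rw [hmu]; exact fold_step hL h2 h3 y0 f1
      have r4 : fold τ y0 b' = stepFn X ℓ Y (ℓ a b) (fold τ y0 a') := by
        rw [hlam]; exact fold_step hL h2 h3 y0 f2
      have inj := (stepFn_invol (Y := Y) hL (ℓ a a')).injective
      have inj' := (stepFn_invol (Y := Y) hL (ℓ a b)).injective
      have hne' : fold τ y0 a' ≠ fold τ y0 b' := by
        rw [r2, r3]; exact fun h => hne (inj h)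
      refine ⟨hne', ?_⟩
      by_cases hst : fold τ y0 a = fold τ y0 a'
      · have : fold τ y0 b = fold τ y0 b' := by rw [r1, r4, hst]
        rw [← this, ← hst]
      · have hst' : fold τ y0 b ≠ fold τ y0 b' := by
          rw [r1, r4]; exact fun h => hst (inj' h)
        -- adjacency facts
        have adjOf : ∀ (p q : Y) (lab : Λ), q = stepFn X ℓ Y lab p → p ≠ q →
            X.Adj p.1 q.1 ∧ ℓ p.1 q.1 = lab := by
          intro p q lab hq hpq
          by_cases h : ∃ z : Y, X.Adj p.1 z.1 ∧ ℓ p.1 z.1 = lab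
          · obtain ⟨z, z1, z2⟩ := h
            rw [stepFn_eq hL z1 z2] at hq
            subst hq
            exact ⟨z1, z2⟩
          · rw [stepFn_none h] at hq
            exact absurd hq.symm hpq
        obtain ⟨k1, k1'⟩ := adjOf _ _ _ r1 hne
        obtain ⟨k2, k2'⟩ := adjOf _ _ _ r2 hst
        obtain ⟨k3, k3'⟩ := adjOf _ _ _ r3 hst'
        obtain ⟨k4, k4'⟩ := adjOf _ _ _ r4 hne'
        have hlm := adjLab_ne hL hadj
        refine hX.square_hs k1 k3 k4.symm k2.symm ?_ ?_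
        · intro h
          apply hlm
          rw [← k3', ← h, ← hL.symm _ _ k1, k1']
        · intro h
          apply hlm
          rw [← k1', h, k2']
    obtain ⟨i1, i2⟩ := ih a' b' c d f2 hcd (hsq.symm.trans hh) hdist key.1
    exact ⟨i1, key.2.trans i2⟩

end

/-- **Equivariant completion theorem.**  Let `G` act on a median graph with a finite index normal
subgroup `N` acting specially, and let `B ≤ G` act cofinitely on a nonempty convex set `Y`.
Then `B` is a retract of a finite index subgroup `K` of `G`. Moreover hyperplanes crossing `Y`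
which are `K`-equivalent are `B`-equivalent, and `K` only contains elements of `B` among the
elements keeping the base point in `Y`. -/
theorem completion {V : Type u} {X : SimpleGraph V} (hX : IsMedian X) {G : Type v} [Group G]
    [MulAction G V] {N : Subgroup G} [N.Normal] [N.FiniteIndex] {Λ : Type w} {ℓ : V → V → Λ}
    (hL : Labelled X N ℓ) {Y : Set V} (hY : IsConv X Y) {B : Subgroup G}
    (hB : ∀ b ∈ B, ∀ y ∈ Y, b • y ∈ Y) {y0 : V} (hy0 : y0 ∈ Y) {F : Set V} (hF : F.Finite)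
    (hFY : ∀ y ∈ Y, ∃ b ∈ B, b • y ∈ F) :
    ∃ K : Subgroup G, K.FiniteIndex ∧ ∃ hBK : B ≤ K, (∃ ρ : K →* B, ∀ b : B, ρ ⟨b, hBK b.2⟩ = b) ∧
      (∀ g ∈ K, ∃ b ∈ B, ∀ x x' z z', x ∈ Y → x' ∈ Y → z ∈ Y → z' ∈ Y → X.Adj x x' →
        X.Adj z z' → hs X (g • x) (g • x') = hs X z z' → hs X (b • x) (b • x') = hs X z z') ∧
      (∀ g ∈ K, g • y0 ∈ Y → g ∈ B) := by
  classical
  obtain ⟨τ, h1, h2, h3⟩ := exists_transport hX hL hY
  let y0' : Y := ⟨y0, hy0⟩
  let ρ : V → Y := fold τ y0'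
  have hρY : ∀ y : Y, ρ y.1 = y := fun y => fold_of_mem hX hL hY h1 h2 h3 y0' _ y rfl
  have hρ0 : ρ y0 = y0' := hρY y0'
  -- the defining property
  let P : G → G → Prop := fun g b => b⁻¹ * g ∈ N ∧ (ρ (g • y0)).1 = b • y0
  have hE : ∀ g b, b ∈ B → P g b → ∀ x, (ρ (g • x)).1 = b • (ρ x).1 := by
    intro g b hb hP x
    have := fold_equiv hX hL hB h1 h2 h3 y0' (g := g) hb hP.1 (x := y0)
      (by apply Subtype.ext
          change (ρ (g • y0)).1 = b • (ρ y0).1
          rw [hP.2, hρ0]) x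
    exact congrArg Subtype.val this
  have hN : ∀ n : G, n ∈ N → ∀ b : G, b⁻¹ * n * b ∈ N := by
    intro n hn b
    have := Subgroup.Normal.conj_mem (inferInstance : N.Normal) n hn b⁻¹
    simpa using this
  have hN' : ∀ n : G, n ∈ N → ∀ b : G, b * n * b⁻¹ ∈ N := by
    intro n hn b
    exact Subgroup.Normal.conj_mem (inferInstance : N.Normal) n hn b
  have hmul : ∀ g g' b b', b ∈ B → b' ∈ B → P g b → P g' b' → P (g * g') (b * b') := by
    intro g g' b b' hb hb' hP hP'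
    refine ⟨?_, ?_⟩
    · have e : (b * b')⁻¹ * (g * g') = (b'⁻¹ * (b⁻¹ * g) * b') * (b'⁻¹ * g') := by group
      rw [e]
      exact N.mul_mem (hN _ hP.1 b') hP'.1
    · rw [mul_smul, hE g b hb hP, hP'.2, mul_smul]
  have hinv : ∀ g b, b ∈ B → P g b → P g⁻¹ b⁻¹ := by
    intro g b hb hP
    refine ⟨?_, ?_⟩
    · have e : b⁻¹⁻¹ * g⁻¹ = (b * (b⁻¹ * g) * b⁻¹)⁻¹ := by group
      rw [e]
      exact N.inv_mem (hN' _ hP.1 b)
    · have := hE g b hb hP (g⁻¹ • y0)
      rw [smul_inv_smul, hρ0] at this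
      exact (eq_inv_smul_iff.2 this.symm)
  have huniq : ∀ g b b', b ∈ B → b' ∈ B → P g b → P g b' → b = b' := by
    intro g b b' hb hb' hP hP'
    have e1 : b⁻¹ * b' ∈ N := by
      have e : b⁻¹ * b' = (b⁻¹ * g) * (b'⁻¹ * g)⁻¹ := by group
      rw [e]; exact N.mul_mem hP.1 (N.inv_mem hP'.1)
    have e2 : (b⁻¹ * b') • y0 = y0 := by
      rw [mul_smul, ← hP'.2, hP.2, inv_smul_smul]
    have := hL.free _ e1 _ e2
    exact (inv_mul_eq_one.1 this)
  have hPb : ∀ b ∈ B, P b b := by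
    intro b hb
    refine ⟨by simp [N.one_mem], ?_⟩
    have := hρY ⟨b • y0, hB b hb _ hy0⟩
    exact congrArg Subtype.val this
  let K : Subgroup G :=
    { carrier := {g | ∃ b ∈ B, P g b}
      mul_mem' := by
        rintro g g' ⟨b, hb, hP⟩ ⟨b', hb', hP'⟩
        exact ⟨b * b', B.mul_mem hb hb', hmul g g' b b' hb hb' hP hP'⟩
      one_mem' := ⟨1, B.one_mem, hPb 1 B.one_mem⟩
      inv_mem' := by
        rintro g ⟨b, hb, hP⟩
        exact ⟨b⁻¹, B.inv_mem hb, hinv g b hb hP⟩ }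
  have hKmem : ∀ g, g ∈ K ↔ ∃ b ∈ B, P g b := fun g => Iff.rfl
  have hBK : B ≤ K := fun b hb => ⟨b, hb, hPb b hb⟩
  choose r hr1 hr2 using fun g : K => (hKmem g.1).1 g.2
  refine ⟨K, ?_, hBK, ⟨⟨⟨fun g => ⟨r g, hr1 g⟩, ?_⟩, ?_⟩, ?_⟩, ?_, ?_⟩
  · -- finite index
    choose β hβ1 hβ2 using hFY
    let φ : G → F × (G ⧸ N) := fun g =>
      (⟨β (ρ (g • y0)).1 (ρ (g • y0)).2 • (ρ (g • y0)).1, hβ2 _ _⟩,
        ((β (ρ (g • y0)).1 (ρ (g • y0)).2 * g : G) : G ⧸ N))
    have hφ : ∀ g1 g2, φ g1 = φ g2 → g1 * g2⁻¹ ∈ K := by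
      intro g1 g2 h
      set b1 := β (ρ (g1 • y0)).1 (ρ (g1 • y0)).2 with hb1
      set b2 := β (ρ (g2 • y0)).1 (ρ (g2 • y0)).2 with hb2
      have hb1B : b1 ∈ B := hβ1 _ _
      have hb2B : b2 ∈ B := hβ1 _ _
      have e1 : b1 • (ρ (g1 • y0)).1 = b2 • (ρ (g2 • y0)).1 :=
        congrArg (fun t : F × (G ⧸ N) => t.1.1) h
      have e2 : (b1 * g1)⁻¹ * (b2 * g2) ∈ N := by
        have := congrArg (fun t : F × (G ⧸ N) => t.2) h
        exact QuotientGroup.eq.1 this
      have hbB : b1⁻¹ * b2 ∈ B := B.mul_mem (B.inv_mem hb1B) hb2B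
      refine ⟨b1⁻¹ * b2, hbB, ?_, ?_⟩
      · have e : (b1⁻¹ * b2)⁻¹ * (g1 * g2⁻¹) =
            (b2⁻¹ * ((b1 * g1) * ((b1 * g1)⁻¹ * (b2 * g2)) * (b1 * g1)⁻¹) * b2)⁻¹ := by group
        rw [e]
        exact N.inv_mem (hN _ (hN' _ e2 _) _)
      · have hgN : (b1⁻¹ * b2)⁻¹ * (g1 * g2⁻¹) ∈ N := by
          have e : (b1⁻¹ * b2)⁻¹ * (g1 * g2⁻¹) =
              (b2⁻¹ * ((b1 * g1) * ((b1 * g1)⁻¹ * (b2 * g2)) * (b1 * g1)⁻¹) * b2)⁻¹ := by group
          rw [e]
          exact N.inv_mem (hN _ (hN' _ e2 _) _)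
        have := fold_equiv hX hL hB h1 h2 h3 y0' (g := g1 * g2⁻¹) hbB hgN (x := g2 • y0)
          (by apply Subtype.ext
              change (ρ ((g1 * g2⁻¹) • (g2 • y0))).1 = (b1⁻¹ * b2) • (ρ (g2 • y0)).1
              rw [smul_smul, inv_mul_cancel_right, mul_smul, ← e1, inv_smul_smul]) y0
        have := congrArg Subtype.val this
        change (ρ ((g1 * g2⁻¹) • y0)).1 = (b1⁻¹ * b2) • (ρ y0).1 at this
        rw [hρ0] at this
        exact this
    have : Finite F := hF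
    let ψ : G ⧸ K → F × (G ⧸ N) := fun q => φ (q.out)⁻¹
    have hψ : Function.Injective ψ := by
      intro q1 q2 h
      have := hφ _ _ h
      rw [inv_inv] at this
      rw [← QuotientGroup.out_eq' q1, ← QuotientGroup.out_eq' q2]
      exact QuotientGroup.eq.2 this
    have : Finite (G ⧸ K) := Finite.of_injective ψ hψ
    exact Subgroup.finiteIndex_of_finite_quotient
  · apply Subtype.ext
    exact huniq 1 _ _ (hr1 1) B.one_mem (hr2 1) (hPb 1 B.one_mem)
  · intro g g'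
    apply Subtype.ext
    exact huniq (g * g' : K) _ _ (hr1 _) (B.mul_mem (hr1 g) (hr1 g')) (hr2 _)
      (hmul _ _ _ _ (hr1 g) (hr1 g') (hr2 g) (hr2 g'))
  · intro b
    apply Subtype.ext
    exact huniq b _ _ (hr1 _) b.2 (hr2 _) (hPb b b.2)
  · rintro g ⟨b, hb, hP⟩
    refine ⟨b, hb, fun x x' z z' hx hx' hz hz' hxx hzz hh => ?_⟩
    have e1 : (ρ (g • x)).1 = b • x := by
      rw [hE g b hb hP x]
      exact congrArg (fun t => b • t) (congrArg Subtype.val (hρY ⟨x, hx⟩))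
    have e2 : (ρ (g • x')).1 = b • x' := by
      rw [hE g b hb hP x']
      exact congrArg (fun t => b • t) (congrArg Subtype.val (hρY ⟨x', hx'⟩))
    have hne : ρ (g • x) ≠ ρ (g • x') := by
      intro h
      have := congrArg Subtype.val h
      rw [e1, e2] at this
      have := smul_left_cancel b this
      exact hxx.ne this
    obtain ⟨-, h5⟩ := fold_parallel hX hL h2 h3 y0' _ (g • x) (g • x') z z'
      (hL.adj g _ _ hxx) hzz hh rfl hne
    have e3 : (ρ z).1 = z := congrArg Subtype.val (hρY ⟨z, hz⟩)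
    have e4 : (ρ z').1 = z' := congrArg Subtype.val (hρY ⟨z', hz'⟩)
    change hs X (ρ (g • x)).1 (ρ (g • x')).1 = hs X (ρ z).1 (ρ z').1 at h5
    rw [e1, e2, e3, e4] at h5
    exact h5
  · rintro g ⟨b, hb, hP⟩ hg
    have e1 : (ρ (g • y0)).1 = g • y0 := congrArg Subtype.val (hρY ⟨g • y0, hg⟩)
    have e2 : g • y0 = b • y0 := by rw [← e1, hP.2]
    have e3 : (b⁻¹ * g) • y0 = y0 := by rw [mul_smul, e2, inv_smul_smul]
    have := hL.free _ hP.1 _ e3
    have : g = b := by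
      rw [inv_mul_eq_one] at this; exact this.symm
    rw [this]; exact hb

end Pool.Agent.Helper10.VR
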