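import Pool.Agent.Helper10.VR.Special

/-!
# The median graph dual to a space with walls (Sageev, Roller, Chepoi, Nica)
-/

namespace Pool.Agent.Helper10.VR

open SimpleGraph
open scoped Pointwise

universe u v w

/-- A space with walls. -/
structure Walls (O : Type u) where
  W : Set (Set O)
  compl : ∀ A ∈ W, Aᶜ ∈ W
  nonempty : ∀ A ∈ W, A.Nonempty
  fin : ∀ a b : O, {A | A ∈ W ∧ a ∈ A ∧ b ∉ A}.Finite

variable {O : Type u} (w : Walls O)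

/-- the principal orientation -/
def prin (o : O) : Set (Set O) := {A | A ∈ w.W ∧ o ∈ A}

/-- consistent orientations at finite distance from principal ones -/
structure IsUF (σ : Set (Set O)) : Prop where
  sub : σ ⊆ w.W
  compl : ∀ A ∈ w.W, A ∉ σ ↔ Aᶜ ∈ σ
  inter : ∀ A ∈ σ, ∀ B ∈ σ, (A ∩ B).Nonempty
  fin : ∀ o, (σ \ prin w o).Finite

theorem prin_isUF (o : O) : IsUF w (prin w o) where
  sub _ hA := hA.1
  compl A hA := by
    constructor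
    · intro h
      exact ⟨w.compl A hA, fun h' => h ⟨hA, h'⟩⟩
    · rintro ⟨-, h⟩ ⟨-, h'⟩
      exact h h'
  inter A hA B hB := ⟨o, hA.2, hB.2⟩
  fin o' := by
    refine (w.fin o o').subset ?_
    rintro A ⟨⟨h1, h2⟩, h3⟩
    exact ⟨h1, h2, fun h => h3 ⟨h1, h⟩⟩

/-- vertices of the dual median graph -/
def Dual : Type u := {σ : Set (Set O) // IsUF w σ}

variable {w}

theorem Dual.ext' {σ τ : Dual w} (h : σ.1 = τ.1) : σ = τ := Subtype.ext h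

/-- principal vertex -/
def pt (w : Walls O) (o : O) : Dual w := ⟨prin w o, prin_isUF w o⟩

theorem mem_pt {A : Set O} {o : O} : A ∈ (pt w o).1 ↔ A ∈ w.W ∧ o ∈ A := Iff.rfl

theorem Dual.not_mem_iff (σ : Dual w) {A : Set O} (hA : A ∈ w.W) : A ∉ σ.1 ↔ Aᶜ ∈ σ.1 :=
  σ.2.compl A hA

theorem Dual.mem_iff (σ : Dual w) {A : Set O} (hA : A ∈ w.W) : A ∈ σ.1 ↔ Aᶜ ∉ σ.1 := by
  rw [← σ.not_mem_iff hA, not_not]

theorem Dual.diff_finite (σ τ : Dual w) (hO : Nonempty O) : (σ.1 \ τ.1).Finite := by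
  obtain ⟨o⟩ := hO
  have h1 := σ.2.fin o
  have h2 := (τ.2.fin o).image compl
  refine (h1.union h2).subset ?_
  rintro A ⟨h3, h4⟩
  by_cases h5 : A ∈ prin w o
  · right
    have hA := σ.2.sub h3
    refine ⟨Aᶜ, ⟨(τ.not_mem_iff hA).1 h4, fun h => h.2 h5.2⟩, compl_compl A⟩
  · left; exact ⟨h3, h5⟩

theorem Dual.diff_compl (σ τ : Dual w) : τ.1 \ σ.1 = compl '' (σ.1 \ τ.1) := by
  ext A
  constructor
  · rintro ⟨h1, h2⟩
    have hA := τ.2.sub h1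
    refine ⟨Aᶜ, ⟨(σ.not_mem_iff hA).1 h2, (τ.mem_iff hA).1 h1⟩, compl_compl A⟩
  · rintro ⟨B, ⟨h1, h2⟩, rfl⟩
    have hB := σ.2.sub h1
    exact ⟨(τ.not_mem_iff hB).1 h2, (σ.mem_iff hB).1 h1⟩

/-- number of walls separating two vertices -/
noncomputable def Dual.d (σ τ : Dual w) : ℕ := (σ.1 \ τ.1).ncard

theorem Dual.d_comm (σ τ : Dual w) : σ.d τ = τ.d σ := by
  unfold Dual.d
  rw [σ.diff_compl τ, Set.ncard_image_of_injective _ compl_injective]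

theorem Dual.d_self (σ : Dual w) : σ.d σ = 0 := by unfold Dual.d; simp

theorem Dual.eq_of_subset {σ τ : Dual w} (h : σ.1 ⊆ τ.1) : σ = τ := by
  apply Dual.ext'
  apply Set.Subset.antisymm h
  intro A hA
  have hA' := τ.2.sub hA
  by_contra hn
  have h1 := h ((σ.not_mem_iff hA').1 hn)
  exact (τ.mem_iff hA').1 hA h1

theorem Dual.eq_of_d [hO : Nonempty O] {σ τ : Dual w} (h : σ.d τ = 0) : σ = τ := by
  unfold Dual.d at h
  rw [Set.ncard_eq_zero (σ.diff_finite τ hO)] at h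
  exact Dual.eq_of_subset (Set.sdiff_eq_empty.1 h)

theorem Dual.d_triangle [hO : Nonempty O] (σ τ ρ : Dual w) : σ.d ρ ≤ σ.d τ + τ.d ρ := by
  unfold Dual.d
  have h : σ.1 \ ρ.1 ⊆ (σ.1 \ τ.1) ∪ (τ.1 \ ρ.1) := by
    rintro A ⟨h1, h2⟩
    by_cases h3 : A ∈ τ.1
    · right; exact ⟨h3, h2⟩
    · left; exact ⟨h1, h3⟩
  exact (Set.ncard_le_ncard h ((σ.diff_finite τ hO).union (τ.diff_finite ρ hO))).trans
    (Set.ncard_union_le _ _)

/-- flipping a minimal halfspace -/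
theorem isUF_flip (σ : Dual w) {A : Set O} (hA : A ∈ σ.1) (hmin : ∀ B ∈ σ.1, B ⊆ A → B = A) :
    IsUF w ((σ.1 \ {A}) ∪ {Aᶜ}) where
  sub := by
    rintro B (⟨h1, -⟩ | h1)
    · exact σ.2.sub h1
    · rw [Set.mem_singleton_iff.1 h1]
      exact w.compl A (σ.2.sub hA)
  compl := by
    intro B hB
    have hAW := σ.2.sub hA
    constructor
    · intro h
      by_cases hBA : B = A
      · right; rw [hBA]; rfl
      · left
        refine ⟨(σ.not_mem_iff hB).1 (fun h' => h (Or.inl ⟨h', hBA⟩)), ?_⟩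
        intro h'
        apply h
        right
        rw [Set.mem_singleton_iff] at h'
        rw [Set.mem_singleton_iff, ← h', compl_compl]
    · rintro (⟨h1, h2⟩ | h1) h3
      · rcases h3 with ⟨h4, -⟩ | h4
        · exact (σ.mem_iff hB).1 h4 h1
        · apply h2
          rw [Set.mem_singleton_iff] at h4 ⊢
          rw [h4, compl_compl]
      · rw [Set.mem_singleton_iff] at h1
        have hBA : B = A := compl_injective h1
        rcases h3 with ⟨-, h4⟩ | h4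
        · exact h4 hBA
        · rw [Set.mem_singleton_iff, hBA] at h4
          obtain ⟨a, ha⟩ := w.nonempty A hAW
          have : a ∈ Aᶜ := by rw [← h4]; exact ha
          exact this ha
  inter := by
    have hAW := σ.2.sub hA
    have key : ∀ B ∈ σ.1, B ≠ A → (Aᶜ ∩ B).Nonempty := by
      intro B hB hBA
      by_contra hcon
      apply hBA
      apply hmin B hB
      intro x hx
      by_contra hxA
      exact hcon ⟨x, hxA, hx⟩
    rintro B (⟨h1, h2⟩ | h1) C (⟨h3, h4⟩ | h3)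
    · exact σ.2.inter B h1 C h3
    · rw [Set.mem_singleton_iff.1 h3, Set.inter_comm]
      exact key B h1 h2
    · rw [Set.mem_singleton_iff.1 h1]
      exact key C h3 h4
    · rw [Set.mem_singleton_iff.1 h1, Set.mem_singleton_iff.1 h3, Set.inter_self]
      exact w.nonempty _ (w.compl A hAW)
  fin := by
    intro o
    refine ((σ.2.fin o).union (Set.finite_singleton Aᶜ)).subset ?_
    rintro B ⟨(⟨h1, -⟩ | h1), h2⟩
    · left; exact ⟨h1, h2⟩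
    · right; exact h1

/-- moving one step closer -/
theorem Dual.exists_step [hO : Nonempty O] {σ τ : Dual w} (h : σ ≠ τ) :
    ∃ ρ : Dual w, σ.d ρ = 1 ∧ σ.d τ = ρ.d τ + 1 := by
  have hfin := σ.diff_finite τ hO
  have hne : (σ.1 \ τ.1).Nonempty := by
    by_contra hcon
    rw [Set.not_nonempty_iff_eq_empty, Set.sdiff_eq_empty] at hcon
    exact h (Dual.eq_of_subset hcon)
  obtain ⟨A, hA, hAmin⟩ := hfin.exists_minimal hne
  have hAW := σ.2.sub hA.1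
  have hmin : ∀ B ∈ σ.1, B ⊆ A → B = A := by
    intro B hB hBA
    have hBτ : B ∉ τ.1 := by
      intro hBτ
      obtain ⟨x, hx1, hx2⟩ := τ.2.inter B hBτ _ ((τ.not_mem_iff hAW).1 hA.2)
      exact hx2 (hBA hx1)
    exact Set.Subset.antisymm hBA (hAmin ⟨hB, hBτ⟩ hBA)
  let ρ : Dual w := ⟨_, isUF_flip σ hA.1 hmin⟩
  have hAρ : A ∉ ρ.1 := by
    rintro (⟨-, h2⟩ | h2)
    · exact h2 rfl
    · obtain ⟨a, ha⟩ := w.nonempty A hAW
      rw [Set.mem_singleton_iff] at h2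
      have : a ∈ Aᶜ := by rw [← h2]; exact ha
      exact this ha
  have e1 : σ.1 \ ρ.1 = {A} := by
    ext B
    constructor
    · rintro ⟨h1, h2⟩
      by_contra h3
      exact h2 (Or.inl ⟨h1, h3⟩)
    · rintro rfl
      exact ⟨hA.1, hAρ⟩
  have e2 : ρ.1 \ τ.1 = (σ.1 \ τ.1) \ {A} := by
    ext B
    constructor
    · rintro ⟨(⟨h1, h2⟩ | h1), h3⟩
      · exact ⟨⟨h1, h3⟩, h2⟩
      · rw [Set.mem_singleton_iff] at h1
        subst h1
        exact absurd ((τ.not_mem_iff hAW).1 hA.2) h3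
    · rintro ⟨⟨h1, h2⟩, h3⟩
      exact ⟨Or.inl ⟨h1, h3⟩, h2⟩
  refine ⟨ρ, ?_, ?_⟩
  · unfold Dual.d; rw [e1, Set.ncard_singleton]
  · unfold Dual.d; rw [e2, Set.ncard_sdiff_singleton_add_one hA hfin]

variable (w) in
/-- The dual graph -/
def dualGraph : SimpleGraph (Dual w) where
  Adj σ τ := σ.d τ = 1
  symm := ⟨fun σ τ h => by rw [Dual.d_comm]; exact h⟩
  loopless := ⟨fun σ h => by rw [Dual.d_self] at h; exact absurd h (by norm_num)⟩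

theorem dualGraph_connected [hO : Nonempty O] : (dualGraph w).Connected ∧
    ∀ σ τ : Dual w, (dualGraph w).dist σ τ = σ.d τ := by
  have key : ∀ n, ∀ σ τ : Dual w, σ.d τ = n → ∃ p : (dualGraph w).Walk σ τ, p.length = n := by
    intro n
    induction n with
    | zero =>
      intro σ τ h
      have := Dual.eq_of_d h
      subst this
      exact ⟨Walk.nil, rfl⟩
    | succ n ih =>
      intro σ τ h
      have hne : σ ≠ τ := by rintro rfl; rw [Dual.d_self] at h; exact absurd h (by norm_num)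
      obtain ⟨ρ, h1, h2⟩ := Dual.exists_step hne
      obtain ⟨p, hp⟩ := ih ρ τ (by omega)
      exact ⟨Walk.cons (show (dualGraph w).Adj σ ρ from h1) p, by simp [hp]⟩
  have hlow : ∀ σ τ : Dual w, ∀ p : (dualGraph w).Walk σ τ, σ.d τ ≤ p.length := by
    intro σ τ p
    induction p with
    | nil => rw [Dual.d_self]; simp
    | @cons a b c hab p ih =>
      have h1 : a.d b = 1 := hab
      have h2 := Dual.d_triangle a b c
      rw [Walk.length_cons]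
      omega
  have hconn : (dualGraph w).Connected := by
    have : Nonempty (Dual w) := ⟨pt w hO.some⟩
    refine ⟨fun σ τ => ?_⟩
    obtain ⟨p, -⟩ := key _ σ τ rfl
    exact ⟨p⟩
  refine ⟨hconn, fun σ τ => ?_⟩
  apply le_antisymm
  · obtain ⟨p, hp⟩ := key _ σ τ rfl
    rw [← hp]; exact dist_le p
  · obtain ⟨p, hp⟩ := hconn.exists_walk_length_eq_dist σ τ
    rw [← hp]; exact hlow σ τ p

theorem dual_btw [hO : Nonempty O] {σ ρ τ : Dual w} :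
    Btw (dualGraph w) σ ρ τ ↔ σ.1 ∩ τ.1 ⊆ ρ.1 := by
  unfold Btw
  rw [dualGraph_connected.2, dualGraph_connected.2, dualGraph_connected.2]
  have f1 := σ.diff_finite ρ hO
  have f2 := ρ.diff_finite τ hO
  have f3 := σ.diff_finite τ hO
  have hdisj : Disjoint (σ.1 \ ρ.1) (ρ.1 \ τ.1) := by
    rw [Set.disjoint_left]
    rintro A ⟨-, h1⟩ ⟨h2, -⟩
    exact h1 h2
  have hun : ((σ.1 \ ρ.1) ∪ (ρ.1 \ τ.1)).ncard = (σ.1 \ ρ.1).ncard + (ρ.1 \ τ.1).ncard :=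
    Set.ncard_union_eq hdisj f1 f2
  have hsub : σ.1 \ τ.1 ⊆ (σ.1 \ ρ.1) ∪ (ρ.1 \ τ.1) := by
    rintro A ⟨h1, h2⟩
    by_cases h3 : A ∈ ρ.1
    · right; exact ⟨h3, h2⟩
    · left; exact ⟨h1, h3⟩
  constructor
  · intro h A hA
    have heq : σ.1 \ τ.1 = (σ.1 \ ρ.1) ∪ (ρ.1 \ τ.1) := by
      apply Set.eq_of_subset_of_ncard_le hsub _ (f1.union f2)
      rw [hun]
      exact h.le
    by_contra hcon
    have : A ∈ σ.1 \ τ.1 := by rw [heq]; left; exact ⟨hA.1, hcon⟩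
    exact this.2 hA.2
  · intro h
    have heq : σ.1 \ τ.1 = (σ.1 \ ρ.1) ∪ (ρ.1 \ τ.1) := by
      apply Set.Subset.antisymm hsub
      rintro A (⟨h1, h2⟩ | ⟨h1, h2⟩)
      · exact ⟨h1, fun h3 => h2 (h ⟨h1, h3⟩)⟩
      · have hA := ρ.2.sub h1
        refine ⟨?_, h2⟩
        by_contra h3
        exact (ρ.mem_iff hA).1 h1 (h ⟨(σ.not_mem_iff hA).1 h3, (τ.not_mem_iff hA).1 h2⟩)
    unfold Dual.d
    rw [heq, hun]

/-- majority vote -/
def maj (σ τ ρ : Set (Set O)) : Set (Set O) :=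
  {A | (A ∈ σ ∧ A ∈ τ) ∨ (A ∈ τ ∧ A ∈ ρ) ∨ (A ∈ σ ∧ A ∈ ρ)}

theorem isUF_maj (σ τ ρ : Dual w) : IsUF w (maj σ.1 τ.1 ρ.1) where
  sub := by
    rintro A (⟨h, -⟩ | ⟨h, -⟩ | ⟨h, -⟩)
    · exact σ.2.sub h
    · exact τ.2.sub h
    · exact σ.2.sub h
  compl := by
    intro A hA
    have h1 := σ.not_mem_iff hA
    have h2 := τ.not_mem_iff hA
    have h3 := ρ.not_mem_iff hA
    change ¬ ((A ∈ σ.1 ∧ A ∈ τ.1) ∨ (A ∈ τ.1 ∧ A ∈ ρ.1) ∨ (A ∈ σ.1 ∧ A ∈ ρ.1)) ↔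
      ((Aᶜ ∈ σ.1 ∧ Aᶜ ∈ τ.1) ∨ (Aᶜ ∈ τ.1 ∧ Aᶜ ∈ ρ.1) ∨ (Aᶜ ∈ σ.1 ∧ Aᶜ ∈ ρ.1))
    rw [← h1, ← h2, ← h3]
    tauto
  inter := by
    intro A hA B hB
    have h1 := σ.2.inter A
    have h2 := τ.2.inter A
    have h3 := ρ.2.inter A
    change ((A ∈ σ.1 ∧ A ∈ τ.1) ∨ (A ∈ τ.1 ∧ A ∈ ρ.1) ∨ (A ∈ σ.1 ∧ A ∈ ρ.1)) at hA
    change ((B ∈ σ.1 ∧ B ∈ τ.1) ∨ (B ∈ τ.1 ∧ B ∈ ρ.1) ∨ (B ∈ σ.1 ∧ B ∈ ρ.1)) at hB
    have g1 := fun h h' => h1 h B h'
    have g2 := fun h h' => h2 h B h'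
    have g3 := fun h h' => h3 h B h'
    tauto
  fin := by
    intro o
    refine (((σ.2.fin o).union (τ.2.fin o)).union (ρ.2.fin o)).subset ?_
    rintro A ⟨h, h'⟩
    change ((A ∈ σ.1 ∧ A ∈ τ.1) ∨ (A ∈ τ.1 ∧ A ∈ ρ.1) ∨ (A ∈ σ.1 ∧ A ∈ ρ.1)) at h
    rcases h with ⟨h, -⟩ | ⟨h, -⟩ | ⟨h, -⟩
    · left; left; exact ⟨h, h'⟩
    · left; right; exact ⟨h, h'⟩
    · left; left; exact ⟨h, h'⟩

/-- the majority vertex -/
def majV (σ τ ρ : Dual w) : Dual w := ⟨_, isUF_maj σ τ ρ⟩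

theorem mem_majV {σ τ ρ : Dual w} {A : Set O} : A ∈ (majV σ τ ρ).1 ↔
    (A ∈ σ.1 ∧ A ∈ τ.1) ∨ (A ∈ τ.1 ∧ A ∈ ρ.1) ∨ (A ∈ σ.1 ∧ A ∈ ρ.1) := Iff.rfl

/-- The dual graph is a median graph. -/
theorem dualGraph_isMedian [hO : Nonempty O] : IsMedian (dualGraph w) where
  conn := dualGraph_connected.1
  median := by
    intro σ τ ρ
    refine ⟨majV σ τ ρ, ⟨?_, ?_, ?_⟩, ?_⟩
    · rw [dual_btw]; rintro A ⟨h1, h2⟩; exact Or.inl ⟨h1, h2⟩
    · rw [dual_btw]; rintro A ⟨h1, h2⟩; exact Or.inr (Or.inl ⟨h1, h2⟩)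
    · rw [dual_btw]; rintro A ⟨h1, h2⟩; exact Or.inr (Or.inr ⟨h1, h2⟩)
    · rintro m ⟨h1, h2, h3⟩
      rw [dual_btw] at h1 h2 h3
      symm
      apply Dual.eq_of_subset
      intro A hA
      rcases mem_majV.1 hA with h | h | h
      · exact h1 h
      · exact h2 h
      · exact h3 h

theorem dual_adj_iff {σ τ : Dual w} : (dualGraph w).Adj σ τ ↔ ∃ A, σ.1 \ τ.1 = {A} := by
  change σ.d τ = 1 ↔ _
  unfold Dual.d
  exact Set.ncard_eq_one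

theorem dual_diff_comm {σ τ : Dual w} {A : Set O} (h : σ.1 \ τ.1 = {A}) : τ.1 \ σ.1 = {Aᶜ} := by
  rw [σ.diff_compl τ, h, Set.image_singleton]

theorem dual_diff_mem {σ τ : Dual w} {A : Set O} (h : σ.1 \ τ.1 = {A}) : A ∈ σ.1 ∧ A ∉ τ.1 := by
  have : A ∈ σ.1 \ τ.1 := by rw [h]; rfl
  exact this

/-- Halfspaces of the dual graph -/
theorem dual_hs [hO : Nonempty O] {σ τ : Dual w} {A : Set O} (h : σ.1 \ τ.1 = {A}) :
    hs (dualGraph w) σ τ = {ρ | A ∈ ρ.1} := by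
  have hadj : (dualGraph w).Adj σ τ := dual_adj_iff.2 ⟨A, h⟩
  have hX : IsMedian (dualGraph w) := dualGraph_isMedian
  obtain ⟨hA1, hA2⟩ := dual_diff_mem h
  have hAW := σ.2.sub hA1
  have key : ∀ {σ τ : Dual w} {A : Set O}, σ.1 \ τ.1 = {A} → ∀ ρ : Dual w, A ∈ ρ.1 →
      Btw (dualGraph w) ρ σ τ := by
    intro σ τ A h ρ hρ
    obtain ⟨hA1, hA2⟩ := dual_diff_mem h
    have hAW := σ.2.sub hA1
    rw [dual_btw]
    rintro B ⟨h1, h2⟩
    by_contra h3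
    have : B ∈ τ.1 \ σ.1 := ⟨h2, h3⟩
    rw [dual_diff_comm h, Set.mem_singleton_iff] at this
    rw [this] at h1
    exact (ρ.mem_iff hAW).1 hρ h1
  ext ρ
  constructor
  · intro hρ
    by_contra hcon
    have h1 : Aᶜ ∈ ρ.1 := (ρ.not_mem_iff hAW).1 hcon
    have h2 := key (dual_diff_comm h) ρ h1
    rw [hX.mem_hs_iff hadj] at hρ
    unfold Btw at h2
    rw [adj_dist hadj.symm] at h2
    omega
  · intro hρ
    have h2 := key h ρ hρ
    rw [hX.mem_hs_iff hadj]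
    unfold Btw at h2
    rw [adj_dist hadj] at h2
    omega

theorem halfspace_injective {A B : Set O} (hA : A ∈ w.W) (hB : B ∈ w.W)
    (h : {ρ : Dual w | A ∈ ρ.1} = {ρ : Dual w | B ∈ ρ.1}) : A = B := by
  ext o
  have h1 : A ∈ (pt w o).1 ↔ B ∈ (pt w o).1 := by
    have : pt w o ∈ {ρ : Dual w | A ∈ ρ.1} ↔ pt w o ∈ {ρ : Dual w | B ∈ ρ.1} := by rw [h]
    exact this
  rw [mem_pt, mem_pt] at h1
  tauto

/-- every wall is the hyperplane of an edge -/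
theorem exists_edge [hO : Nonempty O] {A : Set O} (hA : A ∈ w.W) :
    ∃ σ τ : Dual w, (dualGraph w).Adj σ τ ∧ σ.1 \ τ.1 = {A} := by
  by_contra hcon
  push Not at hcon
  obtain ⟨a, ha⟩ := w.nonempty A hA
  obtain ⟨b, hb⟩ := w.nonempty _ (w.compl A hA)
  have key : ∀ ρ : Dual w, A ∈ ρ.1 := by
    refine conn_induction dualGraph_connected.1 (pt w a) ⟨hA, ha⟩ ?_
    intro σ τ h1 h2
    by_contra h3
    obtain ⟨B, hB⟩ := dual_adj_iff.1 h1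
    have : A ∈ σ.1 \ τ.1 := ⟨h2, h3⟩
    rw [hB, Set.mem_singleton_iff] at this
    subst this
    exact hcon σ τ h1 hB
  exact hb (key (pt w b)).2

theorem dual_isHS_iff [hO : Nonempty O] {h : Set (Dual w)} :
    IsHS (dualGraph w) h ↔ ∃ A ∈ w.W, h = {ρ | A ∈ ρ.1} := by
  constructor
  · rintro ⟨σ, τ, hadj, rfl⟩
    obtain ⟨A, hA⟩ := dual_adj_iff.1 hadj
    exact ⟨A, σ.2.sub (dual_diff_mem hA).1, dual_hs hA⟩
  · rintro ⟨A, hA, rfl⟩
    obtain ⟨σ, τ, hadj, hd⟩ := exists_edge hA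
    exact ⟨σ, τ, hadj, (dual_hs hd).symm⟩

theorem dual_crosses {A B : Set O} (hA : A ∈ w.W) (hB : B ∈ w.W) :
    Crosses {ρ : Dual w | A ∈ ρ.1} {ρ : Dual w | B ∈ ρ.1} ↔ Crosses A B := by
  constructor
  · rintro ⟨⟨a, a1, a2⟩, ⟨b, b1, b2⟩, ⟨c, c1, c2⟩, ⟨d, d1, d2⟩⟩
    exact ⟨a.2.inter _ a1 _ a2, b.2.inter _ b1 _ ((b.not_mem_iff hB).1 b2),
      c.2.inter _ ((c.not_mem_iff hA).1 c1) _ c2,
      d.2.inter _ ((d.not_mem_iff hA).1 d1) _ ((d.not_mem_iff hB).1 d2)⟩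
  · rintro ⟨⟨a, a1, a2⟩, ⟨b, b1, b2⟩, ⟨c, c1, c2⟩, ⟨d, d1, d2⟩⟩
    exact ⟨⟨pt w a, ⟨hA, a1⟩, ⟨hB, a2⟩⟩, ⟨pt w b, ⟨hA, b1⟩, fun h => b2 h.2⟩,
      ⟨pt w c, fun h => c1 h.2, ⟨hB, c2⟩⟩, ⟨pt w d, fun h => d1 h.2, fun h => d2 h.2⟩⟩

end Pool.Agent.Helper10.VR
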