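import Pool.Agent.Helper10.VR.Dual

/-!
# Group action on the dual of an invariant system of walls
-/

namespace Pool.Agent.Helper10.VR

open SimpleGraph
open scoped Pointwise

universe u

variable {G : Type u} [Group G]

/-- Walls on the group `G`, invariant under left multiplication. -/
class InvWalls (w : Walls G) : Prop where
  smul_mem : ∀ (g : G) (A : Set G), A ∈ w.W → g • A ∈ w.W

variable {w : Walls G}

theorem smul_mem_iff [InvWalls w] (g : G) (A : Set G) : g • A ∈ w.W ↔ A ∈ w.W := by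
  constructor
  · intro h
    have := InvWalls.smul_mem g⁻¹ _ h
    rwa [inv_smul_smul] at this
  · exact InvWalls.smul_mem g A

theorem isUF_smul [InvWalls w] (g : G) (σ : Dual w) : IsUF w (g • σ.1) where
  sub := by
    intro A hA
    rw [Set.mem_smul_set_iff_inv_smul_mem] at hA
    exact (smul_mem_iff g⁻¹ A).1 (σ.2.sub hA)
  compl := by
    intro A hA
    rw [Set.mem_smul_set_iff_inv_smul_mem, Set.mem_smul_set_iff_inv_smul_mem, Set.smul_set_compl]
    exact σ.2.compl _ ((smul_mem_iff g⁻¹ A).2 hA)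
  inter := by
    intro A hA B hB
    rw [Set.mem_smul_set_iff_inv_smul_mem] at hA hB
    obtain ⟨x, hx1, hx2⟩ := σ.2.inter _ hA _ hB
    rw [Set.mem_smul_set_iff_inv_smul_mem, inv_inv] at hx1 hx2
    exact ⟨g • x, hx1, hx2⟩
  fin := by
    intro o
    have h := (σ.2.fin (g⁻¹ • o)).smul_set (a := g)
    refine h.subset ?_
    rintro A ⟨h1, h2⟩
    rw [Set.mem_smul_set_iff_inv_smul_mem] at h1 ⊢
    refine ⟨h1, fun h3 => h2 ?_⟩
    refine ⟨(smul_mem_iff g⁻¹ A).1 h3.1, ?_⟩
    have h4 := h3.2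
    rw [Set.mem_smul_set_iff_inv_smul_mem, inv_inv, smul_inv_smul] at h4
    exact h4

instance [InvWalls w] : MulAction G (Dual w) where
  smul g σ := ⟨g • σ.1, isUF_smul g σ⟩
  one_smul σ := Dual.ext' (one_smul G σ.1)
  mul_smul g h σ := Dual.ext' (mul_smul g h σ.1)

variable [InvWalls w]

theorem dual_smul_val (g : G) (σ : Dual w) : (g • σ).1 = g • σ.1 := rfl

theorem mem_dual_smul (g : G) (σ : Dual w) (A : Set G) : A ∈ (g • σ).1 ↔ g⁻¹ • A ∈ σ.1 := by
  rw [dual_smul_val, Set.mem_smul_set_iff_inv_smul_mem]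

theorem smul_pt (g o : G) : g • pt w o = pt w (g * o) := by
  apply Dual.ext'
  ext A
  rw [mem_dual_smul, mem_pt, mem_pt, smul_mem_iff, Set.mem_smul_set_iff_inv_smul_mem, inv_inv]
  rfl

theorem dual_diff_smul (g : G) (σ τ : Dual w) : (g • σ).1 \ (g • τ).1 = g • (σ.1 \ τ.1) := by
  rw [dual_smul_val, dual_smul_val, Set.smul_set_sdiff]

theorem dual_adj_smul (g : G) (σ τ : Dual w) (h : (dualGraph w).Adj σ τ) :
    (dualGraph w).Adj (g • σ) (g • τ) := by
  obtain ⟨A, hA⟩ := dual_adj_iff.1 h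
  refine dual_adj_iff.2 ⟨g • A, ?_⟩
  rw [dual_diff_smul, hA, Set.smul_set_singleton]

end Pool.Agent.Helper10.VR
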