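import Pool.Agent.Helper10.VR.Separate

/-!
# Quasiconvex subgroups are virtual retracts
-/

namespace Pool.Agent.Helper10.VR

open SimpleGraph
open scoped Pointwise

universe u v

section

variable {G : Type u} [Group G]

theorem Crosses.smul {A B : Set G} (h : Crosses A B) (g : G) : Crosses (g • A) (g • B) := by
  obtain ⟨⟨a, a1, a2⟩, ⟨b, b1, b2⟩, ⟨c, c1, c2⟩, ⟨d, d1, d2⟩⟩ := h
  refine ⟨⟨g • a, ?_, ?_⟩, ⟨g • b, ?_, ?_⟩, ⟨g • c, ?_, ?_⟩, ⟨g • d, ?_, ?_⟩⟩ <;>
  simpa only [← Set.smul_set_compl, Set.smul_mem_smul_set_iff]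

end

section

variable {G : Type u} [Group G] {V : Type v} {N : Subgroup G} [MulAction N V]
  {X : SimpleGraph V} {f : G → V} [N.Normal] [N.FiniteIndex] (hI : Ind N X f)
  {S : Set G} (hfin : S.Finite) (hS : Subgroup.closure S = ⊤) {δ : ℕ}
  (hδ : Slim (mulCayley S) δ)

/-- pairs of walls of two edges issuing from a common vertex -/
def CornerPair (w : Walls G) (A A' : Set G) : Prop :=
  ∃ σ τ τ' : Dual w, σ.1 \ τ.1 = {A} ∧ σ.1 \ τ'.1 = {A'}

theorem CornerPair.smul {A A' : Set G} (h : CornerPair (indWalls hI) A A') (g : G) :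
    CornerPair (indWalls hI) (g • A) (g • A') := by
  obtain ⟨σ, τ, τ', h1, h2⟩ := h
  refine ⟨g • σ, g • τ, g • τ', ?_, ?_⟩
  · rw [dual_diff_smul, h1, Set.smul_set_singleton]
  · rw [dual_diff_smul, h2, Set.smul_set_singleton]

theorem CornerPair.mem {A A' : Set G} (h : CornerPair (indWalls hI) A A') :
    A ∈ (indWalls hI).W ∧ A' ∈ (indWalls hI).W := by
  obtain ⟨σ, τ, τ', h1, h2⟩ := h
  exact ⟨σ.2.sub (dual_diff_mem h1).1, σ.2.sub (dual_diff_mem h2).1⟩

include hfin hS hδ in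
theorem finite_corners : ∃ P : Set (Set G × Set G), P.Finite ∧
    (∀ p ∈ P, CornerPair (indWalls hI) p.1 p.2) ∧
    ∀ A A', CornerPair (indWalls hI) A A' → ∃ g : G, (g • A, g • A') ∈ P := by
  classical
  have hne : Nonempty G := ⟨1⟩
  obtain ⟨R, hR⟩ := (coarse_pt hI hfin hS hδ).cob
  have hB := dual_ball_finite hI (pt _ 1) R
  have hW : ∀ σ : Dual (indWalls hI), {A | ∃ τ : Dual (indWalls hI), σ.1 \ τ.1 = {A}}.Finite := by
    intro σ
    have h1 : (⋃ τ ∈ {τ : Dual (indWalls hI) | σ.d τ ≤ 1}, {A | σ.1 \ τ.1 = {A}}).Finite := by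
      refine (dual_ball_finite hI σ 1).biUnion (fun τ _ => ?_)
      apply Set.Subsingleton.finite
      intro A hA A' hA'
      have hA1 : σ.1 \ τ.1 = {A} := hA
      have hA2 : σ.1 \ τ.1 = {A'} := hA'
      rw [hA1] at hA2
      exact Set.singleton_injective hA2
    refine h1.subset ?_
    rintro A ⟨τ, hτ⟩
    rw [Set.mem_iUnion₂]
    refine ⟨τ, ?_, hτ⟩
    change σ.d τ ≤ 1
    unfold Dual.d
    rw [hτ, Set.ncard_singleton]
  refine ⟨⋃ σ ∈ {τ : Dual (indWalls hI) | (pt (indWalls hI) 1).d τ ≤ R},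
    {A | ∃ τ : Dual (indWalls hI), σ.1 \ τ.1 = {A}} ×ˢ
    {A | ∃ τ : Dual (indWalls hI), σ.1 \ τ.1 = {A}}, ?_, ?_, ?_⟩
  · exact hB.biUnion (fun σ _ => (hW σ).prod (hW σ))
  · intro p hp
    rw [Set.mem_iUnion₂] at hp
    obtain ⟨σ, -, ⟨τ, h1⟩, ⟨τ', h2⟩⟩ := hp
    exact ⟨σ, τ, τ', h1, h2⟩
  · rintro A A' ⟨σ, τ, τ', h1, h2⟩
    obtain ⟨a, ha⟩ := hR σ
    refine ⟨a⁻¹, ?_⟩
    rw [Set.mem_iUnion₂]
    refine ⟨a⁻¹ • σ, ?_, ⟨a⁻¹ • τ, ?_⟩, ⟨a⁻¹ • τ', ?_⟩⟩
    · change (pt (indWalls hI) 1).d (a⁻¹ • σ) ≤ R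
      have e : pt (indWalls hI) 1 = a⁻¹ • pt _ a := by rw [smul_pt]; simp
      rw [e, d_smul, Dual.d_comm, ← d_eq_dist]
      exact ha
    · rw [dual_diff_smul, h1, Set.smul_set_singleton]
    · rw [dual_diff_smul, h2, Set.smul_set_singleton]

/-- the label of an edge of the dual graph -/
def dlab {w : Walls G} (G₁ : Subgroup G) (σ τ : Dual w) : Set (Set G) :=
  {B | ∃ n ∈ G₁, ∃ A ∈ σ.1 \ τ.1, B = n • A ∨ B = (n • A)ᶜ}

theorem mem_dlab {w : Walls G} {G₁ : Subgroup G} {σ τ : Dual w} {A B : Set G}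
    (h : σ.1 \ τ.1 = {A}) : B ∈ dlab G₁ σ τ ↔ ∃ n ∈ G₁, B = n • A ∨ B = (n • A)ᶜ := by
  unfold dlab
  rw [h]
  simp

include hfin hS hδ in
/-- The dual graph is virtually strongly special. -/
theorem exists_labelled : ∃ G₁ : Subgroup G, G₁.Normal ∧ G₁.FiniteIndex ∧
    Labelled (dualGraph (indWalls hI)) G₁ (dlab G₁) := by
  classical
  have hne : Nonempty G := ⟨1⟩
  have hM := ind_isMedian hI
  obtain ⟨P, hP, hP1, hP2⟩ := finite_corners hI hfin hS hδ
  obtain ⟨R, hR⟩ := (coarse_pt hI hfin hS hδ).cob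
  obtain ⟨C, hC⟩ := (coarse_pt hI hfin hS hδ).proper (2 * R)
  have hΓ := cayley_ball_finite S hfin hS C 1
  have hPfin : Finite P := hP
  have hΓfin : Finite {b | (mulCayley S).dist 1 b ≤ C} := hΓ
  -- conditions for pairs of walls
  obtain ⟨H1, a1, a2, a3⟩ := exists_common (G := G) (ι := P × P)
    (P := fun i H => (∀ n ∈ H, i.1.1.2 = n • i.1.1.1 → i.1.1.2 = i.1.1.1) ∧
      (∀ n ∈ H, i.1.1.2 = n • (i.1.1.1)ᶜ → i.1.1.2 = (i.1.1.1)ᶜ) ∧
      (∀ n ∈ H, ∀ s : G, s • i.2.1.2 = i.1.1.2 → i.1.1.1 = (n * s) • i.2.1.1 →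
        ∃ s' : G, s' • i.2.1.2 = i.1.1.2 ∧ i.1.1.1 = s' • i.2.1.1))
    (by
      rintro i H H' hle ⟨h1, h2, h3⟩
      exact ⟨fun n hn => h1 n (hle hn), fun n hn => h2 n (hle hn), fun n hn => h3 n (hle hn)⟩)
    (by
      rintro ⟨⟨⟨A, A'⟩, hA⟩, ⟨⟨u, u'⟩, hu⟩⟩
      obtain ⟨mA, mA'⟩ := (hP1 _ hA).mem hI
      obtain ⟨mu, mu'⟩ := (hP1 _ hu).mem hI
      simp only at mA mA' mu mu'
      obtain ⟨K1, k1, k2, k3⟩ := sep_one hI hfin hS hδ mA mA'
      obtain ⟨K2, l1, l2, l3⟩ := sep_one hI hfin hS hδ ((indWalls hI).compl A mA) mA'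
      have h3 : ∃ K3 : Subgroup G, K3.Normal ∧ K3.FiniteIndex ∧
          (∀ n ∈ K3, ∀ s : G, s • u' = A' → A = (n * s) • u →
            ∃ s' : G, s' • u' = A' ∧ A = s' • u) := by
        by_cases hex : ∃ γ : G, γ • u' = A'
        · obtain ⟨γ, hγ⟩ := hex
          obtain ⟨K3, m1, m2, m3⟩ := sep_two hI hfin hS hδ (v := γ⁻¹ • A) mu
            ((smul_mem_iff _ _).2 mA) mu'
          refine ⟨K3, m1, m2, ?_⟩
          intro n hn s hs hAs
          have hs0 : (γ⁻¹ * s) • u' = u' := by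
            rw [mul_smul, hs, ← hγ, inv_smul_smul]
          have hn' : γ⁻¹ * n * γ ∈ K3 := by
            have := m1.conj_mem n hn γ⁻¹
            simpa using this
          obtain ⟨s', q1, q2⟩ := m3 _ hn' (γ⁻¹ * s) hs0 (by
            rw [hAs, smul_smul]; congr 1; group)
          refine ⟨γ * s', ?_, ?_⟩
          · rw [mul_smul, q1, hγ]
          · rw [mul_smul, ← q2, smul_inv_smul]
        · refine ⟨⊤, inferInstance, inferInstance, ?_⟩
          intro n _ s hs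
          exact absurd ⟨s, hs⟩ hex
      obtain ⟨K3, m1, m2, m3⟩ := h3
      refine ⟨K1 ⊓ K2 ⊓ K3, inferInstance, inferInstance, ?_, ?_, ?_⟩
      · intro n hn; exact k3 n hn.1.1
      · intro n hn; exact l3 n hn.1.2
      · intro n hn; exact m3 n hn.2)
  obtain ⟨H2, b1, b2, b3⟩ := exists_common (G := G) (ι := {b | (mulCayley S).dist 1 b ≤ C})
    (P := fun i H => (i : G) ∈ H → (i : G) = 1)
    (by intro i H H' hle h hi; exact h (hle hi))
    (by
      rintro ⟨b, hb⟩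
      by_cases hb1 : b = 1
      · exact ⟨⊤, inferInstance, inferInstance, fun _ => hb1⟩
      · obtain ⟨K, k1, k2, k3⟩ := sep_zero hI hfin hS hδ hb1
        exact ⟨K, k1, k2, fun h => absurd h k3⟩)
  refine ⟨H1 ⊓ H2, inferInstance, inferInstance, ?_⟩
  have hnorm : (H1 ⊓ H2).Normal := inferInstance
  -- the combinatorial properties of `H1 ⊓ H2`
  have hsep : ∀ A A', CornerPair (indWalls hI) A A' → ∀ n ∈ H1 ⊓ H2,
      (A' = n • A → A' = A) ∧ (A' = (n • A)ᶜ → A' = Aᶜ) := by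
    intro A A' hAA n hn
    obtain ⟨g, hg⟩ := hP2 A A' hAA
    have hgn : g * n * g⁻¹ ∈ H1 := (hnorm.conj_mem n hn g).1
    obtain ⟨c1, c2, -⟩ := a3 (⟨_, hg⟩, ⟨_, hg⟩)
    constructor
    · intro h
      have := c1 _ hgn (by
        change g • A' = (g * n * g⁻¹) • g • A
        rw [h, smul_smul, smul_smul]; congr 1; group)
      exact smul_left_cancel g this
    · intro h
      have h' := c2 _ hgn (by
        change g • A' = (g * n * g⁻¹) • (g • A)ᶜ
        rw [h, ← Set.smul_set_compl, ← Set.smul_set_compl, smul_smul, smul_smul]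
        congr 1; group)
      change g • A' = (g • A)ᶜ at h'
      rw [← Set.smul_set_compl] at h'
      exact smul_left_cancel g h'
  have hcross : ∀ A A' u u', CornerPair (indWalls hI) A A' → CornerPair (indWalls hI) u u' →
      ∀ n ∈ H1 ⊓ H2, ∀ n' ∈ H1 ⊓ H2, A = n • u → A' = n' • u' → Crosses u u' → Crosses A A' := by
    intro A A' u u' hAA huu n hn n' hn' hA hA' hc
    obtain ⟨g1, hg1⟩ := hP2 A A' hAA
    obtain ⟨g2, hg2⟩ := hP2 u u' huu
    obtain ⟨-, -, c3⟩ := a3 (⟨_, hg1⟩, ⟨_, hg2⟩)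
    have hm : g1 * (n * n'⁻¹) * g1⁻¹ ∈ H1 :=
      (hnorm.conj_mem _ ((H1 ⊓ H2).mul_mem hn ((H1 ⊓ H2).inv_mem hn')) g1).1
    obtain ⟨s', s1, s2⟩ := c3 _ hm (g1 * n' * g2⁻¹) (by
        change (g1 * n' * g2⁻¹) • g2 • u' = g1 • A'
        rw [hA', smul_smul, smul_smul]; congr 1; group)
      (by
        change g1 • A = _ • g2 • u
        rw [hA, smul_smul, smul_smul]; congr 1; group)
    change s' • g2 • u' = g1 • A' at s1
    change g1 • A = s' • g2 • u at s2
    have h1 : Crosses (g1 • A) (g1 • A') := by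
      rw [s2, ← s1]
      exact (hc.smul g2).smul s'
    have h2 := h1.smul g1⁻¹
    rwa [inv_smul_smul, inv_smul_smul] at h2
  have hwall : ∀ {x y z t : Dual (indWalls hI)} {A B : Set G}, x.1 \ y.1 = {A} → z.1 \ t.1 = {B} →
      hs (dualGraph (indWalls hI)) x y = hs (dualGraph (indWalls hI)) z t → A = B := by
    intro x y z t A B h1 h2 h
    rw [dual_hs h1, dual_hs h2] at h
    exact halfspace_injective (x.2.sub (dual_diff_mem h1).1) (z.2.sub (dual_diff_mem h2).1) h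
  refine
    { adj := fun g x y h => dual_adj_smul g x y h
      symm := ?_
      par := ?_
      inv := ?_
      map := ?_
      free := ?_
      inj := ?_
      corner := ?_ }
  · -- symm
    intro x y hxy
    obtain ⟨A, hA⟩ := dual_adj_iff.1 hxy
    ext B
    rw [mem_dlab hA, mem_dlab (dual_diff_comm hA)]
    constructor
    · rintro ⟨n, hn, rfl | rfl⟩
      · exact ⟨n, hn, Or.inr (by rw [Set.smul_set_compl, compl_compl])⟩
      · exact ⟨n, hn, Or.inl (by rw [Set.smul_set_compl])⟩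
    · rintro ⟨n, hn, rfl | rfl⟩
      · exact ⟨n, hn, Or.inr (by rw [Set.smul_set_compl])⟩
      · exact ⟨n, hn, Or.inl (by rw [Set.smul_set_compl, compl_compl])⟩
  · -- par
    intro x y z t h1 h2 h3 h4 h5 h6
    obtain ⟨A, hA⟩ := dual_adj_iff.1 h1
    obtain ⟨A', hA'⟩ := dual_adj_iff.1 h3.symm
    have : A = A' := hwall hA hA' (hM.square_hs h1 h2 h3 h4 h5 h6)
    subst this
    ext B
    rw [mem_dlab hA, mem_dlab hA']
  · -- inv
    intro m hm x y hxy
    obtain ⟨A, hA⟩ := dual_adj_iff.1 hxy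
    have hA' : (m • x).1 \ (m • y).1 = {m • A} := by
      rw [dual_diff_smul, hA, Set.smul_set_singleton]
    ext B
    rw [mem_dlab hA, mem_dlab hA']
    constructor
    · rintro ⟨n, hn, hB⟩
      exact ⟨n * m, (H1 ⊓ H2).mul_mem hn hm, by rwa [mul_smul]⟩
    · rintro ⟨n, hn, hB⟩
      exact ⟨n * m⁻¹, (H1 ⊓ H2).mul_mem hn ((H1 ⊓ H2).inv_mem hm),
        by rwa [mul_smul, inv_smul_smul]⟩
  · -- map
    intro g x y x' y' hxy hxy' h
    have key : ∀ x y : Dual (indWalls hI), (dualGraph (indWalls hI)).Adj x y → ∀ B,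
        B ∈ dlab (H1 ⊓ H2) (g • x) (g • y) ↔ g⁻¹ • B ∈ dlab (H1 ⊓ H2) x y := by
      intro x y hxy B
      obtain ⟨A, hA⟩ := dual_adj_iff.1 hxy
      have hA' : (g • x).1 \ (g • y).1 = {g • A} := by
        rw [dual_diff_smul, hA, Set.smul_set_singleton]
      rw [mem_dlab hA, mem_dlab hA']
      constructor
      · rintro ⟨n, hn, hB⟩
        refine ⟨g⁻¹ * n * g, by simpa using hnorm.conj_mem n hn g⁻¹, ?_⟩
        rcases hB with rfl | rfl
        · left; rw [smul_smul, smul_smul]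
        · right; rw [Set.smul_set_compl, smul_smul, smul_smul]
      · rintro ⟨n, hn, hB⟩
        refine ⟨g * n * g⁻¹, hnorm.conj_mem n hn g, ?_⟩
        rcases hB with hB | hB
        · left
          rw [inv_smul_eq_iff] at hB
          rw [hB, smul_smul, smul_smul]; congr 1; group
        · right
          rw [inv_smul_eq_iff] at hB
          rw [hB, Set.smul_set_compl, smul_smul, smul_smul]; congr 2; group
    ext B
    rw [key x y hxy, key x' y' hxy', h]
  · -- free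
    intro n hn x hx
    obtain ⟨a, ha⟩ := hR x
    have hx' : (a⁻¹ * n * a) • (a⁻¹ • x) = a⁻¹ • x := by
      rw [smul_smul, mul_assoc, mul_assoc, mul_inv_cancel, mul_one, mul_smul, hx]
    have hd : (a⁻¹ • x).d (pt (indWalls hI) 1) ≤ R := by
      have e : pt (indWalls hI) 1 = a⁻¹ • pt _ a := by rw [smul_pt]; simp
      rw [e, d_smul, ← d_eq_dist]; exact ha
    set m := a⁻¹ * n * a with hm
    have hmem : m ∈ H1 ⊓ H2 := by
      have := hnorm.conj_mem n hn a⁻¹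
      simpa using this
    have hd2 : (pt (indWalls hI) 1).d (pt (indWalls hI) m) ≤ 2 * R := by
      have h1 := Dual.d_triangle (pt (indWalls hI) 1) (a⁻¹ • x) (pt (indWalls hI) m)
      have h2 : (a⁻¹ • x).d (pt (indWalls hI) m) = (a⁻¹ • x).d (pt (indWalls hI) 1) := by
        have e : pt (indWalls hI) m = m • pt (indWalls hI) 1 := by rw [smul_pt, mul_one]
        rw [e]
        conv_lhs => rw [← hx']
        rw [d_smul]
      have h3 := Dual.d_comm (pt (indWalls hI) 1) (a⁻¹ • x)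
      omega
    have hmC : (mulCayley S).dist 1 m ≤ C := by
      apply hC
      rw [d_eq_dist]
      exact hd2
    have h1 := b3 ⟨m, hmC⟩ hmem.2
    have h1' : m = 1 := h1
    rw [hm] at h1'
    have : n = a * (a⁻¹ * n * a) * a⁻¹ := by group
    rw [this, h1']; group
  · -- inj
    intro x y z hxy hxz h
    obtain ⟨A, hA⟩ := dual_adj_iff.1 hxy
    obtain ⟨A', hA'⟩ := dual_adj_iff.1 hxz
    have hmem : A' ∈ dlab (H1 ⊓ H2) x y := by
      rw [h, mem_dlab hA']
      exact ⟨1, Subgroup.one_mem _, Or.inl (by rw [one_smul])⟩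
    rw [mem_dlab hA] at hmem
    obtain ⟨n, hn, hnA⟩ := hmem
    obtain ⟨c1, c2⟩ := hsep A A' ⟨x, y, z, hA, hA'⟩ n hn
    have hAA : A' = A := by
      rcases hnA with hnA | hnA
      · exact c1 hnA
      · exfalso
        have h1 := c2 hnA
        have h2 := (dual_diff_mem hA).1
        have h3 := (dual_diff_mem hA').1
        rw [h1] at h3
        obtain ⟨p, hp1, hp2⟩ := x.2.inter _ h2 _ h3
        exact hp2 hp1
    by_contra hyz
    refine hM.hs_ne_of_ne hxy hxz hyz ?_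
    rw [dual_hs hA, dual_hs hA', hAA]
  · -- corner
    intro x y z t h1 h2 h3 h4 h5 h6 v v1 v2 g1 g2 e1 e2
    obtain ⟨u, hu⟩ := dual_adj_iff.1 h1
    obtain ⟨u', hu'⟩ := dual_adj_iff.1 h4.symm
    obtain ⟨u2, hu2⟩ := dual_adj_iff.1 h3.symm
    obtain ⟨u3, hu3⟩ := dual_adj_iff.1 h2
    have eu2 : u = u2 := hwall hu hu2 (hM.square_hs h1 h2 h3 h4 h5 h6)
    have eu3 : u' = u3 := hwall hu' hu3
      (hM.square_hs h4.symm h3.symm h2.symm h1.symm h5 h6.symm)
    subst eu2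
    subst eu3
    obtain ⟨A, hA⟩ := dual_adj_iff.1 g1
    obtain ⟨A', hA'⟩ := dual_adj_iff.1 g2
    have muW : u ∈ (indWalls hI).W := x.2.sub (dual_diff_mem hu).1
    have mu'W : u' ∈ (indWalls hI).W := x.2.sub (dual_diff_mem hu').1
    have huc : Crosses u u' := by
      have := hM.square_crosses h1 h2 h3 h4 h5 h6
      rw [dual_hs hu, dual_hs hu'] at this
      exact (dual_crosses muW mu'W).1 this
    have m1 : A ∈ dlab (H1 ⊓ H2) x y := by
      rw [← e1, mem_dlab hA]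
      exact ⟨1, Subgroup.one_mem _, Or.inl (by rw [one_smul])⟩
    have m2 : A' ∈ dlab (H1 ⊓ H2) x t := by
      rw [← e2, mem_dlab hA']
      exact ⟨1, Subgroup.one_mem _, Or.inl (by rw [one_smul])⟩
    rw [mem_dlab hu] at m1
    rw [mem_dlab hu'] at m2
    obtain ⟨n, hn, hnA⟩ := m1
    obtain ⟨n', hn', hnA'⟩ := m2
    have cAA : CornerPair (indWalls hI) A A' := ⟨v, v1, v2, hA, hA'⟩
    have cr : Crosses A A' := by
      rcases hnA with hnA | hnA <;> rcases hnA' with hnA' | hnA'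
      · exact hcross A A' u u' cAA ⟨x, y, t, hu, hu'⟩ n hn n' hn' hnA hnA' huc
      · rw [← Set.smul_set_compl] at hnA'
        exact hcross A A' u u'ᶜ cAA ⟨t, z, x, hu2, dual_diff_comm hu'⟩ n hn n' hn' hnA hnA'
          huc.compl_right
      · rw [← Set.smul_set_compl] at hnA
        exact hcross A A' uᶜ u' cAA ⟨y, x, z, dual_diff_comm hu, hu3⟩ n hn n' hn' hnA hnA'
          huc.compl_left
      · rw [← Set.smul_set_compl] at hnA hnA'
        exact hcross A A' uᶜ u'ᶜ cAA ⟨z, t, y, dual_diff_comm hu2, dual_diff_comm hu3⟩ n hn n' hn'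
          hnA hnA' huc.compl_left.compl_right
    have hvne : v1 ≠ v2 := by
      rintro rfl
      rw [hA] at hA'
      have : A = A' := Set.singleton_injective hA'
      subst this
      exact not_crosses_self _ cr
    obtain ⟨p, hp1, hp2⟩ := cr.2.2.2
    obtain ⟨s, s1, s2, s3⟩ := hM.corner_square g1 g2 hvne ⟨pt _ p, by
      rw [dual_hs hA]; exact fun h => hp1 h.2, by rw [dual_hs hA']; exact fun h => hp2 h.2⟩
    exact ⟨s, s3, s1, s2⟩

include hI hfin hS hδ in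
/-- Quasiconvex subgroups are virtual retracts, for groups with a finite index normal subgroup
acting strongly specially and cofinitely. -/
theorem retract_of_ind (H : Subgroup G) (hH : QConv (mulCayley S) (H : Set G)) :
    ∃ K : Subgroup G, K.FiniteIndex ∧ ∃ hHK : H ≤ K,
      ∃ ρ : K →* H, ∀ h : H, ρ ⟨h, hHK h.2⟩ = h := by
  classical
  have hne : Nonempty G := ⟨1⟩
  have hM := ind_isMedian hI
  have hc := cayley_connected S hS
  have hf := coarse_pt hI hfin hS hδ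
  obtain ⟨G₁, i1, i2, hL⟩ := exists_labelled hI hfin hS hδ
  let T : Set (Dual (indWalls hI)) := {σ | ∃ h ∈ H, σ = pt _ h}
  have hT : QConv (dualGraph (indWalls hI)) T := by
    refine qconv_transfer hδ hc hM hf hH (κ := 0) ?_ ?_
    · rintro s ⟨h, hh, rfl⟩
      exact ⟨h, hh, by simp⟩
    · intro b hb
      exact ⟨pt _ b, ⟨b, hb, rfl⟩, by simp⟩
  obtain ⟨κ, hκ⟩ := hT
  obtain ⟨D, hD⟩ := dual_degBd hI hfin hS hδ
  have hTne : T.Nonempty := ⟨pt _ 1, 1, H.one_mem, rfl⟩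
  have hTinv : ∀ b ∈ H, ∀ t ∈ T, b • t ∈ T := by
    rintro b hb t ⟨h, hh, rfl⟩
    exact ⟨b * h, H.mul_mem hb hh, smul_pt b h⟩
  have hYinv : ∀ b ∈ H, ∀ y ∈ hull (dualGraph (indWalls hI)) T,
      b • y ∈ hull (dualGraph (indWalls hI)) T := by
    intro b hb y hy h hh hTh
    obtain ⟨A, hA, rfl⟩ := dual_isHS_iff.1 hh
    change A ∈ (b • y).1
    rw [mem_dual_smul]
    have h1 : y ∈ {ρ : Dual (indWalls hI) | b⁻¹ • A ∈ ρ.1} := by
      apply hy _ (dual_isHS_iff.2 ⟨b⁻¹ • A, (smul_mem_iff _ _).2 hA, rfl⟩)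
      intro t ht
      have h2 : A ∈ (b • t).1 := hTh (hTinv b hb t ht)
      rw [mem_dual_smul] at h2
      exact h2
    exact h1
  obtain ⟨K, hK, hHK, hρ, -, -⟩ := completion (G := G) hM hL (hM.hull_conv T) hYinv
    (y0 := pt _ 1) (subset_hull _ _ ⟨1, H.one_mem, rfl⟩)
    (F := {τ : Dual (indWalls hI) | (pt (indWalls hI) 1).d τ ≤ κ * D})
    (dual_ball_finite hI _ _)
    (by
      intro y hy
      obtain ⟨s, ⟨h, hh, rfl⟩, hd⟩ := hull_close hM hD hTne hκ hy
      refine ⟨h⁻¹, H.inv_mem hh, ?_⟩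
      change (pt (indWalls hI) 1).d (h⁻¹ • y) ≤ κ * D
      have e : pt (indWalls hI) 1 = h⁻¹ • pt _ h := by rw [smul_pt]; simp
      rw [e, d_smul, Dual.d_comm, ← d_eq_dist]
      exact hd)
  exact ⟨K, hK, hHK, hρ⟩

end

end Pool.Agent.Helper10.VR
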