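import Pool.Agent.Helper10.VR.Induced

/-!
# Coarse geometry of the induced walls
-/

namespace Pool.Agent.Helper10.VR

open SimpleGraph
open scoped Pointwise

universe u v

section cayley

variable {G : Type u} [Group G] (S : Set G)

theorem cayley_adj_mul (g : G) (x y : G) (h : (mulCayley S).Adj x y) :
    (mulCayley S).Adj (g • x) (g • y) := by
  simpa using h

theorem cayley_connected (hS : Subgroup.closure S = ⊤) : (mulCayley S).Connected := by
  have key : ∀ g : G, (mulCayley S).Reachable 1 g := by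
    intro g
    have hg : g ∈ Subgroup.closure S := by rw [hS]; trivial
    induction hg using Subgroup.closure_induction_right with
    | one => exact Reachable.refl _
    | mul_right x _ y hy ih =>
      refine ih.trans ?_
      by_cases hxy : x = x * y
      · rw [← hxy]
      · refine Adj.reachable ?_
        rw [mulCayley_adj]
        exact ⟨hxy, Or.inl (by simpa using hy)⟩
    | mul_inv_cancel x _ y hy ih =>
      refine ih.trans ?_
      by_cases hxy : x = x * y⁻¹
      · rw [← hxy]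
      · refine Adj.reachable ?_
        rw [mulCayley_adj]
        exact ⟨hxy, Or.inr (by simpa using hy)⟩
  refine ⟨fun x y => (key x).symm.trans (key y)⟩

theorem cayley_dist (hS : Subgroup.closure S = ⊤) (g a b : G) :
    (mulCayley S).dist (g * a) (g * b) = (mulCayley S).dist a b :=
  dist_smul (G := G) (cayley_connected S hS) (cayley_adj_mul S) g a b

theorem cayley_ball_finite (hfin : S.Finite) (hS : Subgroup.closure S = ⊤) (R : ℕ) (a : G) :
    {b | (mulCayley S).dist a b ≤ R}.Finite := by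
  refine finite_ball (cayley_connected S hS) (fun x => ?_) R a
  have : ((fun s => x * s) '' (S ∪ S⁻¹)).Finite := (hfin.union hfin.inv).image _
  refine this.subset ?_
  intro y hy
  have hy' : (mulCayley S).Adj x y := hy
  rw [mulCayley_adj] at hy'
  refine ⟨x⁻¹ * y, ?_, by simp⟩
  rcases hy'.2 with h | h
  · left; exact h
  · right; rw [Set.mem_inv]; simpa using h

end cayley

theorem lip_of_step {U : Type u} {V : Type v} {Z : SimpleGraph U} {X : SimpleGraph V}
    (hc : Z.Connected) (hX : X.Connected) {f : U → V} {L : ℕ}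
    (h : ∀ a b, Z.Adj a b → X.dist (f a) (f b) ≤ L) (a b : U) :
    X.dist (f a) (f b) ≤ L * Z.dist a b := by
  obtain ⟨w, hw⟩ := hc.exists_walk_length_eq_dist a b
  rw [← hw]
  clear hw
  induction w with
  | nil => simp
  | @cons x y z hxy p ih =>
    have h1 := h x y hxy
    have h2 := hX.dist_triangle (u := f x) (v := f y) (w := f z)
    rw [Walk.length_cons, mul_add]
    omega

section

variable {G : Type u} [Group G] {V : Type v} {N : Subgroup G} [MulAction N V]
  {X : SimpleGraph V} {f : G → V} [N.Normal] [N.FiniteIndex] (hI : Ind N X f)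

omit [N.FiniteIndex] in
theorem out_mul_mem (a : G) : a * ((a : G ⧸ N).out)⁻¹ ∈ N := by
  have h1 : ((a : G ⧸ N).out)⁻¹ * a ∈ N := QuotientGroup.eq.1 (QuotientGroup.out_eq' (a : G ⧸ N))
  have := Subgroup.Normal.conj_mem (inferInstance : N.Normal) _ h1 ((a : G ⧸ N).out)
  simpa [mul_assoc] using this

include hI in
omit [N.FiniteIndex] in
theorem f_eq (a c : G) : f (a * c) =
    (⟨a * ((a : G ⧸ N).out)⁻¹, out_mul_mem a⟩ : N) • f ((a : G ⧸ N).out * c) := by
  rw [← hI.equi]
  congr 1
  simp [mul_assoc]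

include hI in
omit [N.Normal] [N.FiniteIndex] in
theorem dist_f (n : N) (x y : V) : X.dist (n • x) (n • y) = X.dist x y :=
  dist_smul hI.strong.median.conn hI.strong.adj n x y

include hI in
/-- fibers of `f` are finite -/
theorem f_fiber_finite {B : Set V} (hB : B.Finite) : {g | f g ∈ B}.Finite := by
  have hfin : Finite (G ⧸ N) := inferInstance
  have : (⋃ v ∈ B, ⋃ i : G ⧸ N, {g : G | (g : G ⧸ N) = i ∧ f g = v}).Finite := by
    refine hB.biUnion (fun v _ => Set.finite_iUnion (fun i => ?_))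
    apply Set.Subsingleton.finite
    rintro g ⟨rfl, hg⟩ g' ⟨hg', hg''⟩
    set t := (g : G ⧸ N).out with ht
    have h1 : g * t⁻¹ ∈ N := out_mul_mem g
    have h2 : g' * t⁻¹ ∈ N := by
      have := out_mul_mem (N := N) g'
      rwa [hg'] at this
    have e1 : v = (⟨_, h1⟩ : N) • f t := by rw [← hI.equi, ← hg]; simp
    have e2 : v = (⟨_, h2⟩ : N) • f t := by rw [← hI.equi, ← hg'']; simp
    have e3 : ((⟨_, h2⟩ : N)⁻¹ * ⟨_, h1⟩) • f t = f t := by
      rw [mul_smul, ← e1, inv_smul_eq_iff]
      exact e2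
    have e4 := hI.strong.free _ _ e3
    rw [inv_mul_eq_one] at e4
    have e6 := congrArg Subtype.val e4
    exact (mul_right_cancel e6).symm
  refine this.subset ?_
  intro g hg
  simp only [Set.mem_iUnion]
  exact ⟨f g, hg, (g : G ⧸ N), rfl, rfl⟩

include hI in
theorem coarse_f {S : Set G} (hfin : S.Finite) (hS : Subgroup.closure S = ⊤) :
    Coarse (mulCayley S) X f := by
  classical
  have hX := hI.strong.median
  have hc := cayley_connected S hS
  have hfinQ : Finite (G ⧸ N) := inferInstance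
  constructor
  · -- Lipschitz
    have hfin1 : (⋃ i : G ⧸ N, (fun s => X.dist (f (i.out * 1)) (f (i.out * s))) ''
        (S ∪ S⁻¹)).Finite :=
      Set.finite_iUnion (fun i => (hfin.union hfin.inv).image _)
    obtain ⟨L, hL⟩ := hfin1.bddAbove
    refine ⟨L, lip_of_step hc hX.conn ?_⟩
    intro a b hab
    rw [mulCayley_adj] at hab
    have e1 := f_eq hI a 1
    have e2 := f_eq hI a (a⁻¹ * b)
    rw [mul_one] at e1
    rw [mul_inv_cancel_left] at e2
    rw [e1, e2, dist_f hI]
    apply hL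
    rw [Set.mem_iUnion]
    refine ⟨(a : G ⧸ N), a⁻¹ * b, ?_, rfl⟩
    rcases hab.2 with h | h
    · left; exact h
    · right; rw [Set.mem_inv]; simpa using h
  · -- proper
    intro R
    have hfin1 : (⋃ i : G ⧸ N, (fun g => (mulCayley S).dist i.out g) ''
        {g | f g ∈ {y | X.dist (f i.out) y ≤ R}}).Finite :=
      Set.finite_iUnion (fun i =>
        (f_fiber_finite hI (finite_ball hX.conn hI.lf R (f i.out))).image _)
    obtain ⟨C, hC⟩ := hfin1.bddAbove
    refine ⟨C, fun a b hab => ?_⟩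
    set n : N := ⟨a * ((a : G ⧸ N).out)⁻¹, out_mul_mem a⟩ with hn
    have hn' : (n : G) * (a : G ⧸ N).out = a := by simp [hn]
    have e1 : (mulCayley S).dist a b = (mulCayley S).dist (a : G ⧸ N).out ((n : G)⁻¹ * b) := by
      rw [← cayley_dist S hS (n : G)⁻¹ a b]
      congr 1
      rw [← hn']; simp [hn]
    rw [e1]
    apply hC
    rw [Set.mem_iUnion]
    refine ⟨(a : G ⧸ N), (n : G)⁻¹ * b, ?_, rfl⟩
    change X.dist (f (a : G ⧸ N).out) (f ((n : G)⁻¹ * b)) ≤ R
    have e2 : f ((n : G)⁻¹ * b) = n⁻¹ • f b := by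
      rw [← hI.equi]; rfl
    have e3 : f (a : G ⧸ N).out = n⁻¹ • f a := by
      rw [← hI.equi]
      congr 1
      rw [← hn']
      simp [hn]
    rw [e2, e3, dist_f hI]
    exact hab
  · -- cobounded
    obtain ⟨F, hF, hFV⟩ := hI.cof
    obtain ⟨R, hR⟩ := (hF.image (fun x => X.dist x (f 1))).bddAbove
    refine ⟨R, fun x => ?_⟩
    obtain ⟨n, hn⟩ := hFV x
    refine ⟨(n⁻¹ : N) * 1, ?_⟩
    rw [hI.equi]
    have := dist_f hI n x (n⁻¹ • f 1)
    rw [smul_inv_smul] at this
    rw [← this]
    exact hR ⟨n • x, hn, rfl⟩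

/-- precomposition with a translation -/
theorem Coarse.translate {S : Set G} (hS : Subgroup.closure S = ⊤)
    (hf : Coarse (mulCayley S) X f) (q : G) :
    Coarse (mulCayley S) X (fun g => f (q⁻¹ * g)) := by
  obtain ⟨L, hL⟩ := hf.lip
  constructor
  · refine ⟨L, fun a b => ?_⟩
    have := hL (q⁻¹ * a) (q⁻¹ * b)
    rwa [cayley_dist S hS] at this
  · intro R
    obtain ⟨C, hC⟩ := hf.proper R
    refine ⟨C, fun a b hab => ?_⟩
    have := hC _ _ hab
    rwa [cayley_dist S hS] at this
  · obtain ⟨R, hR⟩ := hf.cob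
    refine ⟨R, fun x => ?_⟩
    obtain ⟨a, ha⟩ := hR x
    exact ⟨q * a, by simpa using ha⟩

include hI in
omit [N.Normal] [N.FiniteIndex] in
theorem exists_degBd : ∃ D, DegBd X D := by
  classical
  obtain ⟨F, hF, hFV⟩ := hI.cof
  obtain ⟨D, hD⟩ := (hF.image (fun x => {y | X.Adj x y}.ncard)).bddAbove
  refine ⟨D, fun x => ⟨hI.lf x, ?_⟩⟩
  obtain ⟨n, hn⟩ := hFV x
  have h1 : {y | X.Adj (n • x) y}.ncard ≤ D := hD ⟨n • x, hn, rfl⟩
  refine le_trans ?_ h1
  refine Set.ncard_le_ncard_of_injOn (fun y => n • y) ?_ ?_ (hI.lf _)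
  · intro y hy; exact hI.strong.adj n x y hy
  · intro y _ y' _ h; exact smul_left_cancel n h

theorem d_eq_dist (σ τ : Dual (indWalls hI)) : (dualGraph (indWalls hI)).dist σ τ = σ.d τ := by
  have : Nonempty G := ⟨1⟩
  exact dualGraph_connected.2 σ τ

theorem ind_isMedian : IsMedian (dualGraph (indWalls hI)) := by
  have : Nonempty G := ⟨1⟩
  exact dualGraph_isMedian

theorem d_smul (g : G) (σ τ : Dual (indWalls hI)) : (g • σ).d (g • τ) = σ.d τ := by
  rw [← d_eq_dist, ← d_eq_dist]
  exact dist_smul (ind_isMedian hI).conn (fun g x y h => dual_adj_smul g x y h) g σ τ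

theorem coarse_pt {S : Set G} (hfin : S.Finite) (hS : Subgroup.closure S = ⊤) {δ : ℕ}
    (hδ : Slim (mulCayley S) δ) :
    Coarse (mulCayley S) (dualGraph (indWalls hI)) (pt (indWalls hI)) := by
  classical
  have := Fintype.ofFinite (G ⧸ N)
  have hX := hI.strong.median
  have hc := cayley_connected S hS
  have hf := coarse_f hI hfin hS
  have hfq := fun q => hf.translate hS q
  choose L hL using fun q => (hfq q).lip
  constructor
  · refine ⟨∑ i : G ⧸ N, L i.out, fun a b => ?_⟩
    rw [d_eq_dist, Finset.sum_mul]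
    refine (d_le_sum hI _ _).trans (Finset.sum_le_sum (fun i _ => ?_))
    rw [coord_pt, coord_pt]
    exact hL i.out a b
  · intro R
    obtain ⟨m, hm⟩ := dist_coord_le hI 1
    obtain ⟨C, hC⟩ := (hfq 1).proper (m * R)
    refine ⟨C, fun a b hab => ?_⟩
    rw [d_eq_dist] at hab
    apply hC
    have h1 := hm (pt _ a) (pt _ b)
    rw [coord_pt, coord_pt] at h1
    exact h1.trans (Nat.mul_le_mul_left _ hab)
  · obtain ⟨D, hD⟩ := exists_degBd hI
    have hne : Nonempty (G ⧸ N) := ⟨((1 : G) : G ⧸ N)⟩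
    obtain ⟨R, hR⟩ := consistent_close (I := G ⧸ N) hδ hc hX hD
      (F := fun i g => f (i.out⁻¹ * g)) (fun i => hfq i.out)
    refine ⟨∑ i : G ⧸ N, R, fun σ => ?_⟩
    obtain ⟨a, ha⟩ := hR _ (coord_consistent hI σ)
    refine ⟨a, ?_⟩
    rw [d_eq_dist]
    refine (d_le_sum hI _ _).trans (Finset.sum_le_sum (fun i _ => ?_))
    rw [coord_pt]
    exact ha i

theorem dual_ball_finite (σ : Dual (indWalls hI)) (R : ℕ) :
    {τ : Dual (indWalls hI) | σ.d τ ≤ R}.Finite := by
  classical
  have hX := hI.strong.median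
  choose m hm using fun q => dist_coord_le hI q
  have hfinQ : Finite (G ⧸ N) := inferInstance
  let φ : Dual (indWalls hI) → (G ⧸ N → V) := fun τ i => coord hI τ i.out
  have h1 : (Set.pi Set.univ (fun i : G ⧸ N => {y | X.dist (coord hI σ i.out) y ≤
      m i.out * R})).Finite :=
    Set.Finite.pi' (fun i => finite_ball hX.conn hI.lf _ _) |>.subset (by
      intro y hy i
      exact hy i trivial)
  refine Set.Finite.of_finite_image (f := φ) (h1.subset ?_) ?_
  · rintro y ⟨τ, hτ, rfl⟩ i _
    exact (hm i.out σ τ).trans (Nat.mul_le_mul_left _ hτ)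
  · intro τ _ τ' _ h
    exact coord_injective hI (fun i => congrFun h i)

theorem dual_degBd {S : Set G} (hfin : S.Finite) (hS : Subgroup.closure S = ⊤) {δ : ℕ}
    (hδ : Slim (mulCayley S) δ) : ∃ D, DegBd (dualGraph (indWalls hI)) D := by
  classical
  obtain ⟨R, hR⟩ := (coarse_pt hI hfin hS hδ).cob
  have hB := dual_ball_finite hI (pt _ 1) (R + 1)
  refine ⟨{τ : Dual (indWalls hI) | (pt _ 1).d τ ≤ R + 1}.ncard, fun σ => ⟨?_, ?_⟩⟩
  · refine (dual_ball_finite hI σ 1).subset ?_
    intro τ hτ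
    exact le_of_eq hτ
  · obtain ⟨a, ha⟩ := hR σ
    refine Set.ncard_le_ncard_of_injOn (fun τ => a⁻¹ • τ) ?_ ?_ hB
    · intro τ hτ
      have hτ' : σ.d τ = 1 := hτ
      change (pt _ 1).d (a⁻¹ • τ) ≤ R + 1
      have e : pt (indWalls hI) 1 = a⁻¹ • pt _ a := by rw [smul_pt]; simp
      have hne : Nonempty G := ⟨1⟩
      rw [e, d_smul]
      have h1 := Dual.d_triangle (pt (indWalls hI) a) σ τ
      rw [d_eq_dist, Dual.d_comm] at ha
      omega
    · intro y _ y' _ h; exact smul_left_cancel a⁻¹ h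

end

end Pool.Agent.Helper10.VR
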