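import Pool.Agent.Helper10.VR.Median

/-!
# Hyperbolic graphs and the stability of quasi-geodesics
-/

namespace Pool.Agent.Helper10.VR

open SimpleGraph

universe u

variable {U : Type u} {Z : SimpleGraph U}

/-- slim triangles, formulated with intervals -/
def Slim (Z : SimpleGraph U) (δ : ℕ) : Prop :=
  ∀ x y z p : U, Btw Z x p y → ∃ q, (Btw Z x q z ∨ Btw Z z q y) ∧ Z.dist p q ≤ δ

/-- Gromov's four point condition -/
def FourPoint (Z : SimpleGraph U) (δ : ℕ) : Prop :=
  ∀ x y z w : U, Z.dist x y + Z.dist z w ≤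
    max (Z.dist x z + Z.dist y w) (Z.dist x w + Z.dist y z) + 2 * δ

theorem slim_of_fourPoint (hc : Z.Connected) {δ : ℕ} (h : FourPoint Z δ) : Slim Z (4 * δ) := by
  -- auxiliary : if `p` is nearly between `y` and `z` then it is close to a point between
  have aux : ∀ y z p : U, Z.dist y p + Z.dist p z ≤ Z.dist y z + 2 * δ →
      ∃ q, Btw Z y q z ∧ Z.dist p q ≤ 4 * δ := by
    intro y z p hp
    by_cases hle : Z.dist y p ≤ Z.dist y z
    · obtain ⟨q, hq, hqd⟩ := exists_btw_dist hc hle
      refine ⟨q, hq, ?_⟩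
      have h1 := h p q y z
      unfold Btw at hq
      have s1 := Z.dist_comm (u := p) (v := y)
      have s2 := Z.dist_comm (u := q) (v := y)
      rcases max_cases (Z.dist p y + Z.dist q z) (Z.dist p z + Z.dist q y) with ⟨hm, -⟩ | ⟨hm, -⟩ <;>
      rw [hm] at h1 <;> omega
    · refine ⟨z, btw_right _ _, ?_⟩
      omega
  intro x y z p hp
  have h1 := h p z x y
  unfold Btw at hp
  have s1 := Z.dist_comm (u := p) (v := x)
  have s2 := Z.dist_comm (u := y) (v := z)
  have s3 := Z.dist_comm (u := z) (v := x)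
  have s4 := Z.dist_comm (u := p) (v := z)
  rcases max_cases (Z.dist p x + Z.dist z y) (Z.dist p y + Z.dist z x) with ⟨hm, -⟩ | ⟨hm, -⟩
  · rw [hm] at h1
    obtain ⟨q, hq1, hq2⟩ := aux z y p (by omega)
    exact ⟨q, Or.inr hq1, hq2⟩
  · rw [hm] at h1
    obtain ⟨q, hq1, hq2⟩ := aux x z p (by omega)
    exact ⟨q, Or.inl hq1, hq2⟩

/-- logarithmic closeness of geodesics to paths -/
theorem log_close {δ : ℕ} (hδ : Slim Z δ) (hc : Z.Connected) (C : ℕ) :
    ∀ (k : ℕ) (g : ℕ → U) (i j : ℕ), i ≤ j → j - i ≤ 2 ^ k →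
      (∀ l, i ≤ l → l < j → Z.dist (g l) (g (l + 1)) ≤ C) →
      ∀ p, Btw Z (g i) p (g j) → ∃ l, i ≤ l ∧ l ≤ j ∧ Z.dist p (g l) ≤ δ * k + C := by
  intro k
  induction k with
  | zero =>
    intro g i j hij hk hs p hp
    rw [pow_zero] at hk
    by_cases h : j = i
    · subst h
      rw [btw_self hc hp]
      exact ⟨j, le_rfl, le_rfl, by simp⟩
    · have hj : j = i + 1 := by omega
      subst hj
      have h1 := hs i le_rfl (by omega)
      refine ⟨i, le_rfl, by omega, ?_⟩
      unfold Btw at hp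
      have s1 := Z.dist_comm (u := p) (v := g i)
      omega
  | succ k ih =>
    intro g i j hij hk hs p hp
    have hm1 : i ≤ (i + j) / 2 := by omega
    have hm2 : (i + j) / 2 ≤ j := by omega
    rw [pow_succ] at hk
    obtain ⟨q, hq, hqd⟩ := hδ (g i) (g j) (g ((i + j) / 2)) p hp
    rcases hq with hq | hq
    · obtain ⟨l, l1, l2, l3⟩ := ih g i ((i + j) / 2) hm1 (by omega)
        (fun l h1 h2 => hs l h1 (by omega)) q hq
      refine ⟨l, l1, by omega, ?_⟩
      have := hc.dist_triangle (u := p) (v := q) (w := g l)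
      rw [mul_add]
      omega
    · obtain ⟨l, l1, l2, l3⟩ := ih g ((i + j) / 2) j hm2 (by omega)
        (fun l h1 h2 => hs l (by omega) h2) q hq
      refine ⟨l, by omega, l2, ?_⟩
      have := hc.dist_triangle (u := p) (v := q) (w := g l)
      rw [mul_add]
      omega

theorem sq_le_two_pow (k : ℕ) (hk : 4 ≤ k) : k * k ≤ 2 ^ k := by
  induction k, hk using Nat.le_induction with
  | base => norm_num
  | succ n hn ih =>
    rw [pow_succ]
    nlinarith

/-- exponential beats linear -/
theorem exp_bound (a b c δ : ℕ) : ∃ K : ℕ, ∀ D k : ℕ, D ≤ a + δ * k → 2 ^ k ≤ b * D + c →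
    D ≤ K := by
  refine ⟨a + δ * (4 + b * δ + b * a + c), ?_⟩
  intro D k h1 h2
  have hk : k ≤ 4 + b * δ + b * a + c := by
    by_contra hcon
    push Not at hcon
    have h3 := sq_le_two_pow k (by omega)
    have h4 : b * D ≤ b * (a + δ * k) := Nat.mul_le_mul_left b h1
    have h5 : k * k ≤ b * (a + δ * k) + c := by omega
    have h6 : b * (a + δ * k) + c ≤ (b * δ + b * a + c) * k := by
      have : 1 ≤ k := by omega
      nlinarith [Nat.mul_le_mul_left (b * a + c) this]
    have h7 : (b * δ + b * a + c) * k < k * k := by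
      apply Nat.mul_lt_mul_of_pos_right _ (by omega)
      omega
    omega
  calc D ≤ a + δ * k := h1
    _ ≤ _ := by gcongr

/-- discrete quasi-geodesics -/
structure QG (Z : SimpleGraph U) (C L c : ℕ) (g : ℕ → U) (n : ℕ) : Prop where
  step : ∀ l, l < n → Z.dist (g l) (g (l + 1)) ≤ C
  low : ∀ i j, i ≤ j → j ≤ n → j - i ≤ L * Z.dist (g i) (g j) + c

theorem QG.dist_le (hc : Z.Connected) {C L c : ℕ} {g : ℕ → U} {n : ℕ} (h : QG Z C L c g n) :
    ∀ (k i : ℕ), i + k ≤ n → Z.dist (g i) (g (i + k)) ≤ C * k := by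
  intro k
  induction k with
  | zero => intro i _; simp
  | succ k ih =>
    intro i hi
    have h1 := ih i (by omega)
    have h2 := h.step (i + k) (by omega)
    have h3 := hc.dist_triangle (u := g i) (v := g (i + k)) (w := g (i + k + 1))
    rw [mul_add, ← add_assoc]
    omega

/-- Morse lemma, part 1: geodesics stay close to quasi-geodesics. -/
theorem morse_one {δ : ℕ} (hδ : Slim Z δ) (hc : Z.Connected) (C L c : ℕ) :
    ∃ D0 : ℕ, ∀ (g : ℕ → U) (n : ℕ), QG Z C L c g n → ∀ p, Btw Z (g 0) p (g n) →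
      ∃ i, i ≤ n ∧ Z.dist p (g i) ≤ D0 := by
  classical
  obtain ⟨K, hK⟩ := exp_bound (2 * δ + C) (2 * (L * 6)) (2 * c + 2) δ
  refine ⟨K, ?_⟩
  intro g n hg
  let P : ℕ → Prop := fun D => ∀ p, Btw Z (g 0) p (g n) → ∃ i, i ≤ n ∧ Z.dist p (g i) ≤ D
  have hex : ∃ D, P D := by
    refine ⟨Z.dist (g 0) (g n), fun p hp => ⟨0, Nat.zero_le _, ?_⟩⟩
    unfold Btw at hp
    have s1 := Z.dist_comm (u := p) (v := g 0)
    omega
  have hD := Nat.find_spec hex
  set D := Nat.find hex with hDdef
  suffices hDK : D ≤ K by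
    intro p hp
    obtain ⟨i, h1, h2⟩ := hD p hp
    exact ⟨i, h1, h2.trans hDK⟩
  rcases Nat.eq_zero_or_pos D with h0 | hpos
  · omega
  have hnot : ¬ P (D - 1) := Nat.find_min hex (by omega)
  have hnot' : ∃ p, Btw Z (g 0) p (g n) ∧ ∀ i, i ≤ n → D ≤ Z.dist p (g i) := by
    by_contra hcon
    apply hnot
    intro p hp
    by_contra hcon2
    apply hcon
    refine ⟨p, hp, fun i hi => ?_⟩
    by_contra hcon3
    exact hcon2 ⟨i, hi, by omega⟩
  obtain ⟨u0, hu0, hfar⟩ := hnot'
  -- choose `y` and `i`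
  have side : ∀ e : ℕ, e ≤ n → (∀ q, Btw Z (g e) q u0 → Btw Z (g 0) q (g n)) →
      ∃ y i, i ≤ n ∧ Btw Z (g e) y u0 ∧ Z.dist y (g i) ≤ D ∧ Z.dist y u0 ≤ 2 * D ∧
        ∀ q, Btw Z y q (g i) → D ≤ Z.dist u0 q := by
    intro e he hsub
    by_cases hle : Z.dist (g e) u0 ≤ 2 * D
    · refine ⟨g e, e, he, btw_left _ _, by simp, hle, ?_⟩
      intro q hq
      rw [btw_self hc hq]
      exact hfar e he
    · obtain ⟨y, hy, hyd⟩ := exists_btw_dist hc (x := u0) (y := g e) (k := 2 * D)
        (by rw [Z.dist_comm (u := u0) (v := g e)]; omega)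
      obtain ⟨i, hi, hid⟩ := hD y (hsub y hy.symm)
      refine ⟨y, i, hi, hy.symm, hid, by rw [Z.dist_comm (u := y) (v := u0)]; omega, ?_⟩
      intro q hq
      have h1 := hc.dist_triangle (u := u0) (v := q) (w := y)
      unfold Btw at hq
      have s1 := Z.dist_comm (u := q) (v := y)
      omega
  obtain ⟨y, i, hi, hy1, hy2, hy3, hy4⟩ := side 0 (Nat.zero_le _)
    (fun q hq => hu0.trans_left hc hq)
  obtain ⟨z, j, hj, hz1, hz2, hz3, hz4⟩ := side n le_rfl
    (fun q hq => (hu0.symm.trans_left hc hq).symm)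
  have hyz : Btw Z y u0 z := by
    have h1 : Btw Z y u0 (g n) := hu0.trans_right hc hy1
    have h2 : Btw Z z u0 y := h1.symm.trans_right hc hz1
    exact h2.symm
  obtain ⟨q, hq, hqd⟩ := hδ y z (g j) u0 hyz
  rcases hq with hq | hq
  · obtain ⟨q', hq', hqd'⟩ := hδ y (g j) (g i) q hq
    have htri := hc.dist_triangle (u := u0) (v := q) (w := q')
    rcases hq' with hq' | hq'
    · have := hy4 q' hq'
      apply hK D 0
      · omega
      · simp only [pow_zero]; omega
    · -- the main case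
      have hbound : Z.dist (g i) (g j) ≤ 6 * D := by
        have t1 := hc.dist_triangle (u := g i) (v := y) (w := g j)
        have t2 := hc.dist_triangle (u := y) (v := u0) (w := g j)
        have t3 := hc.dist_triangle (u := u0) (v := z) (w := g j)
        have s1 := Z.dist_comm (u := g i) (v := y)
        have s2 := Z.dist_comm (u := u0) (v := z)
        omega
      have main : ∀ i j : ℕ, i ≤ j → j ≤ n → Btw Z (g i) q' (g j) → Z.dist (g i) (g j) ≤ 6 * D →
          D ≤ K := by
        intro i j hij hjn hb hbd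
        have hji := hg.low i j hij hjn
        set m := j - i with hm
        obtain ⟨l, l1, l2, l3⟩ := log_close hδ hc C (Nat.log 2 m + 1) g i j hij
          (Nat.lt_pow_succ_log_self (by norm_num) m).le
          (fun l h1 h2 => hg.step l (by omega)) q' hb
        have h1 := hfar l (by omega)
        have h2 := hc.dist_triangle (u := u0) (v := q') (w := g l)
        apply hK D (Nat.log 2 m + 1)
        · omega
        · have h3 : 2 ^ (Nat.log 2 m + 1) ≤ 2 * m + 2 := by
            by_cases hm0 : m = 0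
            · rw [hm0]; norm_num
            · have := Nat.pow_log_le_self 2 hm0
              rw [pow_succ]; omega
          have h4 : L * Z.dist (g i) (g j) ≤ L * (6 * D) := Nat.mul_le_mul_left _ hbd
          have h5 : m ≤ L * (6 * D) + c := by omega
          calc 2 ^ (Nat.log 2 m + 1) ≤ 2 * m + 2 := h3
            _ ≤ 2 * (L * (6 * D) + c) + 2 := by omega
            _ = 2 * (L * 6) * D + (2 * c + 2) := by ring
      rcases le_total i j with hij | hij
      · exact main i j hij hj hq' hbound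
      · exact main j i hij hi hq'.symm (by rw [Z.dist_comm]; exact hbound)
  · have := hz4 q hq.symm
    apply hK D 0
    · omega
    · simp only [pow_zero]; omega

/-- Morse lemma, part 2: quasi-geodesics stay close to any geodesic. -/
theorem morse_two {δ : ℕ} (hδ : Slim Z δ) (hc : Z.Connected) (C L c : ℕ) :
    ∃ D1 : ℕ, ∀ (g : ℕ → U) (n : ℕ), QG Z C L c g n → ∀ i, i ≤ n →
      ∃ p, Btw Z (g 0) p (g n) ∧ Z.dist (g i) p ≤ D1 := by
  classical
  obtain ⟨D0, hD0⟩ := morse_one hδ hc C L c
  refine ⟨C * (L * (2 * D0 + 1) + c) + D0, ?_⟩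
  intro g n hg i hi
  obtain ⟨p, hp0, hpn, hp1, hp2⟩ := exists_geod hc (g 0) (g n)
  set m := Z.dist (g 0) (g n) with hm
  let S : ℕ → Prop := fun t => ∃ k, k ≤ i ∧ Z.dist (p t) (g k) ≤ D0
  have hS0 : S 0 := ⟨0, Nat.zero_le _, by rw [hp0]; simp⟩
  let t := Nat.findGreatest S m
  have ht : S t := Nat.findGreatest_spec (P := S) (Nat.zero_le m) hS0
  have htm : t ≤ m := Nat.findGreatest_le m
  obtain ⟨k, hk, hkd⟩ := ht
  have hmono : ∀ a b : ℕ, a ≤ L * (2 * D0 + 1) + c → b ≤ C * a →
      b ≤ C * (L * (2 * D0 + 1) + c) := by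
    intro a b h1 h2
    exact h2.trans (Nat.mul_le_mul_left C h1)
  by_cases htm' : t = m
  · refine ⟨g n, btw_right _ _, ?_⟩
    rw [htm', hpn] at hkd
    have h1 := hg.low k n (by omega) le_rfl
    have h2 := hg.dist_le hc (n - i) i (by omega)
    rw [show i + (n - i) = n by omega] at h2
    have h3 : L * Z.dist (g k) (g n) ≤ L * (2 * D0 + 1) := by
      apply Nat.mul_le_mul_left
      rw [Z.dist_comm]; omega
    have h4 := hmono (n - i) _ (by omega) h2
    omega
  · have hnot : ¬ S (t + 1) := Nat.findGreatest_is_greatest (P := S) (n := m) (Nat.lt_succ_self t)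
      (by omega)
    obtain ⟨k', hk', hkd'⟩ := hD0 g n hg (p (t + 1)) (hp1 (t + 1) (by omega)).1
    have hik : i < k' := by
      by_contra hcon
      exact hnot ⟨k', by omega, hkd'⟩
    have h1 := hp2 t (t + 1) (by omega) (by omega)
    have h2 : Z.dist (g k) (g k') ≤ 2 * D0 + 1 := by
      have t1 := hc.dist_triangle (u := g k) (v := p t) (w := g k')
      have t2 := hc.dist_triangle (u := p t) (v := p (t + 1)) (w := g k')
      have s1 := Z.dist_comm (u := g k) (v := p t)
      omega
    have h3 := hg.low k k' (by omega) hk'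
    have h4 : L * Z.dist (g k) (g k') ≤ L * (2 * D0 + 1) := Nat.mul_le_mul_left _ h2
    have h5 := hg.dist_le hc (i - k) k (by omega)
    rw [show k + (i - k) = i by omega] at h5
    have h6 := hmono (i - k) _ (by omega) h5
    refine ⟨p t, (hp1 t htm).1, ?_⟩
    have t1 := hc.dist_triangle (u := g i) (v := g k) (w := p t)
    have s1 := Z.dist_comm (u := g i) (v := g k)
    have s2 := Z.dist_comm (u := g k) (v := p t)
    omega

end Pool.Agent.Helper10.VR
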