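import Pool.Agent.Helper10.VR.DualAction
import Pool.Agent.Helper10.VR.Coarse

/-!
# Inducing walls from a finite index normal subgroup
-/

namespace Pool.Agent.Helper10.VR

open SimpleGraph
open scoped Pointwise

universe u v

section general

variable {V : Type v} {X : SimpleGraph V}

theorem finite_ball (hc : X.Connected) (hlf : ∀ x, {y | X.Adj x y}.Finite) (R : ℕ) (x : V) :
    {y | X.dist x y ≤ R}.Finite := by
  induction R with
  | zero =>
    refine (Set.finite_singleton x).subset ?_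
    intro y hy
    have : X.dist x y = 0 := by simpa using hy
    exact ((hc.dist_eq_zero_iff).1 this).symm
  | succ R ih =>
    have h2 : (⋃ z ∈ {y | X.dist x y ≤ R}, {y | X.Adj z y}).Finite :=
      ih.biUnion (fun z _ => hlf z)
    refine (ih.union h2).subset ?_
    intro y hy
    by_cases h : X.dist x y ≤ R
    · left; exact h
    · right
      have hy' : X.dist x y ≤ R + 1 := hy
      have hne : y ≠ x := by rintro rfl; simp at h
      obtain ⟨z, z1, z2⟩ := exists_step hc hne
      rw [Set.mem_iUnion₂]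
      refine ⟨z, ?_, z1.symm⟩
      have s1 := X.dist_comm (u := y) (v := x)
      have s2 := X.dist_comm (u := z) (v := x)
      change X.dist x z ≤ R
      omega

theorem eq_of_forall_hs (hX : IsMedian X) {x y : V} (h : ∀ s, IsHS X s → (x ∈ s ↔ y ∈ s)) :
    x = y := by
  by_contra hne
  obtain ⟨s, hs, h1, h2⟩ := hX.exists_sep hne
  exact h2 ((h s hs).1 h1)

/-- completeness: a consistent orientation at finite distance from a vertex is a vertex -/
theorem exists_vertex (hX : IsMedian X) (Q : Set (Set V)) (c0 : ∀ h ∈ Q, IsHS X h)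
    (c1 : ∀ h, IsHS X h → (h ∉ Q ↔ hᶜ ∈ Q)) (c2 : ∀ h ∈ Q, ∀ k ∈ Q, (h ∩ k).Nonempty) :
    ∀ (n : ℕ) (x : V), {h | h ∈ Q ∧ x ∉ h}.Finite → {h | h ∈ Q ∧ x ∉ h}.ncard = n →
      ∃ y, ∀ h, h ∈ Q ↔ IsHS X h ∧ y ∈ h := by
  intro n
  induction n with
  | zero =>
    intro x hfin hn
    rw [Set.ncard_eq_zero hfin] at hn
    refine ⟨x, fun h => ⟨fun hh => ⟨c0 h hh, ?_⟩, ?_⟩⟩
    · by_contra hx
      have : h ∈ {h | h ∈ Q ∧ x ∉ h} := ⟨hh, hx⟩
      rw [hn] at this
      exact this
    · rintro ⟨hh, hx⟩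
      by_contra hQ
      have h1 := (c1 h hh).1 hQ
      have : hᶜ ∈ {h | h ∈ Q ∧ x ∉ h} := ⟨h1, fun h' => h' hx⟩
      rw [hn] at this
      exact this
  | succ n ih =>
    intro x hfin hn
    have hne : {h | h ∈ Q ∧ x ∉ h}.Nonempty := by
      rw [← Set.ncard_pos hfin]; omega
    obtain ⟨s, hsm, hsmax⟩ := hfin.exists_maximal hne
    have hsQ := hsm.1
    have hsH := c0 s hsQ
    obtain ⟨p0, hp0, -⟩ := c2 s hsQ s hsQ
    obtain ⟨z, hz, hgate⟩ := hX.exists_gate (hX.hs_conv hsH) ⟨p0, hp0⟩ x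
    have hxz : x ≠ z := by rintro rfl; exact hsm.2 hz
    obtain ⟨x1, h1, h2⟩ := exists_step' hX.conn hxz
    have hzv : z ∈ hs X x1 x := by
      rw [hX.mem_hs_iff h1.symm]
      unfold Btw at h2
      rw [adj_dist h1] at h2
      rw [X.dist_comm (u := z) (v := x), X.dist_comm (u := z) (v := x1)]
      omega
    have hsub : s ⊆ hs X x1 x := by
      intro p hp
      by_contra hpv
      exact hX.not_mem_btw (IsMedian.hs_isHS h1.symm) (hX.right_not_mem_hs h1.symm) hpv
        (hgate p hp) hzv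
    have hvQ : hs X x1 x ∈ Q := by
      by_contra hvQ
      have h3 := (c1 _ (IsMedian.hs_isHS h1.symm)).1 hvQ
      obtain ⟨p, hp1, hp2⟩ := c2 _ h3 _ hsQ
      exact hp1 (hsub hp2)
    have heq : s = hs X x1 x :=
      Set.Subset.antisymm hsub
        (hsmax (y := hs X x1 x) ⟨hvQ, hX.right_not_mem_hs h1.symm⟩ hsub)
    have hset : {h | h ∈ Q ∧ x1 ∉ h} = {h | h ∈ Q ∧ x ∉ h} \ {s} := by
      ext h
      constructor
      · rintro ⟨a1, a2⟩
        refine ⟨⟨a1, ?_⟩, ?_⟩
        · intro hx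
          have e : h = hs X x x1 := hX.eq_hs (c0 h a1) h1 hx a2
          obtain ⟨p, hp1, hp2⟩ := c2 _ a1 _ hvQ
          rw [e] at hp1
          rw [← hX.hs_compl h1] at hp2
          exact hp2 hp1
        · rintro rfl
          apply a2
          rw [heq]; exact hX.left_mem_hs h1.symm
      · rintro ⟨⟨a1, a2⟩, a3⟩
        refine ⟨a1, fun hx1 => a3 ?_⟩
        rw [Set.mem_singleton_iff, heq]
        exact hX.eq_hs (c0 h a1) h1.symm hx1 a2
    refine ih x1 ?_ ?_
    · rw [hset]; exact hfin.subset Set.sdiff_subset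
    · have := Set.ncard_sdiff_singleton_add_one (a := s) hsm hfin
      rw [hset]
      omega

end general

section

variable {G : Type u} [Group G] {V : Type v} {N : Subgroup G} [MulAction N V]

/-- data of a special action of `N` and an equivariant map defined on `G` -/
structure Ind (N : Subgroup G) [MulAction N V] (X : SimpleGraph V) (f : G → V) : Prop where
  strong : StrongSpecial X N
  lf : ∀ x, {y | X.Adj x y}.Finite
  cof : ∃ F : Set V, F.Finite ∧ ∀ x, ∃ n : N, n • x ∈ F
  equi : ∀ (n : N) (g : G), f (n * g) = n • f g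

/-- trace of a set of vertices on `G` -/
def tr (f : G → V) (q : G) (h : Set V) : Set G := {g | f (q⁻¹ * g) ∈ h}

theorem mem_tr {f : G → V} {q : G} {h : Set V} {g : G} : g ∈ tr f q h ↔ f (q⁻¹ * g) ∈ h := Iff.rfl

theorem tr_compl (f : G → V) (q : G) (h : Set V) : tr f q hᶜ = (tr f q h)ᶜ := rfl

theorem smul_tr (f : G → V) (g q : G) (h : Set V) : g • tr f q h = tr f (g * q) h := by
  ext a
  rw [Set.mem_smul_set_iff_inv_smul_mem, mem_tr, mem_tr, smul_eq_mul]
  rw [mul_inv_rev, mul_assoc]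

/-- conjugation by `q` on the normal subgroup `N` -/
def cj [N.Normal] (q : G) (n : N) : N :=
  ⟨q⁻¹ * n * q, by
    have := Subgroup.Normal.conj_mem (inferInstance : N.Normal) n.1 n.2 q⁻¹
    simpa using this⟩

theorem cj_val [N.Normal] (q : G) (n : N) : (cj q n : G) = q⁻¹ * n * q := rfl

variable {X : SimpleGraph V} {f : G → V}

theorem smul_hs (hc : X.Connected)
    (hadj : ∀ (g : N) (x y : V), X.Adj x y → X.Adj (g • x) (g • y)) (n : N) (x y : V) :
    n • hs X x y = hs X (n • x) (n • y) := by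
  ext z
  rw [Set.mem_smul_set_iff_inv_smul_mem, mem_hs_smul hc hadj]

theorem smul_isHS (hc : X.Connected)
    (hadj : ∀ (g : N) (x y : V), X.Adj x y → X.Adj (g • x) (g • y)) (n : N) {h : Set V}
    (hh : IsHS X h) : IsHS X (n • h) := by
  obtain ⟨x, y, hxy, rfl⟩ := hh
  rw [smul_hs hc hadj]
  exact IsMedian.hs_isHS (hadj n x y hxy)

theorem tr_mul (hI : Ind N X f) (q : G) (n : N) (h : Set V) : tr f (q * n) h = tr f q (n • h) := by
  ext a
  rw [mem_tr, mem_tr, mul_inv_rev, mul_assoc, Set.mem_smul_set_iff_inv_smul_mem, ← hI.equi]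
  simp

theorem smul_tr_N [N.Normal] (hI : Ind N X f) (q : G) (n : N) (h : Set V) :
    (n : G) • tr f q h = tr f q (cj q n • h) := by
  rw [smul_tr, ← tr_mul hI, cj_val]
  congr 1
  group

/-- conjugating back -/
theorem conj_smul_tr (hI : Ind N X f) (q : G) (n : N) (h : Set V) :
    (q * n * q⁻¹) • tr f q h = tr f q (n • h) := by
  rw [smul_tr, ← tr_mul hI]
  congr 1
  group

/-- the set of walls -/
def indW (X : SimpleGraph V) (f : G → V) : Set (Set G) :=
  {A | A.Nonempty ∧ Aᶜ.Nonempty ∧ ∃ q h, IsHS X h ∧ A = tr f q h}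

theorem exists_rep [N.Normal] (hI : Ind N X f) {A : Set G} (hA : A ∈ indW X f) :
    ∃ i : G ⧸ N, ∃ h, IsHS X h ∧ A = tr f i.out h := by
  obtain ⟨-, -, q, h, hh, rfl⟩ := hA
  refine ⟨(q : G ⧸ N), ?_⟩
  have : ((q : G ⧸ N).out)⁻¹ * q ∈ N := QuotientGroup.eq.1 (QuotientGroup.out_eq' (q : G ⧸ N))
  refine ⟨(⟨_, this⟩ : N) • h, smul_isHS hI.strong.median.conn hI.strong.adj _ hh, ?_⟩
  rw [← tr_mul hI]
  congr 1
  simp

/-- the induced walls -/
def indWalls [N.Normal] [N.FiniteIndex] (hI : Ind N X f) : Walls G where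
  W := indW X f
  compl := by
    rintro A ⟨h1, h2, q, h, hh, rfl⟩
    refine ⟨h2, by rwa [compl_compl], q, hᶜ, hI.strong.median.isHS_compl hh, ?_⟩
    rw [tr_compl]
  nonempty A hA := hA.1
  fin := by
    intro a b
    have hfin : Finite (G ⧸ N) := inferInstance
    have : (⋃ i : G ⧸ N, tr f i.out '' Sep X (f (i.out⁻¹ * a)) (f (i.out⁻¹ * b))).Finite :=
      Set.finite_iUnion (fun i => (hI.strong.median.sep_finite _ _).image _)
    refine this.subset ?_
    rintro A ⟨hA, ha, hb⟩
    obtain ⟨i, h, hh, rfl⟩ := exists_rep hI hA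
    rw [Set.mem_iUnion]
    exact ⟨i, h, ⟨hh, ha, hb⟩, rfl⟩

variable [N.Normal] [N.FiniteIndex] (hI : Ind N X f)

theorem mem_indWalls {A : Set G} : A ∈ (indWalls hI).W ↔ A.Nonempty ∧ Aᶜ.Nonempty ∧
    ∃ q h, IsHS X h ∧ A = tr f q h := Iff.rfl

instance : InvWalls (indWalls hI) where
  smul_mem := by
    rintro g A ⟨h1, h2, q, h, hh, rfl⟩
    refine ⟨h1.smul_set, ?_, g * q, h, hh, smul_tr f g q h⟩
    rw [← Set.smul_set_compl]
    exact h2.smul_set

theorem tr_mem_or {q : G} {h : Set V} (hh : IsHS X h) :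
    tr f q h ∈ (indWalls hI).W ∨ tr f q h = ∅ ∨ tr f q h = Set.univ := by
  by_cases h1 : (tr f q h).Nonempty
  · by_cases h2 : (tr f q h)ᶜ.Nonempty
    · left; exact ⟨h1, h2, q, h, hh, rfl⟩
    · right; right
      rw [Set.not_nonempty_iff_eq_empty, Set.compl_empty_iff] at h2
      exact h2
  · right; left
    exact Set.not_nonempty_iff_eq_empty.1 h1

include hI in
omit [N.Normal] [N.FiniteIndex] in
/-- halfspaces with a given nontrivial trace -/
theorem fiber_finite {A : Set G} (hA : A.Nonempty) (hA' : Aᶜ.Nonempty) (q : G) :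
    {h | IsHS X h ∧ tr f q h = A}.Finite := by
  obtain ⟨a, ha⟩ := hA
  obtain ⟨b, hb⟩ := hA'
  refine (hI.strong.median.sep_finite (f (q⁻¹ * a)) (f (q⁻¹ * b))).subset ?_
  rintro h ⟨hh, rfl⟩
  exact ⟨hh, ha, hb⟩

/-- coordinates -/
theorem exists_coord (σ : Dual (indWalls hI)) (q : G) :
    ∃ y : V, ∀ h, IsHS X h → (y ∈ h ↔ (tr f q h ∈ σ.1 ∨ tr f q h = Set.univ)) := by
  have hX := hI.strong.median
  let Q : Set (Set V) := {h | IsHS X h ∧ (tr f q h ∈ σ.1 ∨ tr f q h = Set.univ)}
  have hne : ∀ A ∈ σ.1, A.Nonempty := fun A hA => (indWalls hI).nonempty A (σ.2.sub hA)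
  have hne' : ∀ A ∈ σ.1, Aᶜ.Nonempty := fun A hA =>
    (indWalls hI).nonempty _ ((indWalls hI).compl A (σ.2.sub hA))
  have c0 : ∀ h ∈ Q, IsHS X h := fun h hh => hh.1
  have c1 : ∀ h, IsHS X h → (h ∉ Q ↔ hᶜ ∈ Q) := by
    intro h hh
    have hh' := hX.isHS_compl hh
    rcases tr_mem_or hI (q := q) hh with h1 | h1 | h1
    · have h2 : tr f q h ≠ Set.univ := by
        intro h2
        obtain ⟨-, ⟨b, hb⟩, -⟩ := h1
        rw [h2] at hb
        exact hb trivial
      have h3 : (tr f q h)ᶜ ≠ Set.univ := by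
        intro h3
        obtain ⟨⟨b, hb⟩, -, -⟩ := h1
        have : b ∈ (tr f q h)ᶜ := by rw [h3]; trivial
        exact this hb
      have h4 := σ.not_mem_iff h1
      constructor
      · intro h5
        refine ⟨hh', Or.inl ?_⟩
        rw [tr_compl, ← h4]
        exact fun h6 => h5 ⟨hh, Or.inl h6⟩
      · rintro ⟨-, h5 | h5⟩ ⟨-, h6 | h6⟩
        · rw [tr_compl, ← h4] at h5; exact h5 h6
        · exact h2 h6
        · rw [tr_compl] at h5; exact h3 h5
        · exact h2 h6
    · constructor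
      · intro _
        refine ⟨hh', Or.inr ?_⟩
        rw [tr_compl, h1, Set.compl_empty]
      · intro _
        rintro ⟨-, h6 | h6⟩
        · obtain ⟨b, hb⟩ := hne _ h6
          rw [h1] at hb; exact hb
        · rw [h1] at h6
          have : (1 : G) ∈ (∅ : Set G) := by rw [h6]; trivial
          exact this
    · constructor
      · intro h5
        exact absurd ⟨hh, Or.inr h1⟩ h5
      · rintro ⟨-, h5 | h5⟩
        · rw [tr_compl, h1, Set.compl_univ] at h5
          obtain ⟨b, hb⟩ := hne _ h5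
          exact absurd hb (Set.notMem_empty b)
        · rw [tr_compl, h1, Set.compl_univ] at h5
          have : (1 : G) ∈ (∅ : Set G) := by rw [h5]; trivial
          exact absurd this (Set.notMem_empty _)
  have c2 : ∀ h ∈ Q, ∀ k ∈ Q, (h ∩ k).Nonempty := by
    rintro h ⟨-, h1⟩ k ⟨-, k1⟩
    have : (tr f q h ∩ tr f q k).Nonempty := by
      rcases h1 with h1 | h1 <;> rcases k1 with k1 | k1
      · exact σ.2.inter _ h1 _ k1
      · rw [k1, Set.inter_univ]; exact hne _ h1
      · rw [h1, Set.univ_inter]; exact hne _ k1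
      · rw [h1, k1, Set.inter_univ]; exact Set.univ_nonempty
    obtain ⟨g, g1, g2⟩ := this
    exact ⟨_, g1, g2⟩
  have hfin : {h | h ∈ Q ∧ f (q⁻¹ * 1) ∉ h}.Finite := by
    have h1 : (⋃ A ∈ (σ.1 \ prin (indWalls hI) 1), {h | IsHS X h ∧ tr f q h = A}).Finite :=
      (σ.2.fin 1).biUnion (fun A hA => fiber_finite hI (hne A hA.1) (hne' A hA.1) q)
    refine h1.subset ?_
    rintro h ⟨⟨hh, h2⟩, h3⟩
    rw [Set.mem_iUnion₂]
    refine ⟨tr f q h, ⟨?_, fun h4 => h3 h4.2⟩, hh, rfl⟩
    rcases h2 with h2 | h2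
    · exact h2
    · exfalso
      have : (1 : G) ∈ tr f q h := by rw [h2]; trivial
      exact h3 this
  obtain ⟨y, hy⟩ := exists_vertex hX Q c0 c1 c2 _ _ hfin rfl
  refine ⟨y, fun h hh => ?_⟩
  have := hy h
  constructor
  · intro h1; exact (this.2 ⟨hh, h1⟩).2
  · intro h1; exact (this.1 ⟨hh, h1⟩).2

/-- coordinate of a vertex of the dual -/
noncomputable def coord (σ : Dual (indWalls hI)) (q : G) : V := (exists_coord hI σ q).choose

theorem coord_spec (σ : Dual (indWalls hI)) (q : G) {h : Set V} (hh : IsHS X h) :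
    coord hI σ q ∈ h ↔ (tr f q h ∈ σ.1 ∨ tr f q h = Set.univ) :=
  (exists_coord hI σ q).choose_spec h hh

theorem coord_pt (a q : G) : coord hI (pt _ a) q = f (q⁻¹ * a) := by
  refine eq_of_forall_hs hI.strong.median (fun h hh => ?_)
  rw [coord_spec hI _ _ hh, mem_pt]
  constructor
  · rintro (⟨-, h1⟩ | h1)
    · exact h1
    · have : a ∈ tr f q h := by rw [h1]; trivial
      exact this
  · intro h1
    rcases tr_mem_or hI (q := q) hh with h2 | h2 | h2
    · left; exact ⟨h2, h1⟩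
    · exfalso
      have : a ∈ tr f q h := h1
      rw [h2] at this; exact this
    · right; exact h2

theorem coord_consistent (σ : Dual (indWalls hI)) :
    Consistent (I := G ⧸ N) X (fun i g => f (i.out⁻¹ * g)) (fun i => coord hI σ i.out) := by
  have hne : ∀ A ∈ σ.1, A.Nonempty := fun A hA => (indWalls hI).nonempty A (σ.2.sub hA)
  intro i j h k hh hk h1 k1
  rw [coord_spec hI _ _ hh] at h1
  rw [coord_spec hI _ _ hk] at k1
  have : (tr f i.out h ∩ tr f j.out k).Nonempty := by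
    rcases h1 with h1 | h1 <;> rcases k1 with k1 | k1
    · exact σ.2.inter _ h1 _ k1
    · rw [k1, Set.inter_univ]; exact hne _ h1
    · rw [h1, Set.univ_inter]; exact hne _ k1
    · rw [h1, k1, Set.inter_univ]; exact Set.univ_nonempty
  obtain ⟨g, g1, g2⟩ := this
  exact ⟨g, g1, g2⟩

/-- the distance in the dual is bounded by the distances of coordinates -/
theorem d_le_sum [Fintype (G ⧸ N)] (σ τ : Dual (indWalls hI)) :
    σ.d τ ≤ ∑ i : G ⧸ N, X.dist (coord hI σ i.out) (coord hI τ i.out) := by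
  classical
  have hX := hI.strong.median
  have hsub : σ.1 \ τ.1 ⊆ ⋃ i ∈ (Finset.univ : Finset (G ⧸ N)),
      tr f i.out '' Sep X (coord hI σ i.out) (coord hI τ i.out) := by
    rintro A ⟨h1, h2⟩
    have hAW := σ.2.sub h1
    obtain ⟨i, h, hh, rfl⟩ := exists_rep hI hAW
    rw [Set.mem_iUnion₂]
    refine ⟨i, Finset.mem_univ i, h, ⟨hh, (coord_spec hI _ _ hh).2 (Or.inl h1), ?_⟩, rfl⟩
    rw [coord_spec hI _ _ hh]
    rintro (h3 | h3)
    · exact h2 h3
    · obtain ⟨-, ⟨b, hb⟩, -⟩ := hAW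
      rw [h3] at hb; exact hb trivial
  have hfin : ∀ i : G ⧸ N, (tr f i.out '' Sep X (coord hI σ i.out) (coord hI τ i.out)).Finite :=
    fun i => (hX.sep_finite _ _).image _
  have key : ∀ S : Finset (G ⧸ N), (⋃ i ∈ S,
      tr f i.out '' Sep X (coord hI σ i.out) (coord hI τ i.out)).ncard ≤
        ∑ i ∈ S, X.dist (coord hI σ i.out) (coord hI τ i.out) := by
    intro S
    induction S using Finset.induction_on with
    | empty => simp
    | insert i S hi ih =>
      rw [Finset.set_biUnion_insert, Finset.sum_insert hi]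
      refine (Set.ncard_union_le _ _).trans (Nat.add_le_add ?_ ih)
      rw [← hX.sep_ncard]
      exact Set.ncard_image_le (hX.sep_finite _ _)
  unfold Dual.d
  refine (Set.ncard_le_ncard hsub ?_).trans (key _)
  exact Set.Finite.biUnion (Finset.finite_toSet _) (fun i _ => hfin i)

/-- coordinates determine the vertex -/
theorem coord_injective {σ τ : Dual (indWalls hI)}
    (h : ∀ i : G ⧸ N, coord hI σ i.out = coord hI τ i.out) : σ = τ := by
  have : Nonempty G := ⟨1⟩
  have := Fintype.ofFinite (G ⧸ N)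
  apply Dual.eq_of_d
  have h1 := d_le_sum hI σ τ
  have h2 : ∑ i : G ⧸ N, X.dist (coord hI σ i.out) (coord hI τ i.out) = 0 := by
    apply Finset.sum_eq_zero
    intro i _
    rw [h i]; simp
  omega

/-- uniform bound on the number of halfspaces with the same trace -/
theorem fiber_bound (q : G) : ∃ m : ℕ, ∀ h, IsHS X h → tr f q h ∈ (indWalls hI).W →
    {k | IsHS X k ∧ tr f q k = tr f q h}.ncard ≤ m := by
  classical
  have hX := hI.strong.median
  have hadj := hI.strong.adj
  obtain ⟨F, hF, hFV⟩ := hI.cof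
  -- representatives of halfspaces
  let E : Set (Set V) := ⋃ x ∈ F, (fun y => hs X x y) '' {y | X.Adj x y}
  have hE : E.Finite := hF.biUnion (fun x _ => (hI.lf x).image _)
  have hrep : ∀ h, IsHS X h → ∃ n : N, n • h ∈ E := by
    rintro h ⟨x, y, hxy, rfl⟩
    obtain ⟨n, hn⟩ := hFV x
    refine ⟨n, ?_⟩
    rw [smul_hs hX.conn hadj]
    change _ ∈ ⋃ x ∈ F, (fun y => hs X x y) '' {y | X.Adj x y}
    rw [Set.mem_iUnion₂]
    exact ⟨n • x, hn, n • y, hadj n x y hxy, rfl⟩
  let cnt : Set V → ℕ := fun h => {k | IsHS X k ∧ tr f q k = tr f q h}.ncard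
  refine ⟨hE.toFinset.sup cnt, ?_⟩
  intro h hh hW
  obtain ⟨n, hn⟩ := hrep h hh
  have hle : cnt (n • h) ≤ hE.toFinset.sup cnt :=
    Finset.le_sup (f := cnt) (by simpa using hn)
  refine le_trans ?_ hle
  have e : ∀ k : Set V, tr f q (n • k) = (q * n * q⁻¹) • tr f q k := fun k =>
    (conj_smul_tr hI q n k).symm
  have hfin : {k | IsHS X k ∧ tr f q k = tr f q (n • h)}.Finite := by
    have hW' : tr f q (n • h) ∈ (indWalls hI).W := by
      rw [e, smul_mem_iff]; exact hW
    exact fiber_finite hI hW'.1 hW'.2.1 q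
  refine Set.ncard_le_ncard_of_injOn (fun k => n • k) ?_ ?_ hfin
  · rintro k ⟨hk1, hk2⟩
    refine ⟨smul_isHS hX.conn hadj n hk1, ?_⟩
    rw [e, e, hk2]
  · intro k _ k' _ hkk
    exact smul_left_cancel n hkk

/-- coordinates are bounded by the distance in the dual -/
theorem dist_coord_le (q : G) : ∃ m : ℕ, ∀ σ τ : Dual (indWalls hI),
    X.dist (coord hI σ q) (coord hI τ q) ≤ m * σ.d τ := by
  classical
  have hX := hI.strong.median
  have hne : Nonempty G := ⟨1⟩
  obtain ⟨m, hm⟩ := fiber_bound hI q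
  refine ⟨m, fun σ τ => ?_⟩
  have hfin := σ.diff_finite τ hne
  have hsub : ∀ h ∈ Sep X (coord hI σ q) (coord hI τ q), tr f q h ∈ σ.1 \ τ.1 := by
    rintro h ⟨hh, h1, h2⟩
    rw [coord_spec hI _ _ hh] at h1 h2
    push Not at h2
    rcases h1 with h1 | h1
    · exact ⟨h1, h2.1⟩
    · exact absurd h1 h2.2
  rw [← hX.sep_ncard]
  have hS := hX.sep_finite (coord hI σ q) (coord hI τ q)
  rw [Set.ncard_eq_toFinset_card _ hS]
  unfold Dual.d
  rw [Set.ncard_eq_toFinset_card _ hfin]
  refine Finset.card_le_mul_card_image_of_maps_to (f := fun h => tr f q h) ?_ m ?_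
  · intro h hh
    rw [Set.Finite.mem_toFinset] at hh ⊢
    exact hsub h hh
  · intro A hA
    rw [Set.Finite.mem_toFinset] at hA
    by_cases hex : ∃ h, IsHS X h ∧ tr f q h = A
    · obtain ⟨h, hh, rfl⟩ := hex
      have hW := σ.2.sub hA.1
      have h1 := hm h hh hW
      have hfin2 := fiber_finite hI hW.1 hW.2.1 q
      rw [Set.ncard_eq_toFinset_card _ hfin2] at h1
      refine (Finset.card_le_card ?_).trans h1
      intro k hk
      rw [Finset.mem_filter, Set.Finite.mem_toFinset] at hk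
      rw [Set.Finite.mem_toFinset]
      exact ⟨hk.1.1, hk.2⟩
    · have : (hS.toFinset.filter (fun h => tr f q h = A)) = ∅ := by
        rw [Finset.filter_eq_empty_iff]
        intro h hh
        rw [Set.Finite.mem_toFinset] at hh
        exact fun h' => hex ⟨h, hh.1, h'⟩
      rw [this]; simp

end

end Pool.Agent.Helper10.VR
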