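import Mathlib

/-!
# Median graphs: intervals, halfspaces, hulls

Elementary theory of median graphs (1-skeleta of CAT(0) cube complexes).
-/

namespace Pool.Agent.Helper10.VR

open SimpleGraph

universe u

variable {V : Type u}

/-- `z` lies between `x` and `y` : it is on some geodesic from `x` to `y`. -/
def Btw (X : SimpleGraph V) (x z y : V) : Prop := X.dist x z + X.dist z y = X.dist x y

/-- A median graph: connected, and every triple has a unique median. -/
structure IsMedian (X : SimpleGraph V) : Prop where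
  conn : X.Connected
  median : ∀ x y z : V, ∃! m : V, Btw X x m y ∧ Btw X y m z ∧ Btw X x m z

/-- The halfspace of points closer to `a` than to `b`. -/
def hs (X : SimpleGraph V) (a b : V) : Set V := {x | X.dist x a < X.dist x b}

section Conn

variable {X : SimpleGraph V}

theorem Btw.symm {x z y : V} (h : Btw X x z y) : Btw X y z x := by
  unfold Btw at *
  rw [X.dist_comm (u := y) (v := z), X.dist_comm (u := z) (v := x), X.dist_comm (u := y) (v := x)]
  omega

theorem btw_left (x y : V) : Btw X x x y := by simp [Btw]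
theorem btw_right (x y : V) : Btw X x y y := by simp [Btw]

theorem btw_self {x z : V} (hc : X.Connected) (h : Btw X x z x) : z = x := by
  unfold Btw at h
  rw [X.dist_self] at h
  have : X.dist x z = 0 := by omega
  exact ((hc.dist_eq_zero_iff).1 this).symm

theorem Btw.trans_left (hc : X.Connected) {x z y w : V} (h : Btw X x z y) (h' : Btw X x w z) :
    Btw X x w y := by
  unfold Btw at *
  have h1 := hc.dist_triangle (u := x) (v := w) (w := y)
  have h2 := hc.dist_triangle (u := w) (v := z) (w := y)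
  omega

theorem Btw.trans_right (hc : X.Connected) {x z y w : V} (h : Btw X x z y) (h' : Btw X x w z) :
    Btw X w z y := by
  unfold Btw at *
  have h1 := hc.dist_triangle (u := x) (v := w) (w := y)
  have h2 := hc.dist_triangle (u := w) (v := z) (w := y)
  omega

theorem adj_dist {x y : V} (h : X.Adj x y) : X.dist x y = 1 := dist_eq_one_iff_adj.2 h

/-- first step of a geodesic. -/
theorem exists_step (hc : X.Connected) {x y : V} (h : x ≠ y) :
    ∃ x', X.Adj x x' ∧ X.dist x y = X.dist x' y + 1 := by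
  obtain ⟨w, hw⟩ := hc.exists_walk_length_eq_dist x y
  cases w with
  | nil => exact absurd rfl h
  | @cons _ x' _ hadj p =>
    refine ⟨x', hadj, ?_⟩
    have h1 : X.dist x' y ≤ p.length := dist_le p
    have h2 : X.dist x y ≤ X.dist x x' + X.dist x' y := hc.dist_triangle
    rw [adj_dist hadj] at h2
    simp at hw
    omega

theorem exists_step' (hc : X.Connected) {x y : V} (h : x ≠ y) :
    ∃ x', X.Adj x x' ∧ Btw X x x' y := by
  obtain ⟨x', h1, h2⟩ := exists_step hc h
  exact ⟨x', h1, by unfold Btw; rw [adj_dist h1]; omega⟩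

theorem exists_btw_dist (hc : X.Connected) {x y : V} :
    ∀ {k : ℕ}, k ≤ X.dist x y → ∃ z, Btw X x z y ∧ X.dist x z = k := by
  intro k
  induction k with
  | zero => intro _; exact ⟨x, btw_left x y, by simp⟩
  | succ k ih =>
    intro hk
    obtain ⟨z, hz, hzk⟩ := ih (by omega)
    have hne : z ≠ y := by
      rintro rfl
      omega
    obtain ⟨z', h1, h2⟩ := exists_step hc hne
    have h3 := hc.dist_triangle (u := x) (v := z) (w := z')
    have h4 := hc.dist_triangle (u := x) (v := z') (w := y)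
    rw [adj_dist h1] at h3
    unfold Btw at *
    exact ⟨z', by omega, by omega⟩

/-- A geodesic path, as a function on `ℕ`, from `x` to `y`. -/
theorem exists_geod (hc : X.Connected) (x y : V) :
    ∃ p : ℕ → V, p 0 = x ∧ p (X.dist x y) = y ∧
      (∀ i, i ≤ X.dist x y → Btw X x (p i) y ∧ X.dist x (p i) = i) ∧
      (∀ i j, i ≤ j → j ≤ X.dist x y → X.dist (p i) (p j) = j - i) := by
  -- build from walk
  induction h : X.dist x y generalizing x with
  | zero =>
    have hxy : x = y := (hc.dist_eq_zero_iff).1 h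
    subst hxy
    refine ⟨fun _ => x, rfl, rfl, ?_, ?_⟩
    · intro i hi
      have : i = 0 := by omega
      subst this
      exact ⟨btw_left _ _, by simp⟩
    · intro i j _ _
      have : i = 0 := by omega
      have : j = 0 := by omega
      subst_vars
      simp
  | succ n ih =>
    have hne : x ≠ y := by
      rintro rfl
      simp at h
    obtain ⟨x', h1, h2⟩ := exists_step hc hne
    have hx' : X.dist x' y = n := by omega
    obtain ⟨p, hp0, hpn, hp1, hp2⟩ := ih x' hx'
    refine ⟨fun i => if i = 0 then x else p (i - 1), by simp, by simp [hpn], ?_, ?_⟩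
    · intro i hi
      by_cases hi0 : i = 0
      · subst hi0
        simp [btw_left]
      · simp only [hi0, if_false]
        obtain ⟨h3, h4⟩ := hp1 (i - 1) (by omega)
        have h5 := hc.dist_triangle (u := x) (v := x') (w := p (i - 1))
        have h6 := hc.dist_triangle (u := x) (v := p (i - 1)) (w := y)
        rw [adj_dist h1] at h5
        unfold Btw at *
        constructor
        · omega
        · omega
    · intro i j hij hj
      by_cases hi0 : i = 0
      · subst hi0
        by_cases hj0 : j = 0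
        · subst hj0; simp
        · simp only [hj0, if_false, if_true]
          obtain ⟨h3, h4⟩ := hp1 (j - 1) (by omega)
          have h5 := hc.dist_triangle (u := x) (v := x') (w := p (j - 1))
          have h6 := hc.dist_triangle (u := x) (v := p (j - 1)) (w := y)
          rw [adj_dist h1] at h5
          unfold Btw at *
          omega
      · have hj0 : j ≠ 0 := by omega
        simp only [hi0, hj0, if_false]
        rw [hp2 (i - 1) (j - 1) (by omega) (by omega)]
        omega

/-- A geodesic through a given intermediate point. -/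
theorem exists_geod_through (hc : X.Connected) {x y z : V} (hz : Btw X x z y) :
    ∃ p : ℕ → V, p 0 = x ∧ p (X.dist x y) = y ∧ p (X.dist x z) = z ∧
      (∀ i, i ≤ X.dist x y → Btw X x (p i) y ∧ X.dist x (p i) = i) ∧
      (∀ i j, i ≤ j → j ≤ X.dist x y → X.dist (p i) (p j) = j - i) := by
  obtain ⟨p, hp0, hpn, hp1, hp2⟩ := exists_geod hc x z
  obtain ⟨q, hq0, hqn, hq1, hq2⟩ := exists_geod hc z y
  have hz' := hz
  unfold Btw at hz'
  refine ⟨fun i => if i ≤ X.dist x z then p i else q (i - X.dist x z), by simp [hp0], ?_, by simp [hpn],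
    ?_, ?_⟩
  · by_cases h : X.dist x y ≤ X.dist x z
    · have h1 : X.dist z y = 0 := by omega
      have h2 : z = y := (hc.dist_eq_zero_iff).1 h1
      subst h2
      simp [hpn]
    · simp only [h, if_false]
      have : X.dist x y - X.dist x z = X.dist z y := by omega
      rw [this, hqn]
  · intro i hi
    by_cases h : i ≤ X.dist x z
    · simp only [h, if_true]
      exact ⟨hz.trans_left hc (hp1 i h).1, (hp1 i h).2⟩
    · simp only [h, if_false]
      obtain ⟨h1, h2⟩ := hq1 (i - X.dist x z) (by omega)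
      have h3 := hc.dist_triangle (u := x) (v := z) (w := q (i - X.dist x z))
      have h4 := hc.dist_triangle (u := x) (v := q (i - X.dist x z)) (w := y)
      unfold Btw at *
      constructor
      · omega
      · omega
  · intro i j hij hj
    by_cases h : j ≤ X.dist x z
    · have h' : i ≤ X.dist x z := by omega
      simp only [h, h', if_true]
      exact hp2 i j hij h
    · by_cases h' : i ≤ X.dist x z
      · simp only [h, h', if_true, if_false]
        obtain ⟨h1, h2⟩ := hq1 (j - X.dist x z) (by omega)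
        obtain ⟨h3, h4⟩ := hp1 i h'
        have h5 := hc.dist_triangle (u := p i) (v := z) (w := q (j - X.dist x z))
        have h6 := hc.dist_triangle (u := x) (v := p i) (w := q (j - X.dist x z))
        have h7 := hc.dist_triangle (u := x) (v := q (j - X.dist x z)) (w := y)
        unfold Btw at *
        omega
      · simp only [h, h', if_false]
        rw [hq2 _ _ (by omega) (by omega)]
        omega

end Conn

namespace IsMedian

variable {X : SimpleGraph V} (hX : IsMedian X)
include hX

/-- In a median graph adjacent vertices are at different distances of any vertex. -/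
theorem dist_adj {a b : V} (h : X.Adj a b) (x : V) :
    X.dist x b = X.dist x a + 1 ∨ X.dist x a = X.dist x b + 1 := by
  obtain ⟨m, ⟨h1, h2, h3⟩, -⟩ := hX.median x a b
  have hab : X.dist a b = 1 := adj_dist h
  unfold Btw at h1 h2 h3
  rw [hab] at h2
  rcases Nat.eq_zero_or_pos (X.dist a m) with h0 | h0
  · have : a = m := (hX.conn.dist_eq_zero_iff).1 h0
    subst this
    left
    omega
  · have : X.dist m b = 0 := by omega
    have : m = b := (hX.conn.dist_eq_zero_iff).1 this
    subst this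
    right
    rw [X.dist_comm (u := m) (v := a)] at h1
    omega

theorem mem_hs_iff {a b : V} (h : X.Adj a b) (x : V) :
    x ∈ hs X a b ↔ X.dist x b = X.dist x a + 1 := by
  unfold hs
  rcases hX.dist_adj h x with h1 | h1 <;> simp <;> omega

theorem not_mem_hs_iff {a b : V} (h : X.Adj a b) (x : V) :
    x ∉ hs X a b ↔ X.dist x a = X.dist x b + 1 := by
  unfold hs
  rcases hX.dist_adj h x with h1 | h1 <;> simp <;> omega

theorem hs_compl {a b : V} (h : X.Adj a b) : (hs X a b)ᶜ = hs X b a := by
  ext x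
  rw [Set.mem_compl_iff, hX.not_mem_hs_iff h, hX.mem_hs_iff h.symm]

theorem not_mem_hs_iff' {a b : V} (h : X.Adj a b) (x : V) :
    x ∉ hs X a b ↔ x ∈ hs X b a := by
  rw [hX.not_mem_hs_iff h, hX.mem_hs_iff h.symm]

theorem left_mem_hs {a b : V} (h : X.Adj a b) : a ∈ hs X a b := by
  rw [hX.mem_hs_iff h]; simp [adj_dist h]

theorem right_not_mem_hs {a b : V} (h : X.Adj a b) : b ∉ hs X a b := by
  rw [hX.not_mem_hs_iff h]; simp [adj_dist h.symm]

/-- Two distinct neighbours of a vertex are at distance two. -/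
theorem dist_two {v w z : V} (hv : X.Adj v z) (hw : X.Adj w z) (hne : v ≠ w) :
    X.dist v w = 2 := by
  have h1 := hX.dist_adj hw.symm v
  rw [adj_dist hv] at h1
  have h2 : 0 < X.dist v w := hX.conn.pos_dist_of_ne hne
  omega

/-- The quadrangle condition. -/
theorem quadrangle {u v w z : V} (hv : X.Adj v z) (hw : X.Adj w z) (hne : v ≠ w)
    (h1 : X.dist u z = X.dist u v + 1) (h2 : X.dist u z = X.dist u w + 1) :
    ∃ t, X.Adj v t ∧ X.Adj w t ∧ X.dist u v = X.dist u t + 1 ∧ t ≠ z := by
  obtain ⟨m, ⟨m1, m2, m3⟩, -⟩ := hX.median u v w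
  have hvw := hX.dist_two hv hw hne
  unfold Btw at m1 m2 m3
  rw [hvw] at m2
  have e1 : X.dist m v = 1 := by rw [X.dist_comm (u := v) (v := m)] at m2; omega
  have e2 : X.dist m w = 1 := by rw [X.dist_comm (u := v) (v := m)] at m2; omega
  refine ⟨m, (dist_eq_one_iff_adj.1 e1).symm, (dist_eq_one_iff_adj.1 e2).symm, by omega, ?_⟩
  rintro rfl
  omega

/-- Geodesics to `a` from a point of `hs a b` stay in `hs a b`. -/
theorem mem_hs_of_btw {a b x z : V} (h : X.Adj a b) (hx : x ∈ hs X a b) (hz : Btw X x z a) :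
    z ∈ hs X a b := by
  rw [hX.mem_hs_iff h] at *
  unfold Btw at hz
  have h1 := hX.conn.dist_triangle (u := x) (v := z) (w := b)
  have h2 := hX.dist_adj h z
  omega

/-- local convexity of halfspaces -/
theorem hs_local {a b x t z : V} (h : X.Adj a b) (hx : x ∈ hs X a b) (ht : t ∈ hs X a b)
    (hxz : X.Adj x z) (htz : X.Adj t z) (hne : x ≠ t) : z ∈ hs X a b := by
  by_contra hz
  rw [hX.not_mem_hs_iff h] at hz
  rw [hX.mem_hs_iff h] at hx ht
  have c1 := hX.dist_adj hxz a
  have c2 := hX.dist_adj hxz b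
  have c3 := hX.dist_adj htz a
  have c4 := hX.dist_adj htz b
  have s1 := X.dist_comm (u := x) (v := a)
  have s2 := X.dist_comm (u := x) (v := b)
  have s3 := X.dist_comm (u := t) (v := a)
  have s4 := X.dist_comm (u := t) (v := b)
  have s5 := X.dist_comm (u := z) (v := a)
  have s6 := X.dist_comm (u := z) (v := b)
  -- distances : d(z,b)=k, d(z,a)=k+1, d(x,a)=k, d(x,b)=k+1
  obtain ⟨p, hp1, hp2, hp3, hp4⟩ := hX.quadrangle (u := a) hxz htz hne (by omega) (by omega)
  have c5 := hX.dist_adj hp1 b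
  have c6 := hX.dist_adj h p
  have s7 := X.dist_comm (u := p) (v := a)
  have s8 := X.dist_comm (u := p) (v := b)
  have hxt := hX.dist_two hxz htz hne
  have hpb : X.dist p b = X.dist z b := by omega
  obtain ⟨m, -, hm⟩ := hX.median x t b
  have e1 : z = m := by
    apply hm
    unfold Btw
    rw [adj_dist hxz, adj_dist htz, adj_dist htz.symm, hxt]
    omega
  have e2 : p = m := by
    apply hm
    unfold Btw
    rw [adj_dist hp1, adj_dist hp2, adj_dist hp2.symm, hxt]
    omega
  exact hp4 (e2.trans e1.symm)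

/-- Halfspaces are convex. -/
theorem hs_convex {a b : V} (h : X.Adj a b) :
    ∀ (n : ℕ) (x y : V), X.dist x y = n → x ∈ hs X a b → y ∈ hs X a b →
      ∀ z, Btw X x z y → z ∈ hs X a b := by
  intro n
  induction n with
  | zero =>
    intro x y hxy hx hy z hz
    have : x = y := (hX.conn.dist_eq_zero_iff).1 hxy
    subst this
    rw [btw_self hX.conn hz]; exact hx
  | succ n ih =>
    intro x y hxy hx hy z hz
    by_cases hzx : x = z
    · subst hzx; exact hx
    obtain ⟨x1, hx1, hx1z⟩ := exists_step' hX.conn hzx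
    have hx1y : Btw X x x1 y := hz.trans_left hX.conn hx1z
    have hd1 : X.dist x1 y = n := by
      unfold Btw at hx1y; rw [adj_dist hx1] at hx1y; omega
    -- enough: `x1 ∈ hs`
    suffices hmem : x1 ∈ hs X a b by
      refine ih x1 y hd1 hmem hy z ?_
      exact hz.trans_right hX.conn hx1z
    by_contra hnot
    obtain ⟨m, ⟨m1, m2, m3⟩, -⟩ := hX.median x y a
    have hmx : x ≠ m := by
      rintro rfl
      rw [hX.mem_hs_iff h] at hx hy
      rw [hX.not_mem_hs_iff h] at hnot
      have t1 := hX.conn.dist_triangle (u := y) (v := x1) (w := b)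
      have t2 := hX.dist_adj hx1 b
      have s1 := X.dist_comm (u := x) (v := b)
      have s2 := X.dist_comm (u := x1) (v := b)
      have s3 := X.dist_comm (u := x1) (v := y)
      have s4 := X.dist_comm (u := x) (v := y)
      have t3 := hX.dist_adj hx1 a
      have s5 := X.dist_comm (u := x) (v := a)
      have s6 := X.dist_comm (u := x1) (v := a)
      unfold Btw at m2
      omega
    obtain ⟨x2, hx2, hx2m⟩ := exists_step' hX.conn hmx
    have hx2y : Btw X x x2 y := m1.trans_left hX.conn hx2m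
    have hx2a : Btw X x x2 a := m3.trans_left hX.conn hx2m
    have hx2mem : x2 ∈ hs X a b := hX.mem_hs_of_btw h hx hx2a
    have hne : x1 ≠ x2 := by
      rintro rfl
      exact hnot hx2mem
    have hd2 : X.dist x2 y = n := by
      unfold Btw at hx2y; rw [adj_dist hx2] at hx2y; omega
    obtain ⟨t, ht1, ht2, ht3, ht4⟩ := hX.quadrangle (u := y) hx1.symm hx2.symm hne
      (by rw [X.dist_comm (u := y) (v := x), X.dist_comm (u := y) (v := x1)]; omega)
      (by rw [X.dist_comm (u := y) (v := x), X.dist_comm (u := y) (v := x2)]; omega)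
    have htmem : t ∈ hs X a b := by
      refine ih x2 y hd2 hx2mem hy t ?_
      unfold Btw
      rw [adj_dist ht2, hd2]
      rw [X.dist_comm (u := y) (v := x1), X.dist_comm (u := y) (v := t)] at ht3
      omega
    exact hnot (hX.hs_local h hx htmem hx1 ht1.symm (Ne.symm ht4))

theorem hs_btw {a b : V} (h : X.Adj a b) {x y z : V} (hx : x ∈ hs X a b) (hy : y ∈ hs X a b)
    (hz : Btw X x z y) : z ∈ hs X a b :=
  hX.hs_convex h _ x y rfl hx hy z hz

theorem not_hs_btw {a b : V} (h : X.Adj a b) {x y z : V} (hx : x ∉ hs X a b) (hy : y ∉ hs X a b)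
    (hz : Btw X x z y) : z ∉ hs X a b := by
  rw [hX.not_mem_hs_iff' h] at *
  exact hX.hs_btw h.symm hx hy hz

/-- An edge crossing a hyperplane is dual to it. -/
theorem hs_eq {a b c d : V} (hab : X.Adj a b) (hcd : X.Adj c d) (hc : c ∈ hs X a b)
    (hd : d ∉ hs X a b) : hs X c d = hs X a b := by
  ext x
  constructor
  · intro hx
    by_contra hxa
    have : c ∉ hs X a b := by
      refine hX.not_hs_btw hab hxa hd ?_
      rw [hX.mem_hs_iff hcd] at hx
      unfold Btw
      rw [adj_dist hcd]; omega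
    exact this hc
  · intro hx
    by_contra hxc
    have : d ∈ hs X a b := by
      refine hX.hs_btw hab hx hc ?_
      rw [hX.not_mem_hs_iff hcd] at hxc
      unfold Btw
      rw [adj_dist hcd.symm]; omega
    exact hd this

end IsMedian

/-- `h` is a halfspace of the graph `X`. -/
def IsHS (X : SimpleGraph V) (h : Set V) : Prop := ∃ a b, X.Adj a b ∧ h = hs X a b

/-- the halfspaces containing `x` and not `y` -/
def Sep (X : SimpleGraph V) (x y : V) : Set (Set V) := {h | IsHS X h ∧ x ∈ h ∧ y ∉ h}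

/-- Two sets cross if all four corners are nonempty. -/
def Crosses {O : Type*} (A B : Set O) : Prop :=
  (A ∩ B).Nonempty ∧ (A ∩ Bᶜ).Nonempty ∧ (Aᶜ ∩ B).Nonempty ∧ (Aᶜ ∩ Bᶜ).Nonempty

theorem Crosses.symm {O : Type*} {A B : Set O} (h : Crosses A B) : Crosses B A := by
  obtain ⟨h1, h2, h3, h4⟩ := h
  rw [Set.inter_comm] at h1 h2 h3 h4
  exact ⟨h1, h3, h2, h4⟩

theorem Crosses.compl_left {O : Type*} {A B : Set O} (h : Crosses A B) : Crosses Aᶜ B := by
  obtain ⟨h1, h2, h3, h4⟩ := h
  exact ⟨h3, h4, by rwa [compl_compl], by rwa [compl_compl]⟩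

theorem Crosses.compl_right {O : Type*} {A B : Set O} (h : Crosses A B) : Crosses A Bᶜ :=
  (h.symm.compl_left).symm

/-- convex sets of vertices -/
def IsConv (X : SimpleGraph V) (S : Set V) : Prop :=
  ∀ x ∈ S, ∀ y ∈ S, ∀ z, Btw X x z y → z ∈ S

/-- convex hull, as an intersection of halfspaces -/
def hull (X : SimpleGraph V) (S : Set V) : Set V := {y | ∀ h, IsHS X h → S ⊆ h → y ∈ h}

theorem subset_hull (X : SimpleGraph V) (S : Set V) : S ⊆ hull X S := fun _ hx _ _ hS => hS hx

namespace IsMedian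

variable {X : SimpleGraph V} (hX : IsMedian X)
include hX

theorem isHS_compl {h : Set V} (hh : IsHS X h) : IsHS X hᶜ := by
  obtain ⟨a, b, hab, rfl⟩ := hh
  exact ⟨b, a, hab.symm, hX.hs_compl hab⟩

omit hX in
theorem hs_isHS {a b : V} (h : X.Adj a b) : IsHS X (hs X a b) := ⟨a, b, h, rfl⟩

theorem mem_btw {h : Set V} (hh : IsHS X h) {x y z : V} (hx : x ∈ h) (hy : y ∈ h)
    (hz : Btw X x z y) : z ∈ h := by
  obtain ⟨a, b, hab, rfl⟩ := hh
  exact hX.hs_btw hab hx hy hz

theorem not_mem_btw {h : Set V} (hh : IsHS X h) {x y z : V} (hx : x ∉ h) (hy : y ∉ h)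
    (hz : Btw X x z y) : z ∉ h := by
  obtain ⟨a, b, hab, rfl⟩ := hh
  exact hX.not_hs_btw hab hx hy hz

theorem eq_hs {h : Set V} (hh : IsHS X h) {c d : V} (hcd : X.Adj c d) (hc : c ∈ h) (hd : d ∉ h) :
    h = hs X c d := by
  obtain ⟨a, b, hab, rfl⟩ := hh
  exact (hX.hs_eq hab hcd hc hd).symm

theorem hull_conv (S : Set V) : IsConv X (hull X S) := by
  intro x hx y hy z hz h hh hS
  exact hX.mem_btw hh (hx h hh hS) (hy h hh hS) hz

theorem hs_conv {h : Set V} (hh : IsHS X h) : IsConv X h :=
  fun _ hx _ hy _ hz => hX.mem_btw hh hx hy hz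

/-- recursion for separating halfspaces -/
theorem sep_step {x x1 y : V} (h1 : X.Adj x x1) (h2 : Btw X x x1 y) :
    Sep X x y = insert (hs X x x1) (Sep X x1 y) := by
  ext h
  constructor
  · rintro ⟨hh, hx, hy⟩
    by_cases hx1 : x1 ∈ h
    · right; exact ⟨hh, hx1, hy⟩
    · left; exact hX.eq_hs hh h1 hx hx1
  · rintro (rfl | ⟨hh, hx1, hy⟩)
    · refine ⟨hs_isHS h1, hX.left_mem_hs h1, ?_⟩
      rw [hX.not_mem_hs_iff h1]
      unfold Btw at h2
      rw [adj_dist h1] at h2
      rw [X.dist_comm (u := y) (v := x), X.dist_comm (u := y) (v := x1)]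
      omega
    · refine ⟨hh, ?_, hy⟩
      by_contra hx
      exact hX.not_mem_btw hh hx hy h2 hx1

theorem sep_finite_ncard : ∀ (n : ℕ) (x y : V), X.dist x y = n →
    (Sep X x y).Finite ∧ (Sep X x y).ncard = n := by
  intro n
  induction n with
  | zero =>
    intro x y h
    have : x = y := (hX.conn.dist_eq_zero_iff).1 h
    subst this
    have : Sep X x x = ∅ := by
      ext h; simp only [Set.mem_empty_iff_false, iff_false]
      rintro ⟨-, h1, h2⟩; exact h2 h1
    rw [this]; simp
  | succ n ih =>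
    intro x y h
    have hne : x ≠ y := by rintro rfl; simp at h
    obtain ⟨x1, h1, h2⟩ := exists_step' hX.conn hne
    have hd : X.dist x1 y = n := by
      unfold Btw at h2; rw [adj_dist h1] at h2; omega
    obtain ⟨i1, i2⟩ := ih x1 y hd
    rw [hX.sep_step h1 h2]
    refine ⟨i1.insert _, ?_⟩
    rw [Set.ncard_insert_of_notMem _ i1, i2]
    rintro ⟨-, h3, -⟩
    exact hX.right_not_mem_hs h1 h3

theorem sep_finite (x y : V) : (Sep X x y).Finite := (hX.sep_finite_ncard _ x y rfl).1

theorem sep_ncard (x y : V) : (Sep X x y).ncard = X.dist x y := (hX.sep_finite_ncard _ x y rfl).2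

theorem exists_sep {x y : V} (h : x ≠ y) : ∃ s, IsHS X s ∧ x ∈ s ∧ y ∉ s := by
  have h1 : 0 < (Sep X x y).ncard := by
    rw [hX.sep_ncard]; exact hX.conn.pos_dist_of_ne h
  obtain ⟨s, hs⟩ := (Set.ncard_pos (hX.sep_finite x y)).1 h1
  exact ⟨s, hs⟩

theorem dist_le_of_sep {x y z w : V} (h : Sep X x y ⊆ Sep X z w) : X.dist x y ≤ X.dist z w := by
  rw [← hX.sep_ncard, ← hX.sep_ncard]
  exact Set.ncard_le_ncard h (hX.sep_finite z w)

/-- the median -/
noncomputable def _root_.Pool.Agent.Helper10.VR.med {X : SimpleGraph V} (hX : IsMedian X)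
    (x y z : V) : V := (hX.median x y z).choose

theorem med_spec (x y z : V) : Btw X x (med hX x y z) y ∧ Btw X y (med hX x y z) z ∧
    Btw X x (med hX x y z) z := (hX.median x y z).choose_spec.1

theorem med_unique {x y z m : V} (h1 : Btw X x m y) (h2 : Btw X y m z) (h3 : Btw X x m z) :
    m = med hX x y z := (hX.median x y z).choose_spec.2 m ⟨h1, h2, h3⟩

theorem med_comm12 (x y z : V) : med hX x y z = med hX y x z := by
  obtain ⟨h1, h2, h3⟩ := hX.med_spec x y z
  exact hX.med_unique h1.symm h3 h2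

theorem med_comm23 (x y z : V) : med hX x y z = med hX x z y := by
  obtain ⟨h1, h2, h3⟩ := hX.med_spec x y z
  exact hX.med_unique h3 h2.symm h1

theorem med_comm13 (x y z : V) : med hX x y z = med hX z y x := by
  obtain ⟨h1, h2, h3⟩ := hX.med_spec x y z
  exact hX.med_unique h2.symm h1.symm h3.symm

theorem med_mem12 {h : Set V} (hh : IsHS X h) {x y : V} (z : V) (hx : x ∈ h) (hy : y ∈ h) :
    med hX x y z ∈ h := hX.mem_btw hh hx hy (hX.med_spec x y z).1

theorem med_mem13 {h : Set V} (hh : IsHS X h) {x z : V} (y : V) (hx : x ∈ h) (hz : z ∈ h) :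
    med hX x y z ∈ h := hX.mem_btw hh hx hz (hX.med_spec x y z).2.2

theorem med_mem23 {h : Set V} (hh : IsHS X h) {y z : V} (x : V) (hy : y ∈ h) (hz : z ∈ h) :
    med hX x y z ∈ h := hX.mem_btw hh hy hz (hX.med_spec x y z).2.1

/-- membership of the median in a halfspace is decided by majority. -/
theorem med_mem_iff {h : Set V} (hh : IsHS X h) {x y z : V} :
    med hX x y z ∈ h ↔ (x ∈ h ∧ y ∈ h) ∨ (y ∈ h ∧ z ∈ h) ∨ (x ∈ h ∧ z ∈ h) := by
  constructor
  · intro hm
    by_contra hcon
    push Not at hcon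
    obtain ⟨h1, h2, h3⟩ := hcon
    have hc := hX.isHS_compl hh
    by_cases hx : x ∈ h
    · exact hX.med_mem23 hc x (h1 hx) (h3 hx) hm
    · by_cases hy : y ∈ h
      · exact hX.med_mem13 hc y hx (h2 hy) hm
      · exact hX.med_mem12 hc z hx hy hm
  · rintro (⟨h1, h2⟩ | ⟨h1, h2⟩ | ⟨h1, h2⟩)
    · exact hX.med_mem12 hh z h1 h2
    · exact hX.med_mem23 hh x h1 h2
    · exact hX.med_mem13 hh y h1 h2

/-- The median is 1-Lipschitz in the third variable. -/
theorem dist_med_le (x y z z' : V) : X.dist (med hX x y z) (med hX x y z') ≤ X.dist z z' := by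
  apply hX.dist_le_of_sep
  rintro h ⟨hh, h1, h2⟩
  rw [hX.med_mem_iff hh] at h1 h2
  refine ⟨hh, ?_, ?_⟩ <;> tauto

theorem dist_med_le1 (x x' y z : V) : X.dist (med hX x y z) (med hX x' y z) ≤ X.dist x x' := by
  rw [hX.med_comm13 x, hX.med_comm13 x']
  exact hX.dist_med_le _ _ _ _

theorem dist_med_le2 (x y y' z : V) : X.dist (med hX x y z) (med hX x y' z) ≤ X.dist y y' := by
  rw [hX.med_comm23 x y, hX.med_comm23 x y']
  exact hX.dist_med_le _ _ _ _

theorem btw_of_forall {x y z : V} (h : ∀ s, IsHS X s → x ∈ s → y ∈ s → z ∈ s) : Btw X x z y := by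
  by_cases hz : z = med hX x y z
  · rw [hz]; exact (hX.med_spec x y z).1
  · exfalso
    obtain ⟨s, hs, h1, h2⟩ := hX.exists_sep hz
    rw [hX.med_mem_iff hs] at h2
    have hc := hX.isHS_compl hs
    have hx : x ∉ s := by tauto
    have hy : y ∉ s := by tauto
    exact h _ hc hx hy h1

theorem med_of_btw {x y z : V} (h : Btw X x z y) : med hX x y z = z :=
  (hX.med_unique h (btw_right _ _) (btw_right _ _)).symm

/-- a point close to the three sides of a triangle is close to the median -/
theorem dist_med_three {x y z p p1 p2 p3 : V} {M : ℕ} (h1 : Btw X x p1 y) (h2 : Btw X y p2 z)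
    (h3 : Btw X x p3 z) (d1 : X.dist p p1 ≤ M) (d2 : X.dist p p2 ≤ M) (d3 : X.dist p p3 ≤ M) :
    X.dist p (med hX x y z) ≤ 3 * M := by
  have key : Sep X p (med hX x y z) ⊆ Sep X p p1 ∪ Sep X p p2 ∪ Sep X p p3 := by
    rintro h ⟨hh, hp, hm⟩
    rw [hX.med_mem_iff hh] at hm
    have hm' : (x ∉ h ∧ y ∉ h) ∨ (y ∉ h ∧ z ∉ h) ∨ (x ∉ h ∧ z ∉ h) := by tauto
    rcases hm' with ⟨a, b⟩ | ⟨a, b⟩ | ⟨a, b⟩
    · left; left; exact ⟨hh, hp, hX.not_mem_btw hh a b h1⟩
    · left; right; exact ⟨hh, hp, hX.not_mem_btw hh a b h2⟩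
    · right; exact ⟨hh, hp, hX.not_mem_btw hh a b h3⟩
  rw [← hX.sep_ncard]
  have f1 := hX.sep_finite p p1
  have f2 := hX.sep_finite p p2
  have f3 := hX.sep_finite p p3
  calc (Sep X p (med hX x y z)).ncard ≤ (Sep X p p1 ∪ Sep X p p2 ∪ Sep X p p3).ncard :=
        Set.ncard_le_ncard key ((f1.union f2).union f3)
    _ ≤ (Sep X p p1 ∪ Sep X p p2).ncard + (Sep X p p3).ncard := Set.ncard_union_le _ _
    _ ≤ (Sep X p p1).ncard + (Sep X p p2).ncard + (Sep X p p3).ncard := by
        have := Set.ncard_union_le (Sep X p p1) (Sep X p p2)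
        omega
    _ ≤ 3 * M := by rw [hX.sep_ncard, hX.sep_ncard, hX.sep_ncard]; omega

/-- gates -/
theorem exists_gate {S : Set V} (hS : IsConv X S) (hne : S.Nonempty) (x : V) :
    ∃ p ∈ S, ∀ y ∈ S, Btw X x p y := by
  classical
  obtain ⟨y0, hy0⟩ := hne
  have hex : ∃ n, ∃ p ∈ S, X.dist x p = n := ⟨_, y0, hy0, rfl⟩
  obtain ⟨p, hp, hpd⟩ := Nat.find_spec hex
  refine ⟨p, hp, fun y hy => ?_⟩
  have hmin : ∀ q ∈ S, X.dist x p ≤ X.dist x q := by
    intro q hq
    rw [hpd]
    exact Nat.find_min' hex ⟨q, hq, rfl⟩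
  obtain ⟨m1, m2, m3⟩ := hX.med_spec x y p
  have hm : med hX x y p ∈ S := hS y hy p hp _ m2
  have h1 := hmin _ hm
  have h2 : X.dist (med hX x y p) p = 0 := by
    unfold Btw at m3; omega
  have h3 : med hX x y p = p := (hX.conn.dist_eq_zero_iff).1 h2
  rw [h3] at m1
  exact m1

/-- opposite sides of a square are parallel -/
theorem square_hs {x y z t : V} (h1 : X.Adj x y) (h2 : X.Adj y z) (h3 : X.Adj z t) (h4 : X.Adj t x)
    (hxz : x ≠ z) (hyt : y ≠ t) : hs X x y = hs X t z := by
  symm
  refine hX.hs_eq h1 h3.symm ?_ ?_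
  · rw [hX.mem_hs_iff h1, hX.dist_two h4 h1.symm (Ne.symm hyt), adj_dist h4]
  · rw [hX.not_mem_hs_iff h1, hX.dist_two (v := z) (w := x) h2.symm h1 (Ne.symm hxz),
      adj_dist h2.symm]

theorem square_crosses {x y z t : V} (h1 : X.Adj x y) (h2 : X.Adj y z) (h3 : X.Adj z t)
    (h4 : X.Adj t x) (hxz : x ≠ z) (hyt : y ≠ t) : Crosses (hs X x y) (hs X x t) := by
  have e1 := hX.square_hs h1 h2 h3 h4 hxz hyt
  have e2 := hX.square_hs h4.symm h3.symm h2.symm h1.symm hxz hyt.symm
  refine ⟨⟨x, hX.left_mem_hs h1, hX.left_mem_hs h4.symm⟩, ⟨t, ?_, hX.right_not_mem_hs h4.symm⟩,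
    ⟨y, hX.right_not_mem_hs h1, ?_⟩, ⟨z, ?_, ?_⟩⟩
  · rw [e1]; exact hX.left_mem_hs h3.symm
  · rw [e2]; exact hX.left_mem_hs h2
  · rw [e1]; exact hX.right_not_mem_hs h3.symm
  · rw [e2]; exact hX.right_not_mem_hs h2

/-- a corner whose hyperplanes cross spans a square -/
theorem corner_square {u v w : V} (h1 : X.Adj u v) (h2 : X.Adj u w) (hvw : v ≠ w)
    (hc : ((hs X u v)ᶜ ∩ (hs X u w)ᶜ).Nonempty) :
    ∃ s, X.Adj v s ∧ X.Adj w s ∧ s ≠ u := by
  obtain ⟨p, hp1, hp2⟩ := hc
  rw [Set.mem_compl_iff, hX.not_mem_hs_iff h1] at hp1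
  rw [Set.mem_compl_iff, hX.not_mem_hs_iff h2] at hp2
  obtain ⟨t, t1, t2, -, t4⟩ := hX.quadrangle h1.symm h2.symm hvw hp1 hp2
  exact ⟨t, t1, t2, t4⟩

/-- distinct edges issuing from a vertex have distinct halfspaces -/
theorem hs_ne_of_ne {u v w : V} (h1 : X.Adj u v) (h2 : X.Adj u w) (hvw : v ≠ w) :
    hs X u v ≠ hs X u w := by
  intro h
  have hd := hX.dist_two h1.symm h2.symm hvw
  have : v ∉ hs X u w := by rw [← h]; exact hX.right_not_mem_hs h1
  rw [hX.not_mem_hs_iff h2, hd, adj_dist h1.symm] at this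
  omega

end IsMedian

end Pool.Agent.Helper10.VR
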