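import Pool.Agent.Helper10.VR.Final

/-!
# Reduction of the main theorem to `retract_of_ind`
-/

namespace Pool.Agent.Helper10.VR

open SimpleGraph
open scoped Pointwise

universe u v

/-- finite index subgroups act cofinitely -/
theorem cofinite_of_finiteIndex {Γ : Type u} [Group Γ] {V : Type v} [MulAction Γ V]
    (M : Subgroup Γ) [M.FiniteIndex] (h : ∃ F : Set V, F.Finite ∧ ∀ x, ∃ g : Γ, g • x ∈ F) :
    ∃ F : Set V, F.Finite ∧ ∀ x, ∃ m ∈ M, m • x ∈ F := by
  obtain ⟨F, hF, hFV⟩ := h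
  have hfin : Finite (Γ ⧸ M) := inferInstance
  refine ⟨⋃ i : Γ ⧸ M, (fun y => (i.out)⁻¹ • y) '' F, Set.finite_iUnion (fun i => hF.image _), ?_⟩
  intro x
  obtain ⟨g, hg⟩ := hFV x
  refine ⟨((g : Γ ⧸ M).out)⁻¹ * g, QuotientGroup.eq.1 (QuotientGroup.out_eq' (g : Γ ⧸ M)), ?_⟩
  rw [Set.mem_iUnion]
  exact ⟨(g : Γ ⧸ M), g • x, hg, by rw [mul_smul]⟩

/-- existence of the induced data -/
theorem exists_ind {G : Type u} [Group G] {V : Type v} {X : SimpleGraph V} (G₀ : Subgroup G)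
    [G₀.FiniteIndex] [MulAction G₀ V] (hS : CompactSpecialAction X G₀) :
    ∃ (N : Subgroup G) (_ : N.Normal) (_ : N.FiniteIndex) (_ : MulAction N V) (f : G → V),
      Ind N X f := by
  obtain ⟨N1, hN1, hst⟩ := exists_strongSpecial hS
  let N : Subgroup G := (N1.map G₀.subtype).normalCore
  have hNn : N.Normal := inferInstance
  have hNf : N.FiniteIndex := map_core_finiteIndex N1 hN1
  have hle : N ≤ N1.map G₀.subtype := Subgroup.normalCore_le _
  have hNG : N ≤ G₀ := hle.trans (by rintro _ ⟨x, -, rfl⟩; exact x.2)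
  let j : N →* N1 := (Subgroup.inclusion hNG).codRestrict N1 (by
    intro n
    obtain ⟨m, hm, hmn⟩ := hle n.2
    have : (Subgroup.inclusion hNG n) = m := Subtype.ext hmn.symm
    rw [this]; exact hm)
  have hj : Function.Injective j := by
    intro a b hab
    have h1 := congrArg (fun t : N1 => ((t : G₀) : G)) hab
    exact Subtype.ext h1
  let act : MulAction N V := MulAction.compHom V j
  have hact : ∀ (n : N) (x : V), n • x = (⟨n, hNG n.2⟩ : G₀) • x := fun _ _ => rfl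
  have hstN : StrongSpecial X N := hst.restrict j hj
  -- cofiniteness
  have hcof : ∃ F : Set V, F.Finite ∧ ∀ x, ∃ n : N, n • x ∈ F := by
    obtain ⟨F, hF, hFV⟩ := cofinite_of_finiteIndex (N.subgroupOf G₀) hS.cofinite
    refine ⟨F, hF, fun x => ?_⟩
    obtain ⟨m, hm, hmx⟩ := hFV x
    exact ⟨⟨m, hm⟩, by rw [hact]; exact hmx⟩
  obtain ⟨x0⟩ := hS.median.conn.nonempty
  let f : G → V := fun g => (⟨g * ((g : G ⧸ N).out)⁻¹, out_mul_mem g⟩ : N) • x0
  refine ⟨N, hNn, hNf, act, f, ⟨hstN, hS.locallyFinite, hcof, ?_⟩⟩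
  intro n g
  have hq : (((n : G) * g : G) : G ⧸ N) = (g : G ⧸ N) := by
    rw [QuotientGroup.eq]
    have := hNn.conj_mem _ (N.inv_mem n.2) g⁻¹
    simpa [mul_assoc] using this
  change (⟨(n : G) * g * ((((n : G) * g : G) : G ⧸ N).out)⁻¹, _⟩ : N) • x0 =
    n • ((⟨g * ((g : G ⧸ N).out)⁻¹, _⟩ : N) • x0)
  rw [smul_smul]
  congr 1
  apply Subtype.ext
  change (n : G) * g * ((((n : G) * g : G) : G ⧸ N).out)⁻¹ = n * (g * ((g : G ⧸ N).out)⁻¹)
  rw [hq, mul_assoc]

/-- independence of quasiconvexity of the generating set, for hyperbolic groups -/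
theorem qconv_change {G : Type u} [Group G] {S₁ S₂ : Set G} (h1 : S₁.Finite)
    (h1' : Subgroup.closure S₁ = ⊤) (h2 : S₂.Finite) (h2' : Subgroup.closure S₂ = ⊤) {δ : ℕ}
    (hδ : Slim (mulCayley S₁) δ) {B : Set G} (hB : QConv (mulCayley S₂) B) :
    QConv (mulCayley S₁) B := by
  have hc1 := cayley_connected S₁ h1'
  have hc2 := cayley_connected S₂ h2'
  have hco : Coarse (mulCayley S₁) (mulCayley S₂) (id : G → G) := by
    constructor
    · obtain ⟨L, hL⟩ := ((h1.union h1.inv).image (fun s => (mulCayley S₂).dist 1 s)).bddAbove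
      refine ⟨L, lip_of_step hc1 hc2 ?_⟩
      intro a b hab
      rw [mulCayley_adj] at hab
      have e := cayley_dist S₂ h2' a⁻¹ a b
      rw [inv_mul_cancel] at e
      change (mulCayley S₂).dist a b ≤ L
      rw [← e]
      refine hL ⟨a⁻¹ * b, ?_, rfl⟩
      rcases hab.2 with h | h
      · left; exact h
      · right; rw [Set.mem_inv]; simpa using h
    · intro R
      obtain ⟨C, hC⟩ := ((cayley_ball_finite S₂ h2 h2' R 1).image
        (fun s => (mulCayley S₁).dist 1 s)).bddAbove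
      refine ⟨C, fun a b hab => ?_⟩
      have e1 := cayley_dist S₁ h1' a⁻¹ a b
      have e2 := cayley_dist S₂ h2' a⁻¹ a b
      rw [inv_mul_cancel] at e1 e2
      rw [← e1]
      refine hC ⟨a⁻¹ * b, ?_, rfl⟩
      change (mulCayley S₂).dist 1 (a⁻¹ * b) ≤ R
      rw [e2]; exact hab
    · exact ⟨0, fun x => ⟨x, by simp⟩⟩
  obtain ⟨M, hM⟩ := coarse_geod' hδ hc1 hc2 hco
  obtain ⟨κ, hκ⟩ := hB
  obtain ⟨C, hC⟩ := hco.proper (M + κ)
  refine ⟨C, ?_⟩
  intro b hb b' hb' u hu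
  obtain ⟨p, hp, hpd⟩ := hM b b' u hu
  obtain ⟨t, ht, htd⟩ := hκ b hb b' hb' p hp
  refine ⟨t, ht, hC _ _ ?_⟩
  have := hc2.dist_triangle (u := u) (v := p) (w := t)
  change (mulCayley S₂).dist u t ≤ M + κ
  change (mulCayley S₂).dist u p ≤ M at hpd
  omega

/-- **Main theorem** -/
theorem main {G : Type u} [Group G] {V : Type v} {X : SimpleGraph V} (G₀ : Subgroup G)
    [G₀.FiniteIndex] [MulAction G₀ V] (hS : CompactSpecialAction X G₀)
    {S₁ S₂ : Set G} (h1 : S₁.Finite)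
    (h1' : Subgroup.closure S₁ = ⊤) (h2 : S₂.Finite) (h2' : Subgroup.closure S₂ = ⊤) {δ : ℕ}
    (hδ : FourPoint (mulCayley S₁) δ) (H : Subgroup G) (hH : QConv (mulCayley S₂) (H : Set G)) :
    ∃ K : Subgroup G, K.FiniteIndex ∧ ∃ hHK : H ≤ K,
      ∃ ρ : K →* H, ∀ h : H, ρ ⟨h, hHK h.2⟩ = h := by
  obtain ⟨N, hNn, hNf, act, f, hI⟩ := exists_ind G₀ hS
  have hslim := slim_of_fourPoint (cayley_connected S₁ h1') hδ
  exact retract_of_ind hI h1 h1' hslim H (qconv_change h1 h1' h2 h2' hslim hH)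

end Pool.Agent.Helper10.VR
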