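import Pool.Agent.Helper10.VR.Geometry

/-!
# Separability of (double cosets of) wall stabilizers
-/

namespace Pool.Agent.Helper10.VR

open SimpleGraph
open scoped Pointwise

universe u v

section general

variable {V : Type v} {X : SimpleGraph V}

theorem exists_cross (hX : IsMedian X) {h : Set V} :
    ∀ (n : ℕ) (x y : V), X.dist x y = n → x ∈ h → y ∉ h →
      ∃ e e', X.Adj e e' ∧ e ∈ h ∧ e' ∉ h ∧ X.dist x e ≤ n := by
  intro n
  induction n with
  | zero =>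
    intro x y hxy hx hy
    have : x = y := (hX.conn.dist_eq_zero_iff).1 hxy
    subst this
    exact absurd hx hy
  | succ n ih =>
    intro x y hxy hx hy
    have hne : x ≠ y := by rintro rfl; exact hy hx
    obtain ⟨x', h1, h2⟩ := exists_step hX.conn hne
    by_cases hx' : x' ∈ h
    · obtain ⟨e, e', a1, a2, a3, a4⟩ := ih x' y (by omega) hx' hy
      refine ⟨e, e', a1, a2, a3, ?_⟩
      have := hX.conn.dist_triangle (u := x) (v := x') (w := e)
      rw [adj_dist h1] at this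
      omega
    · exact ⟨x, x', h1, hx, hx', by simp⟩

theorem qconv_singleton {U : Type*} {Z : SimpleGraph U} (hc : Z.Connected) (a : U) :
    QConv Z {a} := by
  refine ⟨0, ?_⟩
  rintro b rfl b' rfl u hu
  refine ⟨b', rfl, ?_⟩
  rw [btw_self hc hu]; simp

end general

section

variable {G : Type u} [Group G] {V : Type v} {N : Subgroup G} [MulAction N V]
  {X : SimpleGraph V} {f : G → V} [N.Normal] [N.FiniteIndex] (hI : Ind N X f)
  {S : Set G} (hfin : S.Finite) (hS : Subgroup.closure S = ⊤) {δ : ℕ}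
  (hδ : Slim (mulCayley S) δ)

/-- `n ∈ N` with `q n q⁻¹ ∈ B` -/
def conjSub (N : Subgroup G) (q : G) (B : Subgroup G) : Subgroup N :=
  B.comap ((MulAut.conj q).toMonoidHom.comp N.subtype)

omit [N.Normal] [N.FiniteIndex] [MulAction N V] in
theorem mem_conjSub {q : G} {B : Subgroup G} {n : N} : n ∈ conjSub N q B ↔ q * n * q⁻¹ ∈ B := by
  unfold conjSub
  rw [Subgroup.mem_comap]
  simp

omit [N.FiniteIndex] [MulAction N V] in
theorem cj_mem_conjSub {q : G} {B : Subgroup G} {n : N} (hn : (n : G) ∈ B) :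
    cj q n ∈ conjSub N q B := by
  rw [mem_conjSub, cj_val]
  have : q * (q⁻¹ * n * q) * q⁻¹ = n := by group
  rw [this]; exact hn

include hI hfin hS hδ in
theorem exists_core (B : Subgroup G) (hBN : B ≤ N) (hB : QConv (mulCayley S) (B : Set G)) (q : G)
    {F0 : Set V} (hF0 : F0.Finite) : ∃ Y : Set V, IsConv X Y ∧ F0 ⊆ Y ∧
      (∀ b ∈ conjSub N q B, ∀ y ∈ Y, b • y ∈ Y) ∧
      ∃ F : Set V, F.Finite ∧ ∀ y ∈ Y, ∃ b ∈ conjSub N q B, b • y ∈ F := by
  classical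
  have hX := hI.strong.median
  have hadj := hI.strong.adj
  have hc := cayley_connected S hS
  have hf := (coarse_f hI hfin hS).translate hS q
  have hF1 : (insert (f q⁻¹) F0).Finite := hF0.insert _
  set F1 := insert (f q⁻¹) F0 with hF1def
  let T : Set V := {v | ∃ b ∈ conjSub N q B, ∃ x ∈ F1, v = b • x}
  obtain ⟨κ, hκ⟩ := (hF1.image (fun x => X.dist x (f q⁻¹))).bddAbove
  have hT : QConv X T := by
    refine qconv_transfer hδ hc hX hf hB (κ := κ) ?_ ?_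
    · rintro s ⟨b, hb, x, hx, rfl⟩
      refine ⟨q * b * q⁻¹, mem_conjSub.1 hb, ?_⟩
      have e : q⁻¹ * (q * b * q⁻¹) = b * q⁻¹ := by group
      change X.dist (b • x) (f (q⁻¹ * (q * b * q⁻¹))) ≤ κ
      rw [e, hI.equi, dist_f hI]
      exact hκ ⟨x, hx, rfl⟩
    · intro b1 hb1
      have hb1N : b1 ∈ N := hBN hb1
      refine ⟨f (q⁻¹ * b1), ⟨cj q ⟨b1, hb1N⟩, cj_mem_conjSub hb1, f q⁻¹,
        Set.mem_insert _ _, ?_⟩, by simp⟩
      rw [← hI.equi, cj_val]
      congr 1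
      group
  obtain ⟨κ', hκ'⟩ := hT
  obtain ⟨D, hD⟩ := exists_degBd hI
  have hTne : T.Nonempty := ⟨f q⁻¹, 1, Subgroup.one_mem _, f q⁻¹, Set.mem_insert _ _, by simp⟩
  have hTinv : ∀ b ∈ conjSub N q B, ∀ t ∈ T, b • t ∈ T := by
    rintro b hb t ⟨b', hb', x, hx, rfl⟩
    exact ⟨b * b', Subgroup.mul_mem _ hb hb', x, hx, by rw [mul_smul]⟩
  refine ⟨hull X T, hX.hull_conv T, ?_, ?_, ⋃ x ∈ F1, {y | X.dist x y ≤ κ' * D}, ?_, ?_⟩
  · intro x hx
    exact subset_hull X T ⟨1, Subgroup.one_mem _, x, Set.mem_insert_of_mem _ hx, by simp⟩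
  · intro b hb y hy h hh hTh
    have h1 : y ∈ b⁻¹ • h := by
      apply hy _ (smul_isHS hX.conn hadj b⁻¹ hh)
      intro t ht
      rw [Set.mem_smul_set_iff_inv_smul_mem, inv_inv]
      exact hTh (hTinv b hb t ht)
    rw [Set.mem_smul_set_iff_inv_smul_mem, inv_inv] at h1
    exact h1
  · exact hF1.biUnion (fun x _ => finite_ball hX.conn hI.lf _ x)
  · intro y hy
    obtain ⟨s, ⟨b, hb, x, hx, rfl⟩, hd⟩ := hull_close hX hD hTne hκ' hy
    refine ⟨b⁻¹, Subgroup.inv_mem _ hb, ?_⟩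
    rw [Set.mem_iUnion₂]
    refine ⟨x, hx, ?_⟩
    change X.dist x (b⁻¹ • y) ≤ κ' * D
    have := dist_f hI b x (b⁻¹ • y)
    rw [smul_inv_smul] at this
    rw [← this, X.dist_comm]
    exact hd

include hI hfin hS hδ in
theorem exists_K (B : Subgroup G) (hBN : B ≤ N) (hB : QConv (mulCayley S) (B : Set G)) (q : G)
    {F0 : Set V} (hF0 : F0.Finite) {y0 : V} (hy0 : y0 ∈ F0) : ∃ K : Subgroup N, K.FiniteIndex ∧
      conjSub N q B ≤ K ∧
      (∀ g ∈ K, ∀ x x' z z', x ∈ F0 → x' ∈ F0 → z ∈ F0 → z' ∈ F0 → X.Adj x x' →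
        X.Adj z z' → hs X (g • x) (g • x') = hs X z z' →
          ∃ b ∈ conjSub N q B, hs X (b • x) (b • x') = hs X z z') ∧
      (∀ g ∈ K, g • y0 ∈ F0 → g ∈ conjSub N q B) := by
  obtain ⟨Y, hY, hFY, hBY, F, hF, hFc⟩ := exists_core hI hfin hS hδ B hBN hB q hF0
  obtain ⟨K, hK, hBK, -, h1, h2⟩ := completion hI.strong.median hI.strong.labelled hY hBY
    (hFY hy0) hF hFc
  refine ⟨K, hK, hBK, ?_, fun g hg hgy => h2 g hg (hFY hgy)⟩
  intro g hg x x' z z' hx hx' hz hz' hxx hzz hh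
  obtain ⟨b, hb, hb'⟩ := h1 g hg
  exact ⟨b, hb, hb' x x' z z' (hFY hx) (hFY hx') (hFY hz) (hFY hz') hxx hzz hh⟩

omit [N.Normal] [MulAction N V] in
theorem map_core_finiteIndex (K : Subgroup N) (hK : K.FiniteIndex) :
    (K.map N.subtype).normalCore.FiniteIndex := by
  have : (K.map N.subtype).FiniteIndex := by
    constructor
    rw [Subgroup.index_map_subtype]
    exact Nat.mul_ne_zero hK.index_ne_zero Subgroup.FiniteIndex.index_ne_zero
  infer_instance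

include hI hfin hS hδ in
/-- residual finiteness -/
theorem sep_zero {g : G} (hg : g ≠ 1) :
    ∃ G₁ : Subgroup G, G₁.Normal ∧ G₁.FiniteIndex ∧ g ∉ G₁ := by
  by_cases hgN : g ∈ N
  · have hc := cayley_connected S hS
    have hq : QConv (mulCayley S) ((⊥ : Subgroup G) : Set G) := by
      rw [Subgroup.coe_bot]; exact qconv_singleton hc 1
    obtain ⟨K, hK, -, -, h2⟩ := exists_K hI hfin hS hδ ⊥ bot_le hq 1
      (F0 := {f 1, (⟨g, hgN⟩ : N) • f 1}) (by simp) (y0 := f 1) (by simp)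
    refine ⟨(K.map N.subtype).normalCore, inferInstance, map_core_finiteIndex K hK, ?_⟩
    intro hmem
    have h3 := Subgroup.normalCore_le _ hmem
    obtain ⟨k, hk, hkg⟩ := h3
    have hk' : k = ⟨g, hgN⟩ := Subtype.ext hkg
    subst hk'
    have h4 := h2 _ hk (by simp)
    rw [mem_conjSub, Subgroup.mem_bot] at h4
    apply hg
    simpa using h4
  · exact ⟨N, inferInstance, inferInstance, hgN⟩

include hfin hS hδ in
/-- separation of walls modulo a quasiconvex subgroup -/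
theorem sep_aux (B : Subgroup G) (hBN : B ≤ N) (hB : QConv (mulCayley S) (B : Set G))
    {u v : Set G} (hu : u ∈ (indWalls hI).W) (hv : v ∈ (indWalls hI).W) :
    ∃ G₁ : Subgroup G, G₁.Normal ∧ G₁.FiniteIndex ∧
      ∀ n ∈ G₁, ∀ b ∈ B, v = (n * b) • u → ∃ b' ∈ B, v = b' • u := by
  classical
  have hX := hI.strong.median
  have hadj := hI.strong.adj
  obtain ⟨-, -, q, h, ⟨x, x', hxx, rfl⟩, rfl⟩ := hu
  have hfib := fiber_finite hI hv.1 hv.2.1 q
  -- choose dual edges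
  have hch : ∀ k : Set V, ∃ e : V × V, IsHS X k → X.Adj e.1 e.2 ∧ k = hs X e.1 e.2 := by
    intro k
    by_cases hk : IsHS X k
    · obtain ⟨a, b, hab, hk'⟩ := hk
      exact ⟨(a, b), fun _ => ⟨hab, hk'⟩⟩
    · exact ⟨(x, x), fun h => absurd h hk⟩
  choose e he using hch
  let F0 : Set V := {x, x'} ∪ ((fun k => (e k).1) '' {h | IsHS X h ∧ tr f q h = v} ∪
    (fun k => (e k).2) '' {h | IsHS X h ∧ tr f q h = v})
  have hF0 : F0.Finite := by
    refine Set.Finite.union (by simp) ((hfib.image _).union (hfib.image _))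
  obtain ⟨K, hK, hBK, h1, -⟩ := exists_K hI hfin hS hδ B hBN hB q hF0 (y0 := x)
    (by left; simp)
  refine ⟨(K.map N.subtype).normalCore, inferInstance, map_core_finiteIndex K hK, ?_⟩
  intro n hn b hb hvn
  have hn' : q⁻¹ * n * q ∈ (K.map N.subtype).normalCore := by
    have := Subgroup.Normal.conj_mem (inferInstance : (K.map N.subtype).normalCore.Normal)
      n hn q⁻¹
    simpa using this
  obtain ⟨k, hk, hkn⟩ := Subgroup.normalCore_le _ hn'
  have hkn' : (k : G) = q⁻¹ * n * q := hkn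
  set b' : N := cj q ⟨b, hBN hb⟩ with hb'
  have hb'B : b' ∈ conjSub N q B := cj_mem_conjSub hb
  have hk' : k * b' ∈ K := K.mul_mem hk (hBK hb'B)
  have e1 : n * b = q * ((k * b' : N) : G) * q⁻¹ := by
    rw [Subgroup.coe_mul, hkn', hb', cj_val]
    change n * b = q * (q⁻¹ * n * q * (q⁻¹ * b * q)) * q⁻¹
    group
  have e2 : v = tr f q ((k * b') • hs X x x') := by
    rw [hvn, e1, conj_smul_tr hI]
  have hHS : IsHS X ((k * b') • hs X x x') := smul_isHS hX.conn hadj _ (IsMedian.hs_isHS hxx)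
  obtain ⟨e3, e4⟩ := he _ hHS
  have hmem : ((k * b') • hs X x x') ∈ {h | IsHS X h ∧ tr f q h = v} := ⟨hHS, e2.symm⟩
  rw [smul_hs hX.conn hadj] at e4 hmem
  obtain ⟨b'', hb'', e5⟩ := h1 (k * b') hk' x x' _ _ (by left; simp) (by left; simp)
    (by right; left; exact ⟨_, hmem, rfl⟩) (by right; right; exact ⟨_, hmem, rfl⟩) hxx
    (by rw [smul_hs hX.conn hadj] at e3; exact e3) e4
  refine ⟨q * b'' * q⁻¹, mem_conjSub.1 hb'', ?_⟩
  rw [conj_smul_tr hI, smul_hs hX.conn hadj, e5, ← e4, ← smul_hs hX.conn hadj, ← e2]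

include hfin hS hδ in
/-- wall stabilizers are quasiconvex -/
theorem stab_qconv {A : Set G} (hA : A ∈ (indWalls hI).W) :
    ∃ B : Subgroup G, B ≤ N ∧ (∀ b ∈ B, b • A = A) ∧ QConv (mulCayley S) (B : Set G) ∧
      ∃ Φ : Set G, Φ.Finite ∧ ∀ b : G, b • A = A → ∃ b1 ∈ B, ∃ φ ∈ Φ, b = b1 * φ := by
  classical
  have hX := hI.strong.median
  have hadj := hI.strong.adj
  have hc := cayley_connected S hS
  obtain ⟨⟨g1, hg1⟩, ⟨g2, hg2⟩, q, h, hh, rfl⟩ := hA
  have hf := (coarse_f hI hfin hS).translate hS q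
  let Sh : Subgroup N := MulAction.stabilizer N h
  let B : Subgroup G := Sh.map ((MulAut.conj q).toMonoidHom.comp N.subtype)
  have hBmem : ∀ b, b ∈ B ↔ ∃ s : N, s • h = h ∧ q * s * q⁻¹ = b := by
    intro b
    constructor
    · rintro ⟨s, hs, rfl⟩
      exact ⟨s, hs, by simp⟩
    · rintro ⟨s, hs, rfl⟩
      exact ⟨s, hs, by simp⟩
  have hBN : B ≤ N := by
    intro b hb
    obtain ⟨s, -, rfl⟩ := (hBmem b).1 hb
    exact Subgroup.Normal.conj_mem (inferInstance : N.Normal) _ s.2 q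
  have hBA : ∀ b ∈ B, b • tr f q h = tr f q h := by
    intro b hb
    obtain ⟨s, hs, rfl⟩ := (hBmem b).1 hb
    rw [conj_smul_tr hI, hs]
  -- the neighbourhoods
  let Q : ℕ → Set G := fun κ => {c | (∃ p ∈ h, X.dist (f (q⁻¹ * c)) p ≤ κ) ∧
    (∃ p, p ∉ h ∧ X.dist (f (q⁻¹ * c)) p ≤ κ)}
  have hQ : ∀ κ, ∃ Φ : Set G, Φ.Finite ∧ ∀ c ∈ Q κ, ∃ b1 ∈ B, ∃ φ ∈ Φ, c = b1 * φ := by
    intro κ
    obtain ⟨F, hF, hFV⟩ := hI.cof
    have hch : ∀ x y : V, ∃ m : N, (∃ m' : N, hs X (m' • x) (m' • y) = h) →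
        hs X (m • x) (m • y) = h := by
      intro x y
      by_cases hm : ∃ m' : N, hs X (m' • x) (m' • y) = h
      · obtain ⟨m, hm'⟩ := hm
        exact ⟨m, fun _ => hm'⟩
      · exact ⟨1, fun h => absurd h hm⟩
    choose m hm using hch
    have hE : (⋃ x ∈ F, (fun y => m x y • x) '' {y | X.Adj x y}).Finite :=
      hF.biUnion (fun x _ => (hI.lf x).image _)
    set E := ⋃ x ∈ F, (fun y => m x y • x) '' {y | X.Adj x y} with hEdef
    have hE2 : (⋃ e ∈ E, {y | X.dist e y ≤ 3 * κ}).Finite :=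
      hE.biUnion (fun e _ => finite_ball hX.conn hI.lf _ e)
    have hΦ := f_fiber_finite hI hE2
    refine ⟨(fun g => q * g) '' {g | f g ∈ ⋃ e ∈ E, {y | X.dist e y ≤ 3 * κ}}, hΦ.image _, ?_⟩
    rintro c ⟨⟨p, hp, hpd⟩, ⟨p', hp', hpd'⟩⟩
    obtain ⟨e, e', a1, a2, a3, a4⟩ := exists_cross hX _ p p' rfl hp hp'
    have hee : h = hs X e e' := hX.eq_hs hh a1 a2 a3
    obtain ⟨n, hn⟩ := hFV e
    have hadj' : X.Adj (n • e) (n • e') := hadj n _ _ a1
    have hm1 : hs X (m (n • e) (n • e') • (n • e)) (m (n • e) (n • e') • (n • e')) = h := by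
      apply hm
      refine ⟨n⁻¹, ?_⟩
      rw [inv_smul_smul, inv_smul_smul, ← hee]
    set mm := m (n • e) (n • e') with hmm
    have hmem : mm • n • e ∈ E := by
      rw [hEdef, Set.mem_iUnion₂]
      exact ⟨n • e, hn, n • e', hadj', rfl⟩
    -- the stabilizing element
    set s : N := n⁻¹ * mm⁻¹ with hs'
    have hsh : s • h = h := by
      have e1 : (mm * n) • h = h := by
        conv_lhs => rw [hee]
        rw [smul_hs hX.conn hadj, mul_smul, mul_smul]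
        exact hm1
      have e2 : s = (mm * n)⁻¹ := by rw [hs', mul_inv_rev]
      rw [e2, inv_smul_eq_iff]
      exact e1.symm
    have hse : e = s • (mm • n • e) := by
      rw [hs', mul_smul, inv_smul_smul, inv_smul_smul]
    refine ⟨q * s * q⁻¹, (hBmem _).2 ⟨s, hsh, rfl⟩, (q * s * q⁻¹)⁻¹ * c, ?_, by group⟩
    refine ⟨q⁻¹ * ((q * s * q⁻¹)⁻¹ * c), ?_, by group⟩
    have e3 : q⁻¹ * ((q * s * q⁻¹)⁻¹ * c) = ((s⁻¹ : N) : G) * (q⁻¹ * c) := by
      rw [Subgroup.coe_inv]; group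
    rw [Set.mem_ofPred_eq, e3, hI.equi, Set.mem_iUnion₂]
    refine ⟨mm • n • e, hmem, ?_⟩
    change X.dist (mm • n • e) (s⁻¹ • f (q⁻¹ * c)) ≤ 3 * κ
    have e4 := dist_f hI s (mm • n • e) (s⁻¹ • f (q⁻¹ * c))
    rw [smul_inv_smul, ← hse] at e4
    rw [← e4]
    have t1 := hX.conn.dist_triangle (u := e) (v := p) (w := f (q⁻¹ * c))
    have t2 := hX.conn.dist_triangle (u := p) (v := f (q⁻¹ * c)) (w := p')
    have s1 := X.dist_comm (u := e) (v := p)
    have s2 := X.dist_comm (u := p) (v := f (q⁻¹ * c))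
    omega
  obtain ⟨L, hL⟩ := hf.lip
  set κ1 := L * (mulCayley S).dist 1 g1 + L * (mulCayley S).dist 1 g2 with hκ1
  have hstab : ∀ b : G, b • tr f q h = tr f q h → b ∈ Q κ1 := by
    intro b hb
    have k1 := hL b (b * g1)
    have k2 := hL b (b * g2)
    have e0 : (mulCayley S).dist b (b * g1) = (mulCayley S).dist 1 g1 := by
      have := cayley_dist S hS b 1 g1
      rwa [mul_one] at this
    have e0' : (mulCayley S).dist b (b * g2) = (mulCayley S).dist 1 g2 := by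
      have := cayley_dist S hS b 1 g2
      rwa [mul_one] at this
    rw [e0] at k1
    rw [e0'] at k2
    refine ⟨⟨f (q⁻¹ * (b * g1)), ?_, by omega⟩, ⟨f (q⁻¹ * (b * g2)), ?_, by omega⟩⟩
    · have : b * g1 ∈ tr f q h := by
        rw [← hb]; exact Set.smul_mem_smul_set hg1
      exact this
    · intro hcon
      have h1 : b • g2 ∈ b • tr f q h := by rw [hb]; exact hcon
      rw [Set.smul_mem_smul_set_iff] at h1
      exact hg2 h1
  refine ⟨B, hBN, hBA, ?_, ?_⟩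
  · obtain ⟨M, hM⟩ := coarse_geod' hδ hc hX.conn hf
    obtain ⟨Φ, hΦ, hΦ'⟩ := hQ (M + 2 * κ1)
    obtain ⟨κ, hκ⟩ := (hΦ.image (fun φ => (mulCayley S).dist φ 1)).bddAbove
    refine ⟨κ, ?_⟩
    intro b hb b' hb' c hc'
    have hcQ : c ∈ Q (M + 2 * κ1) := by
      obtain ⟨p, hp, hpd⟩ := hM b b' c hc'
      obtain ⟨⟨x1, hx1, hxd1⟩, ⟨y1, hy1, hyd1⟩⟩ := hstab b (hBA b hb)
      obtain ⟨⟨x2, hx2, hxd2⟩, ⟨y2, hy2, hyd2⟩⟩ := hstab b' (hBA b' hb')
      have ep : med hX (f (q⁻¹ * b)) (f (q⁻¹ * b')) p = p := hX.med_of_btw hp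
      have close : ∀ z1 z2, X.dist (f (q⁻¹ * b)) z1 ≤ κ1 → X.dist (f (q⁻¹ * b')) z2 ≤ κ1 →
          X.dist (f (q⁻¹ * c)) (med hX z1 z2 p) ≤ M + 2 * κ1 := by
        intro z1 z2 h1 h2
        have t1 := hX.dist_med_le1 (f (q⁻¹ * b)) z1 (f (q⁻¹ * b')) p
        have t2 := hX.dist_med_le2 z1 (f (q⁻¹ * b')) z2 p
        rw [ep] at t1
        have t3 := hX.conn.dist_triangle (u := p) (v := med hX z1 (f (q⁻¹ * b')) p)
          (w := med hX z1 z2 p)
        have t4 := hX.conn.dist_triangle (u := f (q⁻¹ * c)) (v := p) (w := med hX z1 z2 p)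
        omega
      refine ⟨⟨med hX x1 x2 p, hX.med_mem12 hh p hx1 hx2, close x1 x2 hxd1 hxd2⟩,
        ⟨med hX y1 y2 p, ?_, close y1 y2 hyd1 hyd2⟩⟩
      exact hX.not_mem_btw hh hy1 hy2 (hX.med_spec y1 y2 p).1
    obtain ⟨b1, hb1, φ, hφ, hcb⟩ := hΦ' c hcQ
    refine ⟨b1, hb1, ?_⟩
    rw [hcb]
    have := cayley_dist S hS b1 φ 1
    rw [mul_one] at this
    rw [this]
    exact hκ ⟨φ, hφ, rfl⟩
  · obtain ⟨Φ, hΦ, hΦ'⟩ := hQ κ1
    exact ⟨Φ, hΦ, fun b hb => hΦ' b (hstab b hb)⟩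

omit [N.Normal] [N.FiniteIndex] [MulAction N V] in
/-- common finite index normal subgroup -/
theorem exists_common {ι : Type*} [Finite ι] {P : ι → Subgroup G → Prop}
    (hP : ∀ i H H', H' ≤ H → P i H → P i H')
    (hex : ∀ i, ∃ H : Subgroup G, H.Normal ∧ H.FiniteIndex ∧ P i H) :
    ∃ H : Subgroup G, H.Normal ∧ H.FiniteIndex ∧ ∀ i, P i H := by
  choose H h1 h2 h3 using hex
  refine ⟨⨅ i, H i, Subgroup.normal_iInf_normal h1, Subgroup.finiteIndex_iInf h2, fun i => ?_⟩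
  exact hP i (H i) _ (iInf_le H i) (h3 i)

include hfin hS hδ in
/-- double coset separation of walls -/
theorem sep_two {u v A : Set G} (hu : u ∈ (indWalls hI).W) (hv : v ∈ (indWalls hI).W)
    (hA : A ∈ (indWalls hI).W) :
    ∃ G₁ : Subgroup G, G₁.Normal ∧ G₁.FiniteIndex ∧
      ∀ n ∈ G₁, ∀ s : G, s • A = A → v = (n * s) • u → ∃ s' : G, s' • A = A ∧ v = s' • u := by
  classical
  obtain ⟨B, hBN, hBA, hBq, Φ, hΦ, hdec⟩ := stab_qconv hI hfin hS hδ hA
  have hfinΦ : Finite Φ := hΦ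
  obtain ⟨G₁, h1, h2, h3⟩ := exists_common (ι := Φ)
    (P := fun φ H => ∀ n ∈ H, ∀ b ∈ B, v = (n * b) • ((φ : G) • u) →
      ∃ b' ∈ B, v = b' • ((φ : G) • u))
    (by intro i H H' hle hP n hn; exact hP n (hle hn))
    (by intro φ
        exact sep_aux hI hfin hS hδ B hBN hBq ((smul_mem_iff _ _).2 hu) hv)
  refine ⟨G₁, h1, h2, ?_⟩
  intro n hn s hs hvs
  obtain ⟨b1, hb1, φ, hφ, rfl⟩ := hdec s hs
  obtain ⟨b', hb', hv'⟩ := h3 ⟨φ, hφ⟩ n hn b1 hb1 (by
    rw [hvs, smul_smul, mul_assoc])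
  have hφA : φ • A = A := by
    rw [mul_smul] at hs
    exact smul_left_cancel b1 (hs.trans (hBA b1 hb1).symm)
  refine ⟨b' * φ, ?_, ?_⟩
  · rw [mul_smul, hφA, hBA b' hb']
  · rw [hv', smul_smul]

include hfin hS hδ in
/-- separation of walls -/
theorem sep_one {u v : Set G} (hu : u ∈ (indWalls hI).W) (hv : v ∈ (indWalls hI).W) :
    ∃ G₁ : Subgroup G, G₁.Normal ∧ G₁.FiniteIndex ∧ ∀ n ∈ G₁, v = n • u → v = u := by
  have hq : QConv (mulCayley S) ((⊥ : Subgroup G) : Set G) := by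
    rw [Subgroup.coe_bot]; exact qconv_singleton (cayley_connected S hS) 1
  obtain ⟨G₁, h1, h2, h3⟩ := sep_aux hI hfin hS hδ ⊥ bot_le hq hu hv
  refine ⟨G₁, h1, h2, fun n hn hvn => ?_⟩
  obtain ⟨b', hb', hv'⟩ := h3 n hn 1 (Subgroup.one_mem _) (by rw [mul_one]; exact hvn)
  rw [Subgroup.mem_bot] at hb'
  rw [hv', hb', one_smul]

end

end Pool.Agent.Helper10.VR
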