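import Pool.Agent.Helper10.VR.Completion

/-!
# Special actions on median graphs
-/

namespace Pool.Agent.Helper10.VR

open SimpleGraph

universe u v w

/-- `G` acts freely and cocompactly on the CAT(0) cube complex with 1-skeleton the median graph
`X`, and the quotient is a (compact) special cube complex in the sense of Haglund and Wise. -/
structure CompactSpecialAction {V : Type u} (X : SimpleGraph V) (G : Type v) [Group G]
    [MulAction G V] : Prop where
  median : IsMedian X
  adj : ∀ (g : G) (x y : V), X.Adj x y → X.Adj (g • x) (g • y)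
  free : ∀ (g : G) (x : V), g • x = x → g = 1
  locallyFinite : ∀ x, {y | X.Adj x y}.Finite
  cofinite : ∃ F : Set V, F.Finite ∧ ∀ x, ∃ g : G, g • x ∈ F
  two_sided : ∀ (g : G) (x y : V), X.Adj x y → hs X (g • x) (g • y) ≠ hs X y x
  no_self_intersection : ∀ (g : G) (x y : V), X.Adj x y →
    ¬ Crosses (hs X x y) (hs X (g • x) (g • y))
  no_direct_self_osculation : ∀ (g : G) (x y z : V), X.Adj x y → X.Adj x z → y ≠ z →
    hs X (g • x) (g • y) ≠ hs X x z
  no_inter_osculation : ∀ (g : G) (x y z : V), X.Adj x y → X.Adj x z → y ≠ z →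
    ¬ Crosses (hs X x y) (hs X x z) → ¬ Crosses (hs X x y) (hs X (g • x) (g • z))

section smul

variable {V : Type u} {X : SimpleGraph V} {G : Type v} [Group G] [MulAction G V]

theorem dist_smul (hc : X.Connected) (hadj : ∀ (g : G) (x y : V), X.Adj x y → X.Adj (g • x) (g • y))
    (g : G) (x y : V) : X.dist (g • x) (g • y) = X.dist x y := by
  have key : ∀ (g : G) (x y : V), X.dist (g • x) (g • y) ≤ X.dist x y := by
    intro g x y
    obtain ⟨w, hw⟩ := hc.exists_walk_length_eq_dist x y
    let f : X →g X := ⟨fun x => g • x, fun {a b} h => hadj g a b h⟩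
    have := X.dist_le (w.map f)
    rw [Walk.length_map, hw] at this
    exact this
  apply le_antisymm (key g x y)
  have := key g⁻¹ (g • x) (g • y)
  simpa using this

theorem mem_hs_smul (hc : X.Connected)
    (hadj : ∀ (g : G) (x y : V), X.Adj x y → X.Adj (g • x) (g • y))
    (g : G) (x y z : V) : z ∈ hs X (g • x) (g • y) ↔ g⁻¹ • z ∈ hs X x y := by
  have h1 := dist_smul hc hadj g⁻¹ z (g • x)
  have h2 := dist_smul hc hadj g⁻¹ z (g • y)
  rw [inv_smul_smul] at h1 h2
  change X.dist z (g • x) < X.dist z (g • y) ↔ X.dist (g⁻¹ • z) x < X.dist (g⁻¹ • z) y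
  rw [h1, h2]

theorem smul_mem_hs_smul (hc : X.Connected)
    (hadj : ∀ (g : G) (x y : V), X.Adj x y → X.Adj (g • x) (g • y))
    (g : G) (x y z : V) : g • z ∈ hs X (g • x) (g • y) ↔ z ∈ hs X x y := by
  rw [mem_hs_smul hc hadj, inv_smul_smul]

theorem hs_smul_congr (hc : X.Connected)
    (hadj : ∀ (g : G) (x y : V), X.Adj x y → X.Adj (g • x) (g • y))
    (g : G) {x y z w : V} (h : hs X x y = hs X z w) :
    hs X (g • x) (g • y) = hs X (g • z) (g • w) := by
  ext p
  rw [mem_hs_smul hc hadj, mem_hs_smul hc hadj, h]

theorem crosses_smul (hc : X.Connected)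
    (hadj : ∀ (g : G) (x y : V), X.Adj x y → X.Adj (g • x) (g • y))
    (g : G) {x y z w : V} (h : Crosses (hs X x y) (hs X z w)) :
    Crosses (hs X (g • x) (g • y)) (hs X (g • z) (g • w)) := by
  obtain ⟨⟨a, a1, a2⟩, ⟨b, b1, b2⟩, ⟨c, c1, c2⟩, ⟨d, d1, d2⟩⟩ := h
  refine ⟨⟨g • a, ?_, ?_⟩, ⟨g • b, ?_, ?_⟩, ⟨g • c, ?_, ?_⟩, ⟨g • d, ?_, ?_⟩⟩ <;>
  simp only [Set.mem_compl_iff, smul_mem_hs_smul hc hadj] <;> assumption

theorem btw_smul (hc : X.Connected)
    (hadj : ∀ (g : G) (x y : V), X.Adj x y → X.Adj (g • x) (g • y))
    (g : G) {x y z : V} (h : Btw X x y z) : Btw X (g • x) (g • y) (g • z) := by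
  unfold Btw at *
  rw [dist_smul hc hadj, dist_smul hc hadj, dist_smul hc hadj, h]

end smul

theorem not_crosses_self {O : Type*} (A : Set O) : ¬ Crosses A A := by
  rintro ⟨-, ⟨x, h1, h2⟩, -⟩
  exact h2 h1

/-- A strongly special action: also no indirect self-osculations. -/
structure StrongSpecial {V : Type u} (X : SimpleGraph V) (G : Type v) [Group G]
    [MulAction G V] : Prop where
  median : IsMedian X
  adj : ∀ (g : G) (x y : V), X.Adj x y → X.Adj (g • x) (g • y)
  free : ∀ (g : G) (x : V), g • x = x → g = 1
  inj : ∀ (g : G) (x y z : V), X.Adj x y → X.Adj x z →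
    (hs X (g • x) (g • y) = hs X x z ∨ hs X (g • y) (g • x) = hs X x z) → y = z
  cross : ∀ (g : G) (x y z : V), X.Adj x y → X.Adj x z →
    Crosses (hs X x y) (hs X (g • x) (g • z)) → Crosses (hs X x y) (hs X x z)

/-- The label of an edge: the orbit of its (unoriented) hyperplane. -/
def lab {V : Type u} (X : SimpleGraph V) (G : Type v) [Group G] [MulAction G V] (x y : V) :
    Set (Set V) := {A | ∃ g : G, A = hs X (g • x) (g • y) ∨ A = hs X (g • y) (g • x)}

section lab

variable {V : Type u} {X : SimpleGraph V} {G : Type v} [Group G] [MulAction G V]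

theorem lab_symm (x y : V) : lab X G x y = lab X G y x := by
  ext A
  constructor <;> rintro ⟨g, h⟩ <;> exact ⟨g, h.symm⟩

theorem mem_lab_self (x y : V) : hs X x y ∈ lab X G x y := ⟨1, by simp⟩

theorem lab_smul (g : G) (x y : V) : lab X G (g • x) (g • y) = lab X G x y := by
  ext A
  constructor
  · rintro ⟨h, hA⟩
    exact ⟨h * g, by simpa [mul_smul] using hA⟩
  · rintro ⟨h, hA⟩
    exact ⟨h * g⁻¹, by simpa [mul_smul] using hA⟩

theorem lab_congr (hX : IsMedian X)
    (hadj : ∀ (g : G) (x y : V), X.Adj x y → X.Adj (g • x) (g • y)) {x y z w : V}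
    (h1 : X.Adj x y) (h2 : X.Adj z w)
    (h : hs X x y = hs X z w) : lab X G x y = lab X G z w := by
  have h' : hs X y x = hs X w z := by rw [← hX.hs_compl h1, ← hX.hs_compl h2, h]
  ext A
  constructor
  · rintro ⟨g, rfl | rfl⟩
    · exact ⟨g, Or.inl (hs_smul_congr hX.conn hadj g h)⟩
    · exact ⟨g, Or.inr (hs_smul_congr hX.conn hadj g h')⟩
  · rintro ⟨g, rfl | rfl⟩
    · exact ⟨g, Or.inl (hs_smul_congr hX.conn hadj g h.symm)⟩
    · exact ⟨g, Or.inr (hs_smul_congr hX.conn hadj g h'.symm)⟩

theorem StrongSpecial.labelled (hS : StrongSpecial X G) :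
    Labelled X (⊤ : Subgroup G) (lab X G) where
  adj := hS.adj
  symm x y _ := lab_symm x y
  par x y z t h1 h2 h3 h4 h5 h6 :=
    lab_congr hS.median hS.adj h1 h3.symm (hS.median.square_hs h1 h2 h3 h4 h5 h6)
  inv n _ x y _ := lab_smul n x y
  map g x y x' y' _ _ h := by rw [lab_smul, lab_smul, h]
  free n _ x h := hS.free n x h
  inj x y z h1 h2 h := by
    have : hs X x z ∈ lab X G x y := by rw [h]; exact mem_lab_self x z
    obtain ⟨g, hg⟩ := this
    exact hS.inj g x y z h1 h2 (hg.imp Eq.symm Eq.symm)
  corner x y z t h1 h2 h3 h4 h5 h6 u v w g1 g2 e1 e2 := by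
    have hX := hS.median
    have hadj := hS.adj
    have hc := hX.square_crosses h1 h2 h3 h4 h5 h6
    have m1 : hs X u v ∈ lab X G x y := by rw [← e1]; exact mem_lab_self u v
    have m2 : hs X x t ∈ lab X G u w := by rw [e2]; exact mem_lab_self x t
    obtain ⟨n, hn⟩ := m1
    obtain ⟨n', hn'⟩ := m2
    have c1 : Crosses (hs X (n • x) (n • y)) (hs X (n • x) (n • t)) :=
      crosses_smul hX.conn hadj n hc
    have c2 : Crosses (hs X u v) (hs X (n • x) (n • t)) := by
      rcases hn with hn | hn
      · rw [hn]; exact c1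
      · rw [hn, ← hX.hs_compl (hadj n _ _ h1)]
        exact c1.compl_left
    have c3 : Crosses (hs X u v) (hs X ((n * n') • u) ((n * n') • w)) := by
      rcases hn' with hn' | hn'
      · have e := hs_smul_congr hX.conn hadj n hn'
        rw [smul_smul, smul_smul] at e
        rw [← e]; exact c2
      · have e := hs_smul_congr hX.conn hadj n hn'
        rw [smul_smul, smul_smul] at e
        rw [← hX.hs_compl (hadj (n * n') _ _ g2.symm), ← e]
        exact c2.compl_right
    have c4 := hS.cross (n * n') u v w g1 g2 c3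
    have hvw : v ≠ w := by
      rintro rfl
      exact not_crosses_self _ c4
    obtain ⟨s, s1, s2, s3⟩ := hX.corner_square g1 g2 hvw c4.2.2.2
    exact ⟨s, s3, s1, s2⟩

/-- strongly special actions restrict -/
theorem StrongSpecial.restrict {H : Type w} [Group H] (f : H →* G) (hf : Function.Injective f)
    (hS : StrongSpecial X G) :
    @StrongSpecial V X H _ (MulAction.compHom V f) := by
  let _ := MulAction.compHom V f
  have e : ∀ (h : H) (x : V), h • x = f h • x := fun _ _ => rfl
  exact
    { median := hS.median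
      adj := fun g x y h => by rw [e, e]; exact hS.adj _ _ _ h
      free := fun g x h => by
        rw [e] at h
        exact hf (by rw [hS.free _ _ h, map_one])
      inj := fun g x y z h1 h2 h => by
        rw [e, e] at h
        exact hS.inj _ x y z h1 h2 h
      cross := fun g x y z h1 h2 h => by
        rw [e, e] at h
        exact hS.cross _ x y z h1 h2 h }

end lab

section strong

variable {V : Type u} {X : SimpleGraph V} {G : Type v} [Group G] [MulAction G V]

theorem ofAdd_one_sq : (Multiplicative.ofAdd (1 : ZMod 2)) * (Multiplicative.ofAdd (1 : ZMod 2)) = 1 := by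
  decide

theorem ofAdd_one_ne : (Multiplicative.ofAdd (1 : ZMod 2)) ≠ 1 := by
  decide

/-- finitely many labels -/
theorem finite_labels (hS : CompactSpecialAction X G) :
    {a : Set (Set V) | ∃ x y, X.Adj x y ∧ a = lab X G x y}.Finite := by
  obtain ⟨F, hF, hFV⟩ := hS.cofinite
  have : (⋃ x ∈ F, (fun y => lab X G x y) '' {y | X.Adj x y}).Finite :=
    hF.biUnion (fun x _ => (hS.locallyFinite x).image _)
  refine this.subset ?_
  rintro a ⟨x, y, hxy, rfl⟩
  obtain ⟨g, hg⟩ := hFV x
  rw [Set.mem_iUnion₂]
  exact ⟨g • x, hg, g • y, hS.adj g x y hxy, lab_smul g x y⟩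

/-- A special action becomes strongly special on a finite index subgroup. -/
theorem exists_strongSpecial (hS : CompactSpecialAction X G) :
    ∃ N : Subgroup G, N.FiniteIndex ∧ StrongSpecial X N := by
  classical
  have hX := hS.median
  have hadj := hS.adj
  let c : V → V → (Set (Set V) → Multiplicative (ZMod 2)) := fun x y =>
    Pi.mulSingle (lab X G x y) (Multiplicative.ofAdd 1)
  have hcsq : ∀ x y, c x y * c x y = 1 := by
    intro x y
    change Pi.mulSingle _ _ * Pi.mulSingle _ _ = _
    rw [← Pi.mulSingle_mul, ofAdd_one_sq, Pi.mulSingle_one]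
  have hcsymm : ∀ x y, c y x = c x y := by
    intro x y; change Pi.mulSingle _ _ = Pi.mulSingle _ _; rw [lab_symm]
  have hcg : ∀ (g : G) x y, c (g • x) (g • y) = c x y := by
    intro g x y; change Pi.mulSingle _ _ = Pi.mulSingle _ _; rw [lab_smul]
  obtain ⟨T, hT⟩ := exists_potential hX c
    (fun x y _ => by rw [hcsymm, hcsq])
    (by
      intro x y z t h1 h2 h3 h4 h5 h6
      have e1 : c y z = c x t := by
        change Pi.mulSingle _ _ = Pi.mulSingle _ _
        rw [lab_congr hX hadj h2 h3
          (hX.square_hs h3 h4 h2.symm h1.symm h5 h6.symm).symm]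
      have e2 : c t z = c x y := by
        change Pi.mulSingle _ _ = Pi.mulSingle _ _
        rw [lab_congr hX hadj h4 h1
          (hX.square_hs h1 h2 h4.symm h3.symm h5 h6).symm]
      rw [e1, e2, mul_comm])
  obtain ⟨x0⟩ := hX.conn.nonempty
  have hTg : ∀ (g : G) (x : V), T (g • x) * (T x)⁻¹ = T (g • x0) * (T x0)⁻¹ := by
    intro g
    refine conn_induction hX.conn x0 rfl ?_
    intro y z hyz ih
    rw [hT y z hyz, hT _ _ (hadj g y z hyz), hcg, ← ih]
    rw [mul_inv, mul_comm (c y z)⁻¹, ← mul_assoc, mul_comm (c y z), mul_assoc (T (g • y)),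
      mul_comm (c y z), ← mul_assoc, mul_assoc, mul_inv_cancel, mul_one]
  let φ : G →* (Set (Set V) → Multiplicative (ZMod 2)) :=
    { toFun := fun g => T (g • x0) * (T x0)⁻¹
      map_one' := by simp
      map_mul' := by
        intro g h
        rw [mul_smul, ← hTg g (h • x0)]
        group }
  let C : Set (Set (Set V)) := {a | ∃ x y, X.Adj x y ∧ a = lab X G x y}
  have hC : C.Finite := finite_labels hS
  have hsupp : ∀ x y : V, ∀ a, a ∉ C → (T y * (T x)⁻¹) a = 1 := by
    intro x
    refine conn_induction hX.conn x ?_ ?_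
    · intro a _; simp
    · intro y z hyz ih a ha
      rw [hT y z hyz, mul_assoc, Pi.mul_apply, ih a ha, mul_one]
      change (Pi.mulSingle (lab X G y z) (Multiplicative.ofAdd (1 : ZMod 2)) :
        Set (Set V) → Multiplicative (ZMod 2)) a = 1
      rw [Pi.mulSingle_eq_of_ne]
      rintro rfl
      exact ha ⟨y, z, hyz, rfl⟩
  have hfin : Finite φ.range := by
    have : Finite C := hC
    let r : φ.range → (C → Multiplicative (ZMod 2)) := fun m a => m.1 a.1
    refine Finite.of_injective r ?_
    rintro ⟨m, g, rfl⟩ ⟨m', g', rfl⟩ h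
    apply Subtype.ext
    funext a
    by_cases ha : a ∈ C
    · exact congrFun h ⟨a, ha⟩
    · exact (hsupp x0 (g • x0) a ha).trans (hsupp x0 (g' • x0) a ha).symm
  refine ⟨φ.ker, Subgroup.finiteIndex_ker φ, ?_⟩
  have e : ∀ (g : φ.ker) (x : V), g • x = (g : G) • x := fun _ _ => rfl
  refine
    { median := hX
      adj := fun g x y h => hadj _ x y h
      free := fun g x h => Subtype.ext (hS.free _ x h)
      inj := ?_
      cross := ?_ }
  · intro g x y z hxy hxz h
    rw [e, e] at h
    by_contra hne
    rcases h with h | h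
    · exact hS.no_direct_self_osculation _ x y z hxy hxz hne h
    · -- parity argument
      have hg : T ((g : G) • x) = T x := by
        have h1 : T ((g : G) • x0) * (T x0)⁻¹ = 1 := g.2
        have h2 := hTg (g : G) x
        rw [h1, mul_inv_eq_one] at h2
        exact h2
      set gx := (g : G) • x with hgx
      set gy := (g : G) • y with hgy
      have hgxy : X.Adj gx gy := hadj _ _ _ hxy
      have key : ∀ n, ∀ r, X.dist z r = n → Btw X z r gx →
          T r (lab X G x z) = T z (lab X G x z) := by
        intro n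
        induction n with
        | zero =>
          intro r hr _
          have : z = r := (hX.conn.dist_eq_zero_iff).1 hr
          rw [this]
        | succ n ih =>
          intro r hr hb
          have hne' : r ≠ z := by rintro rfl; simp at hr
          obtain ⟨r0, h1, h2⟩ := exists_step' hX.conn hne'
          have h2' : Btw X z r0 r := h2.symm
          have hr0 : X.dist z r0 = n := by
            unfold Btw at h2'
            rw [adj_dist h1.symm] at h2'
            omega
          have hb0 : Btw X z r0 gx := hb.trans_left hX.conn h2'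
          rw [hT r0 r h1.symm, Pi.mul_apply, ih r0 hr0 hb0]
          change (Pi.mulSingle (lab X G r0 r) (Multiplicative.ofAdd (1 : ZMod 2)) :
            Set (Set V) → Multiplicative (ZMod 2)) (lab X G x z) * _ = _
          rw [Pi.mulSingle_eq_of_ne, one_mul]
          intro hlab
          -- `hs r0 r` crosses `hs x z`
          have hzr : z ∈ hs X r0 r := by
            rw [hX.mem_hs_iff h1.symm]; omega
          have hgr : gx ∉ hs X r0 r := by
            rw [hX.not_mem_hs_iff h1.symm]
            have t1 := hb0
            have t2 := hb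
            unfold Btw at t1 t2
            have s1 := X.dist_comm (u := gx) (v := r0)
            have s2 := X.dist_comm (u := gx) (v := r)
            omega
          have hxr : x ∈ hs X r0 r := by
            by_contra hx
            have e1 : hs X r0 r = hs X z x := hX.eq_hs (IsMedian.hs_isHS h1.symm) hxz.symm hzr hx
            have e2 : gx ∈ hs X z x := by
              rw [← hX.hs_compl hxz, ← h]; exact hX.right_not_mem_hs hgxy.symm
            rw [e1] at hgr
            exact hgr e2
          have hyr : gy ∉ hs X r0 r := by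
            intro hy
            have e1 : hs X r0 r = hs X gy gx := hX.eq_hs (IsMedian.hs_isHS h1.symm) hgxy.symm hy hgr
            rw [e1, h] at hzr
            exact hX.right_not_mem_hs hxz hzr
          have hcr : Crosses (hs X x z) (hs X r0 r) := by
            refine ⟨⟨x, hX.left_mem_hs hxz, hxr⟩, ⟨gy, ?_, hyr⟩,
              ⟨z, hX.right_not_mem_hs hxz, hzr⟩, ⟨gx, ?_, hgr⟩⟩
            · rw [← h]; exact hX.left_mem_hs hgxy.symm
            · rw [← h]; exact hX.right_not_mem_hs hgxy.symm
          have hmem : hs X r0 r ∈ lab X G x z := by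
            rw [hlab]; exact mem_lab_self r0 r
          obtain ⟨k, hk | hk⟩ := hmem
          · rw [hk] at hcr
            exact hS.no_self_intersection k x z hxz hcr
          · rw [hk, ← hX.hs_compl (hadj k _ _ hxz)] at hcr
            have := hcr.compl_right
            rw [compl_compl] at this
            exact hS.no_self_intersection k x z hxz this
      have h1 := key _ gx rfl (btw_right _ _)
      rw [hg, hT x z hxz, Pi.mul_apply] at h1
      have h2 : (c x z) (lab X G x z) = Multiplicative.ofAdd (1 : ZMod 2) := by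
        change (Pi.mulSingle (lab X G x z) (Multiplicative.ofAdd (1 : ZMod 2)) :
          Set (Set V) → Multiplicative (ZMod 2)) (lab X G x z) = _
        rw [Pi.mulSingle_eq_same]
      rw [h2] at h1
      exact ofAdd_one_ne (mul_right_cancel (h1.symm.trans (one_mul _).symm))
  · intro g x y z hxy hxz h
    rw [e, e] at h
    by_cases hyz : y = z
    · subst hyz
      exact absurd h (hS.no_self_intersection _ x y hxy)
    · by_contra hcon
      exact hS.no_inter_osculation _ x y z hxy hxz hyz hcon h

end strong

end Pool.Agent.Helper10.VR
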